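import Pool.Agent.Lib.H45Torus.BA2

/-!
# Chunk BA3: density of the transition condition
-/

namespace H45T

open Filter Topology Set

/-- Density of the transition condition: `P0` is contained in the closure of `P0 ∩ Tr U W`.
Proof: let `γ ∈ P0`, `γ 1 = h₀ FF h₀⁻¹`, `N` an open neighbourhood of `γ`.  Step 1: `N'` from
`perturb_path`, `lemS` for the open set `h₀⁻¹ U` (`{z | h₀ • z ∈ U}`) and `N'`: `h₁`, `Ψ₁`, and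
`σ ∈ Ws` with `h₀ • h₁ • σ ∈ U`; `γ₁ ∈ N` with `γ₁ 1 = (h₀ h₁) FF (h₀ h₁)⁻¹`.  Step 2: `N''` from
`perturb_path` for `γ₁` (`N` is also a neighbourhood of `γ₁`), `lemU` for the open set
`{z | (h₀ h₁) • z ∈ W}`: `h₂`, `τ ∈ Wu` with `(h₀ h₁ h₂) • τ ∈ W`, `γ₂ ∈ N`.  As
`σ ∉ Us` (`Ws_not_Us`), `h₂ • σ = σ`, so with `h = h₀ h₁ h₂`: `h • σ ∈ U`, `h • τ ∈ W`.  `h` fixes
`KK` pointwise, so `γ₂ ∈ P0`.  By `transition` for `A = {z | h • z ∈ U}`, `B = {z | h • z ∈ W}` there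
are `n ≥ 1`, `w`, `z` with `h • z ∈ U`, `h • (FF ^ n • z - iv w) ∈ W`; with `z' = h • z`:
`(γ₂ 1) ^ n • z' - iv w = h • FF ^ n • z - iv w ∈ W` (conjugation of powers: `conj_pow`). -/
lemma P0_subset_closure_Tr {U W : Set Pl} (hU : IsOpen U) (hW : IsOpen W) (hU' : U.Nonempty)
    (hW' : W.Nonempty) : P0 ⊆ closure (P0 ∩ Tr U W) := by
  rintro γ ⟨hγ0, h₀, hh₀, hγ1⟩
  rw [mem_closure_iff_nhds]
  intro N hN
  obtain ⟨N₁, hN₁N, hN₁o, hγN⟩ := mem_nhds_iff.1 hN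
  -- preimages of open sets
  have hpre : ∀ (g : EE) (O : Set Pl), IsOpen O → IsOpen {z : Pl | g • z ∈ O} := fun g O hO =>
    hO.preimage (continuous_smul_pl g)
  have hprene : ∀ (g : EE) (O : Set Pl), O.Nonempty → {z : Pl | g • z ∈ O}.Nonempty := by
    rintro g O ⟨y, hy⟩
    exact ⟨g⁻¹ • y, by simpa using hy⟩
  -- step 1
  obtain ⟨N', hN', hpath⟩ := perturb_path γ h₀ hγ1 hγ0 (hN₁o.mem_nhds hγN)
  obtain ⟨h₁, Ψ₁, hΨ₁, hΨ₁0, hid₁, hconj₁, σ, hσ, hσU⟩ :=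
    lemS (hpre h₀ U hU) (hprene h₀ U hU') hN'
  obtain ⟨γ₁, hγ₁N, hγ₁0, hγ₁1⟩ := hpath h₁ Ψ₁ hΨ₁ hΨ₁0 hconj₁
  -- step 2
  obtain ⟨N'', hN'', hpath₂⟩ := perturb_path γ₁ (h₀ * h₁) hγ₁1 hγ₁0 (hN₁o.mem_nhds hγ₁N)
  obtain ⟨h₂, Ψ₂, hΨ₂, hΨ₂0, hid₂, hconj₂, τ, hτ, hτW⟩ :=
    lemU (hpre (h₀ * h₁) W hW) (hprene (h₀ * h₁) W hW') hN''
  obtain ⟨γ₂, hγ₂N, hγ₂0, hγ₂1⟩ := hpath₂ h₂ Ψ₂ hΨ₂ hΨ₂0 hconj₂
  set h : EE := h₀ * h₁ * h₂ with hh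
  have hσh : h • σ ∈ U := by
    rw [hh, mul_smul, hid₂ σ (Ws_not_Us hσ), mul_smul]
    exact hσU
  have hτh : h • τ ∈ W := by
    rw [hh, mul_smul]
    exact hτW
  have hfix : ∀ z ∈ KK, h • z = z := by
    intro z hz
    have hz1 : z ∉ Us := fun h' => hz (Or.inl h')
    have hz2 : z ∉ Uu := fun h' => hz (Or.inr h')
    rw [hh, mul_smul, hid₂ z hz1, mul_smul, hid₁ z hz2, hh₀ z hz]
  obtain ⟨n, hn, w, z, hzA, hzB⟩ :=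
    transition hσ hτ (hpre h U hU) (hpre h W hW) hσh hτh
  refine ⟨γ₂, hN₁N hγ₂N, ⟨hγ₂0, h, hfix, hγ₂1⟩, n, hn, w, h • z, hzA, ?_⟩
  rw [hγ₂1, conj_pow, mul_smul, mul_smul, inv_smul_smul]
  have : h • (FF ^ n • z - iv w) ∈ W := hzB
  rwa [smul_sub_iv] at this

end H45T
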