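import Pool.Agent.Lib.H45Torus.BA1
import Pool.Agent.Lib.H45Torus.BA3

/-!
# Chunk BA: the Baire argument in the space of paths
-/

namespace H45T

open Filter Topology Set

lemma BA_dense {T : Set C(unitInterval, EE)} (h : P0 ⊆ closure (P0 ∩ T)) :
    Dense {x : closure P0 | x.1 ∈ T} := by
  rw [Subtype.dense_iff]
  have h1 : closure P0 ⊆ closure (P0 ∩ T) := closure_minimal h isClosed_closure
  refine h1.trans (closure_mono ?_)
  rintro γ ⟨hγ, hT⟩
  exact ⟨⟨γ, subset_closure hγ⟩, hT, rfl⟩

/-- The Baire argument.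
The closed set `X = closure P0` of the complete metric space `C(unitInterval, EE)` is a Baire space
(nonempty by `base_path`).  Let `B i` be a countable basis of nonempty open sets of the plane, and
`L k` countably many compact sets disjoint from `KK` covering the complement of `KK`
(closed balls with rational centre and radius).  In `X`, the sets `Tr (B i) (B j)` and `NP q (L k)`
(`q ≥ 1`) are open and dense (they are dense because `P0 ⊆ closure (P0 ∩ Tr …)`, `P0 ⊆ NP q L`), so
there is `γ ∈ X` in all of them (`dense_iInter_of_isOpen`).  The conditions `γ 0 = 1` and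
`∀ z ∈ KK, γ 1 • z = FF • z` are closed and satisfied on `P0` (`h FF h⁻¹ • z = h • FF • z = FF • z`
by `FF_smul_mem_KK`). -/
theorem exists_generic :
    ∃ γ : C(unitInterval, EE), γ 0 = 1 ∧ (∀ z ∈ KK, γ 1 • z = FF • z) ∧
      (∀ U W : Set Pl, IsOpen U → IsOpen W → U.Nonempty → W.Nonempty → γ ∈ Tr U W) ∧
      ∀ q : ℕ, 1 ≤ q → ∀ (z : Pl) (w : ℤ × ℤ), (γ 1) ^ q • z = z + iv w → z ∈ KK := by
  -- the Baire space
  have hcl : IsClosed (closure P0) := isClosed_closure
  have : CompleteSpace (closure P0) := hcl.completeSpace_coe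
  obtain ⟨Φ, hΦ0, hΦ1⟩ := base_path
  have hΦ : Φ ∈ P0 := ⟨hΦ0, 1, by simp, by simp [hΦ1]⟩
  have : Nonempty (closure P0) := ⟨⟨Φ, subset_closure hΦ⟩⟩
  -- the countable families
  let cb := TopologicalSpace.countableBasis Pl
  have hcb : TopologicalSpace.IsTopologicalBasis cb := TopologicalSpace.isBasis_countableBasis Pl
  have hcount : cb.Countable := TopologicalSpace.countable_countableBasis Pl
  let cb' : Set (Set Pl) := {B ∈ cb | IsCompact (closure B) ∧ Disjoint (closure B) KK}
  let S1 : Set (Set (closure P0)) :=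
    image2 (fun U W => {x : closure P0 | x.1 ∈ Tr U W}) cb cb
  let S2 : Set (Set (closure P0)) :=
    image2 (fun (q : ℕ) B => {x : closure P0 | x.1 ∈ NP (q + 1) (closure B)}) univ cb'
  have hS : (S1 ∪ S2).Countable :=
    (hcount.image2 hcount _).union
      ((to_countable (univ : Set ℕ)).image2 (hcount.mono (sep_subset _ _)) _)
  have hdense : Dense (⋂₀ (S1 ∪ S2)) := by
    refine dense_sInter_of_isOpen ?_ hS ?_
    · rintro s (⟨U, hU, W, hW, rfl⟩ | ⟨q, -, B, hB, rfl⟩)
      · exact (isOpen_Tr (hcb.isOpen hW)).preimage continuous_subtype_val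
      · exact (isOpen_NP (q + 1) hB.2.1).preimage continuous_subtype_val
    · rintro s (⟨U, hU, W, hW, rfl⟩ | ⟨q, -, B, hB, rfl⟩)
      · refine BA_dense (P0_subset_closure_Tr (hcb.isOpen hU) (hcb.isOpen hW)
          (TopologicalSpace.nonempty_of_mem_countableBasis hU)
          (TopologicalSpace.nonempty_of_mem_countableBasis hW))
      · refine BA_dense ?_
        intro γ hγ
        exact subset_closure ⟨hγ, P0_subset_NP (by omega) hB.2.2 hγ⟩
  obtain ⟨x, hx⟩ := hdense.nonempty
  refine ⟨x.1, ?_, ?_, ?_, ?_⟩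
  · -- `γ 0 = 1`
    have hc : IsClosed {γ : C(unitInterval, EE) | γ 0 = 1} :=
      isClosed_eq (continuous_eval_const (0 : unitInterval)) continuous_const
    have : closure P0 ⊆ {γ : C(unitInterval, EE) | γ 0 = 1} :=
      closure_minimal (fun γ hγ => hγ.1) hc
    exact this x.2
  · intro z hz
    have hc : IsClosed {γ : C(unitInterval, EE) | γ 1 • z = FF • z} := by
      refine isClosed_eq ?_ continuous_const
      have h1 : Continuous fun γ : C(unitInterval, EE) => γ 1 :=
        continuous_eval_const (1 : unitInterval)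
      exact h1.smul continuous_const
    have : closure P0 ⊆ {γ : C(unitInterval, EE) | γ 1 • z = FF • z} := by
      refine closure_minimal ?_ hc
      rintro γ ⟨-, h, hh, hγ⟩
      show γ 1 • z = FF • z
      have hinv : h⁻¹ • z = z := by
        rw [inv_smul_eq_iff]; exact (hh z hz).symm
      rw [hγ, mul_smul, mul_smul, hinv]
      exact hh _ (FF_smul_mem_KK.2 hz)
    exact this x.2
  · intro U W hU hW hU' hW'
    obtain ⟨u, hu⟩ := hU'
    obtain ⟨v, hv⟩ := hW'
    obtain ⟨B, hB, huB, hBU⟩ := hcb.exists_subset_of_mem_open hu hU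
    obtain ⟨B', hB', hvB, hBW⟩ := hcb.exists_subset_of_mem_open hv hW
    have h1 : x ∈ {x : closure P0 | x.1 ∈ Tr B B'} :=
      hx _ (Or.inl ⟨B, hB, B', hB', rfl⟩)
    obtain ⟨n, hn, w, z, hz, hzw⟩ := h1
    exact ⟨n, hn, w, z, hBU hz, hBW hzw⟩
  · intro q hq z w hzw
    by_contra hz
    have hopen : IsOpen (KKᶜ) := isClosed_KK.isOpen_compl
    obtain ⟨K', hK', hzK, hKK⟩ := exists_compact_subset hopen (show z ∈ KKᶜ from hz)
    obtain ⟨B, hB, hzB, hBK⟩ := hcb.exists_subset_of_mem_open hzK isOpen_interior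
    have hBcl : closure B ⊆ K' :=
      closure_minimal (hBK.trans interior_subset) hK'.isClosed
    have hB2 : B ∈ cb' := by
      refine ⟨hB, hK'.of_isClosed_subset isClosed_closure hBcl, ?_⟩
      rw [disjoint_left]
      intro y hy hyK
      exact hKK (hBcl hy) hyK
    have h1 : x ∈ {x : closure P0 | x.1 ∈ NP (q - 1 + 1) (closure B)} :=
      hx _ (Or.inr ⟨q - 1, mem_univ _, B, hB2, rfl⟩)
    have hq' : q - 1 + 1 = q := by omega
    rw [hq'] at h1
    exact h1 z (subset_closure hzB) w hzw

end H45T
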