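import Pool.Agent.Lib.H45Torus.Basic

/-!
# Chunk ISO: straight-line isotopies
-/

namespace H45T

open Filter Topology Set

lemma ISO_inj (g : Pl → Pl) (C : ℝ)
    (hC : ∀ z z' : Pl, dist z z' ≤ C * dist (g z) (g z')) : Function.Injective g := by
  intro z z' h
  have := hC z z'
  rw [h, dist_self, mul_zero] at this
  exact dist_le_zero.1 this

/-- A bijection with a lower Lipschitz bound is a homeomorphism. -/
noncomputable def ISO_homeo (g : Pl → Pl) (hg : Continuous g) (C : ℝ) (hC0 : 0 ≤ C)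
    (hC : ∀ z z' : Pl, dist z z' ≤ C * dist (g z) (g z')) (hs : Function.Surjective g) :
    Pl ≃ₜ Pl where
  toEquiv := Equiv.ofBijective g ⟨ISO_inj g C hC, hs⟩
  continuous_toFun := hg
  continuous_invFun := by
    refine (LipschitzWith.of_dist_le_mul (K := ⟨C, hC0⟩) fun x y => ?_).continuous
    have := hC ((Equiv.ofBijective g ⟨ISO_inj g C hC, hs⟩).symm x)
      ((Equiv.ofBijective g ⟨ISO_inj g C hC, hs⟩).symm y)
    have h1 := Equiv.ofBijective_apply_symm_apply g ⟨ISO_inj g C hC, hs⟩ x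
    have h2 := Equiv.ofBijective_apply_symm_apply g ⟨ISO_inj g C hC, hs⟩ y
    rw [h1, h2] at this
    exact this

lemma ISO_bounded (p : Pl → Pl) (hp : Continuous p)
    (hper : ∀ (z : Pl) (w : ℤ × ℤ), p (z + iv w) = p z) : ∃ M : ℝ, 0 ≤ M ∧ ∀ z, ‖p z‖ ≤ M := by
  obtain ⟨C, hC⟩ := (isCompact_Icc (a := (0:ℝ)) (b := 1)).prod (isCompact_Icc (a := (0:ℝ)) (b := 1))
    |>.exists_bound_of_continuousOn hp.continuousOn
  refine ⟨max C 0, le_max_right _ _, fun z => ?_⟩
  obtain ⟨w, hw⟩ := exists_fract z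
  have h1 := hC (z - iv w) ⟨⟨hw.1.1, hw.1.2.le⟩, ⟨hw.2.1, hw.2.2.le⟩⟩
  have h2 := hper (z - iv w) w
  rw [sub_add_cancel] at h2
  rw [h2]
  exact h1.trans (le_max_left _ _)

/-- If the maps `g_t z = z + t • p z`, `t ∈ [0,1]`, are surjective with a uniform lower Lipschitz
bound, they form a continuous path of `EE`.
Proof: each `g_t` is continuous, injective (by `hC`), surjective, and its inverse is Lipschitz
(constant `C`), so a homeomorphism; it commutes with `iv w` because `p` is periodic.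
Let `M` be a bound of `‖p‖` (continuous periodic: bounded on `[0,1]²`, `exists_fract`).  Then
`dist (g_t z) (g_s z) ≤ |t - s| M` and, with `a = g_t⁻¹ z`, `b = g_s⁻¹ z`,
`dist a b ≤ C dist (g_t a) (g_t b) = C dist (g_s b) (g_t b) ≤ C |t - s| M`; so
`dist (Ψ t) (Ψ s) ≤ max 1 C * M * |t - s|` by `dist_le_iff`. -/
theorem iso_path (p : Pl → Pl) (hp : Continuous p)
    (hper : ∀ (z : Pl) (w : ℤ × ℤ), p (z + iv w) = p z) (C : ℝ)
    (hC : ∀ t ∈ Icc (0:ℝ) 1, ∀ z z' : Pl, dist z z' ≤ C * dist (z + t • p z) (z' + t • p z'))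
    (hs : ∀ t ∈ Icc (0:ℝ) 1, Function.Surjective (fun z : Pl => z + t • p z)) :
    ∃ Ψ : C(unitInterval, EE), ∀ (t : unitInterval) (z : Pl),
      Ψ t • z = z + (t : ℝ) • p z := by
  have hC1 : 1 ≤ C := by
    have h := hC 0 ⟨le_rfl, zero_le_one⟩ ((0, 0) : Pl) ((1, 0) : Pl)
    have h1 : dist ((0, 0) : Pl) ((1, 0) : Pl) = 1 := by
      simp [Prod.dist_eq]
    simp only [zero_smul, add_zero] at h
    rw [h1] at h
    linarith
  have hC0 : 0 ≤ C := zero_le_one.trans hC1
  obtain ⟨M, hM0, hM⟩ := ISO_bounded p hp hper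
  let G : unitInterval → EE := fun t => EE.mk'
    (ISO_homeo (fun z => z + (t : ℝ) • p z) (by fun_prop) C hC0 (hC t t.2) (hs t t.2))
    (by
      intro z w
      show (z + iv w) + (t : ℝ) • p (z + iv w) = (z + (t : ℝ) • p z) + iv w
      rw [hper]
      abel)
  have hG : ∀ (t : unitInterval) (z : Pl), G t • z = z + (t : ℝ) • p z := fun t z => rfl
  have hd : ∀ (t s : unitInterval) (z : Pl),
      dist (z + (t : ℝ) • p z) (z + (s : ℝ) • p z) ≤ |(t : ℝ) - s| * M := by
    intro t s z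
    rw [dist_add_left, dist_eq_norm, ← sub_smul, norm_smul, Real.norm_eq_abs]
    exact mul_le_mul_of_nonneg_left (hM z) (abs_nonneg _)
  have hcont : Continuous G := by
    refine (LipschitzWith.of_dist_le_mul (K := ⟨C * M, mul_nonneg hC0 hM0⟩) fun t s => ?_).continuous
    have hts : dist t s = |(t : ℝ) - s| := rfl
    show dist (G t) (G s) ≤ (C * M) * dist t s
    rw [hts, dist_le_iff (by positivity)]
    constructor
    · intro z
      rw [hG, hG]
      refine (hd t s z).trans ?_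
      have := abs_nonneg ((t : ℝ) - s)
      nlinarith [mul_nonneg this hM0, mul_nonneg (mul_nonneg this hM0) (sub_nonneg.2 hC1)]
    · intro z
      have ha : G t • ((G t)⁻¹ • z) = z := smul_inv_smul _ _
      have hb : G s • ((G s)⁻¹ • z) = z := smul_inv_smul _ _
      rw [hG] at ha hb
      have h1 := hC t t.2 ((G t)⁻¹ • z) ((G s)⁻¹ • z)
      rw [ha] at h1
      have h2 := hd s t ((G s)⁻¹ • z)
      rw [hb] at h2
      rw [abs_sub_comm] at h2
      calc dist ((G t)⁻¹ • z) ((G s)⁻¹ • z)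
          ≤ C * dist z ((G s)⁻¹ • z + (t : ℝ) • p ((G s)⁻¹ • z)) := h1
        _ ≤ C * (|(t : ℝ) - s| * M) := mul_le_mul_of_nonneg_left h2 hC0
        _ = C * M * |(t : ℝ) - s| := by ring
  exact ⟨⟨G, hcont⟩, hG⟩

end H45T
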