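import Pool.Agent.Lib.H45Torus.UC

/-!
# Chunk TG: `EE` is a topological group
-/

namespace H45T

open Filter Topology Set

/-- `EE` is a topological group for its metric.
Proof: the inverse is an isometry (`dist_inv_inv`).  Product at `(f, g)`: given `ε`, let `δ` be a
modulus of uniform continuity of `f` and `δ'` one of `g⁻¹` for `ε/4` (`uc`).  If
`dist f' f < min (ε/4) δ'`, `dist g' g < min (ε/4) δ` then
`dist (f'g' z) (f g z) ≤ dist (f' (g' z)) (f (g' z)) + dist (f (g' z)) (f (g z)) ≤ ε/4 + ε/4` and for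
the inverses `dist (g'⁻¹ f'⁻¹ z) (g⁻¹ f⁻¹ z) ≤ dist (g'⁻¹ (f'⁻¹ z)) (g⁻¹ (f'⁻¹ z)) +
dist (g⁻¹ (f'⁻¹ z)) (g⁻¹ (f⁻¹ z)) ≤ ε/4 + ε/4`; use `dist_le_iff`, `dist_smul_le`,
`dist_inv_smul_le`, `mul_inv_rev`, `mul_smul`. -/
theorem isTopologicalGroup_EE : IsTopologicalGroup EE := by
  have huc : ∀ (f : EE) (ε : ℝ), 0 < ε → ∃ δ > 0, ∀ a b : Pl, dist a b < δ →
      dist (f • a) (f • b) < ε := by
    intro f ε hε
    obtain ⟨δ, hδ, H⟩ := Metric.uniformContinuous_iff.1 (uc f) ε hε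
    exact ⟨δ, hδ, fun a b h => H h⟩
  have hinv : Continuous (fun f : EE => f⁻¹) :=
    (Isometry.of_dist_eq (f := fun f : EE => f⁻¹) dist_inv_inv).continuous
  have hmul : Continuous (fun p : EE × EE => p.1 * p.2) := by
    rw [Metric.continuous_iff]
    rintro ⟨f, g⟩ ε hε
    obtain ⟨δ, hδ, H⟩ := huc f (ε / 4) (by linarith)
    obtain ⟨δ', hδ', H'⟩ := huc g⁻¹ (ε / 4) (by linarith)
    refine ⟨min (min (ε / 4) δ') (min (ε / 4) δ), by positivity, ?_⟩
    rintro ⟨f', g'⟩ hd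
    rw [Prod.dist_eq] at hd
    have hf : dist f' f < min (min (ε / 4) δ') (min (ε / 4) δ) := (le_max_left _ _).trans_lt hd
    have hg : dist g' g < min (min (ε / 4) δ') (min (ε / 4) δ) := (le_max_right _ _).trans_lt hd
    simp only [lt_min_iff] at hf hg
    have hle : dist (f' * g') (f * g) ≤ ε / 2 := by
      rw [dist_le_iff (by linarith)]
      constructor
      · intro z
        rw [mul_smul, mul_smul]
        have h1 : dist (f' • (g' • z)) (f • (g' • z)) ≤ dist f' f := dist_smul_le _ _ _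
        have h2 : dist (f • (g' • z)) (f • (g • z)) < ε / 4 :=
          H _ _ ((dist_smul_le g' g z).trans_lt hg.2.2)
        have h3 := dist_triangle (f' • (g' • z)) (f • (g' • z)) (f • (g • z))
        linarith [hf.1.1]
      · intro z
        rw [mul_inv_rev, mul_inv_rev, mul_smul, mul_smul]
        have h1 : dist (g'⁻¹ • (f'⁻¹ • z)) (g⁻¹ • (f'⁻¹ • z)) ≤ dist g' g :=
          dist_inv_smul_le _ _ _
        have h2 : dist (g⁻¹ • (f'⁻¹ • z)) (g⁻¹ • (f⁻¹ • z)) < ε / 4 :=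
          H' _ _ ((dist_inv_smul_le f' f z).trans_lt hf.1.2)
        have h3 := dist_triangle (g'⁻¹ • (f'⁻¹ • z)) (g⁻¹ • (f'⁻¹ • z)) (g⁻¹ • (f⁻¹ • z))
        linarith [hg.1.1]
    linarith
  exact { continuous_mul := hmul, continuous_inv := hinv }

instance : IsTopologicalGroup EE := isTopologicalGroup_EE

end H45T
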