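import Pool.Agent.Lib.H45Torus.Maps
import Pool.Agent.Lib.H45Torus.ISO
import Pool.Agent.Lib.H45Torus.TG

/-!
# Chunk BP: a path from the identity to `FF`
-/

namespace H45T

open Filter Topology Set

/-- First straight-line isotopy. -/
theorem BP_one : ∃ Ψ : C(unitInterval, EE), ∀ (t : unitInterval) (z : Pl),
    Ψ t • z = z + (t : ℝ) • ((aa z.1 - z.1, 0) : Pl) := by
  have ha := continuous_aa
  refine iso_path (fun z => (aa z.1 - z.1, 0)) (by fun_prop) ?_ 9 ?_ ?_
  · intro z w
    ext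
    · show aa (z.1 + w.1) - (z.1 + w.1) = aa z.1 - z.1
      rw [aa_add_int]
      ring
    · rfl
  · intro t ht z z'
    have key : ∀ x x' : ℝ, x ≤ x' →
        |x - x'| ≤ 9 * |(x + t * (aa x - x)) - (x' + t * (aa x' - x'))| := by
      intro x x' hx
      have h1 := aa_lower hx
      have h2 : (x' - x) / 9 ≤ (x' + t * (aa x' - x')) - (x + t * (aa x - x)) := by
        have h3 : (x' + t * (aa x' - x')) - (x + t * (aa x - x)) =
            (1 - t) * (x' - x) + t * (aa x' - aa x) := by ring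
        rw [h3]
        have h4 : t * ((x' - x) / 9) ≤ t * (aa x' - aa x) := mul_le_mul_of_nonneg_left h1 ht.1
        have h5 : (1 - t) * ((x' - x) / 9) ≤ (1 - t) * (x' - x) :=
          mul_le_mul_of_nonneg_left (by linarith) (by linarith [ht.2])
        linarith
      rw [abs_sub_comm x x', abs_sub_comm (x + _) _, abs_of_nonneg (by linarith),
        abs_of_nonneg (by linarith)]
      linarith
    have key' : ∀ x x' : ℝ,
        |x - x'| ≤ 9 * |(x + t * (aa x - x)) - (x' + t * (aa x' - x'))| := by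
      intro x x'
      rcases le_total x x' with h | h
      · exact key x x' h
      · have := key x' x h
        rwa [abs_sub_comm x' x, abs_sub_comm (x' + _) _] at this
    rw [Prod.dist_eq, Prod.dist_eq]
    apply max_le
    · refine (key' z.1 z'.1).trans ?_
      apply mul_le_mul_of_nonneg_left _ (by norm_num)
      exact le_max_left _ _
    · have h1 : dist z.2 z'.2 ≤ max (dist (z + t • ((aa z.1 - z.1, 0) : Pl)).1
          (z' + t • ((aa z'.1 - z'.1, 0) : Pl)).1) (dist (z + t • ((aa z.1 - z.1, 0) : Pl)).2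
          (z' + t • ((aa z'.1 - z'.1, 0) : Pl)).2) := by
        refine le_trans (le_of_eq ?_) (le_max_right _ _)
        simp
      have h2 := (dist_nonneg (x := z.2) (y := z'.2)).trans h1
      linarith
  · intro t ht y
    have hcu : Continuous fun x : ℝ => x + t * (aa x - x) := by fun_prop
    have hlo : (y.1 - 1) + t * (aa (y.1 - 1) - (y.1 - 1)) ≤ y.1 := by
      have h1 := (abs_le.1 (aa_sub_le (y.1 - 1))).2
      have h2 : t * (aa (y.1 - 1) - (y.1 - 1)) ≤ t * (8 / 10) := mul_le_mul_of_nonneg_left h1 ht.1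
      linarith [ht.2]
    have hhi : y.1 ≤ (y.1 + 1) + t * (aa (y.1 + 1) - (y.1 + 1)) := by
      have h1 := (abs_le.1 (aa_sub_le (y.1 + 1))).1
      have h2 : t * (-(8 / 10)) ≤ t * (aa (y.1 + 1) - (y.1 + 1)) :=
        mul_le_mul_of_nonneg_left h1 ht.1
      linarith [ht.2]
    obtain ⟨x, -, hx⟩ := intermediate_value_Icc (by linarith : y.1 - 1 ≤ y.1 + 1) hcu.continuousOn
      (show y.1 ∈ Icc _ _ from ⟨hlo, hhi⟩)
    refine ⟨(x, y.2), ?_⟩
    ext
    · simpa using hx
    · simp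

/-- Second straight-line isotopy. -/
theorem BP_two : ∃ Ψ : C(unitInterval, EE), ∀ (t : unitInterval) (z : Pl),
    Ψ t • z = z + (t : ℝ) • ((th z.2, 0) : Pl) := by
  have hth := continuous_th
  refine iso_path (fun z => (th z.2, 0)) (by fun_prop) ?_ 11 ?_ ?_
  · intro z w
    ext
    · show th (z.2 + w.2) = th z.2
      rw [th_add_int]
    · rfl
  · intro t ht z z'
    rw [Prod.dist_eq, Prod.dist_eq]
    have e1 : dist (z + t • ((th z.2, 0) : Pl)).1 (z' + t • ((th z'.2, 0) : Pl)).1 =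
        |(z.1 + t * th z.2) - (z'.1 + t * th z'.2)| := by
      rw [Real.dist_eq]
      simp
    have e2 : dist (z + t • ((th z.2, 0) : Pl)).2 (z' + t • ((th z'.2, 0) : Pl)).2 =
        |z.2 - z'.2| := by
      rw [Real.dist_eq]
      simp
    rw [e1, e2, Real.dist_eq, Real.dist_eq]
    generalize hA : |(z.1 + t * th z.2) - (z'.1 + t * th z'.2)| = A
    have hB0 := abs_nonneg (z.2 - z'.2)
    have hA0 : 0 ≤ A := by
      rw [← hA]
      exact abs_nonneg _
    have h1 : |z.1 - z'.1| ≤ A + 10 * |z.2 - z'.2| := by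
      have h2 : z.1 - z'.1 = ((z.1 + t * th z.2) - (z'.1 + t * th z'.2)) +
          t * (th z'.2 - th z.2) := by ring
      rw [h2]
      refine (abs_add_le _ _).trans ?_
      rw [hA]
      have h3 := th_lip z.2 z'.2
      rw [abs_mul, abs_of_nonneg ht.1]
      have h4 : t * |th z'.2 - th z.2| ≤ 1 * |th z'.2 - th z.2| :=
        mul_le_mul_of_nonneg_right ht.2 (abs_nonneg _)
      rw [abs_sub_comm z.2 z'.2]
      have h5 : |th z'.2 - th z.2| ≤ 10 * |z'.2 - z.2| := by
        exact h3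
      linarith
    have h6 : A ≤ max A |z.2 - z'.2| := le_max_left _ _
    have h7 : |z.2 - z'.2| ≤ max A |z.2 - z'.2| := le_max_right _ _
    apply max_le <;> linarith
  · intro t ht y
    refine ⟨(y.1 - t * th y.2, y.2), ?_⟩
    ext <;> simp

/-- A path of `EE` from `1` to `FF`.
Proof: two applications of `iso_path`: (1) `p z = (aa z.1 - z.1, 0)`; `z + t p z =
((1-t) z.1 + t aa z.1, z.2)`: the first coordinate is increasing in `z.1` with slopes at least
`1/9` (`aa_lower`), so `C = 9` works, and surjective by the intermediate value theorem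
(`aa_sub_le`).  (2) `p z = (th z.2, 0)`: `z + t p z = (z.1 + t th z.2, z.2)`, bijective with inverse
`(x, y) ↦ (x - t th y, y)`, `C = 11` (`th_lip`).  The product (2)(1) is a path `Θ` from `1` to `Hm`
(`Hm_smul`).  Then `t ↦ (rc (Θ t))⁻¹ * Θ t` is the required path (`continuous_rc`, topological
group). -/
theorem base_path : ∃ Φ : C(unitInterval, EE), Φ 0 = 1 ∧ Φ 1 = FF := by
  obtain ⟨Ψ₁, h1⟩ := BP_one
  obtain ⟨Ψ₂, h2⟩ := BP_two
  have hc : Continuous fun t : unitInterval => (rc (Ψ₂ t * Ψ₁ t))⁻¹ * (Ψ₂ t * Ψ₁ t) := by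
    have h3 : Continuous fun t : unitInterval => Ψ₂ t * Ψ₁ t := Ψ₂.continuous.mul Ψ₁.continuous
    exact (continuous_rc.comp h3).inv.mul h3
  refine ⟨⟨_, hc⟩, ?_, ?_⟩
  · show (rc (Ψ₂ 0 * Ψ₁ 0))⁻¹ * (Ψ₂ 0 * Ψ₁ 0) = 1
    have h3 : Ψ₂ 0 * Ψ₁ 0 = 1 := EE.ext' fun z => by
      rw [mul_smul, h1, h2, one_smul]
      simp
    rw [h3]
    simp
  · show (rc (Ψ₂ 1 * Ψ₁ 1))⁻¹ * (Ψ₂ 1 * Ψ₁ 1) = FF
    have h3 : Ψ₂ 1 * Ψ₁ 1 = Hm := EE.ext' fun z => by
      rw [mul_smul, h1, h2, Hm_smul]
      ext <;> simp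
    rw [h3]
    rfl

end H45T
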