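import Pool.Agent.Lib.H45Torus.TR4

/-!
# Chunk TRA: transitions from the stable sides to the unstable sides
-/

namespace H45T

open Filter Topology Set

/-- General transition.  `FF ^ n • σ - iv w = s ∈ Side`; `FF ^ n' • τ.swap - iv w' = t' ∈ Side`, so
`(FF ^ n')⁻¹ • τ - iv w'.swap = t'.swap =: t` (`FF_pow_inv_smul`).  Apply `tr_side` to the open sets
`A' = {FF ^ n • z - iv w | z ∈ A}` and `B' = {(FF ^ n')⁻¹ • z - iv w'.swap | z ∈ B}`. -/
theorem transition {σ τ : Pl} (hσ : σ ∈ Ws) (hτ : τ ∈ Wu) {A B : Set Pl} (hA : IsOpen A)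
    (hB : IsOpen B) (h1 : σ ∈ A) (h2 : τ ∈ B) : Conn A B := by
  obtain ⟨n, w, hn⟩ := hσ
  obtain ⟨n', w', hn'⟩ := hτ
  set A' : Set Pl := {p | (FF ^ n)⁻¹ • (p + iv w) ∈ A} with hA'
  set B' : Set Pl := {p | FF ^ n' • (p + iv w'.swap) ∈ B} with hB'
  have oA' : IsOpen A' :=
    hA.preimage ((continuous_smul_pl _).comp (continuous_id.add continuous_const))
  have oB' : IsOpen B' :=
    hB.preimage ((continuous_smul_pl _).comp (continuous_id.add continuous_const))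
  have mA' : FF ^ n • σ - iv w ∈ A' := by
    change (FF ^ n)⁻¹ • (FF ^ n • σ - iv w + iv w) ∈ A
    rw [sub_add_cancel, inv_smul_smul]
    exact h1
  have mB' : (FF ^ n')⁻¹ • τ - iv w'.swap ∈ B' := by
    change FF ^ n' • ((FF ^ n')⁻¹ • τ - iv w'.swap + iv w'.swap) ∈ B
    rw [sub_add_cancel, smul_inv_smul]
    exact h2
  have ht : ((FF ^ n')⁻¹ • τ - iv w'.swap).swap ∈ Side := by
    rw [swap_sub_iv, Prod.swap_swap, FF_pow_inv_smul, Prod.swap_swap]
    exact hn'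
  obtain ⟨m, hm, u, z, hz, hzB⟩ := tr_side hn ht oA' oB' mA' mB'
  refine ⟨n' + m + n, by omega, w + u - w'.swap, (FF ^ n)⁻¹ • (z + iv w), hz, ?_⟩
  have h3 : FF ^ (n' + m + n) • ((FF ^ n)⁻¹ • (z + iv w)) - iv (w + u - w'.swap) =
      FF ^ n' • (FF ^ m • z - iv u + iv w'.swap) := by
    rw [pow_add, mul_smul, smul_inv_smul, pow_add, mul_smul, smul_add_iv, smul_add_iv,
      smul_add_iv, smul_sub_iv, iv_sub, iv_add]
    abel
  rw [h3]
  exact hzB

end H45T
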