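import Pool.Agent.Lib.H45Torus.LU
import Pool.Agent.Lib.H45Torus.TRA
import Pool.Agent.Lib.H45Torus.BP

/-!
# The Baire argument: definitions
-/

namespace H45T

open Filter Topology Set

/-- The conjugates of `FF` by elements of `EE` fixing `KK` pointwise. -/
def CC : Set EE := {g | ∃ h : EE, (∀ z ∈ KK, h • z = z) ∧ g = h * FF * h⁻¹}

/-- The paths from `1` to an element of `CC`. -/
def P0 : Set C(unitInterval, EE) := {γ | γ 0 = 1 ∧ γ 1 ∈ CC}

/-- The transition condition for a pair of sets. -/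
def Tr (U W : Set Pl) : Set C(unitInterval, EE) :=
  {γ | ∃ n : ℕ, 1 ≤ n ∧ ∃ w : ℤ × ℤ, ∃ z ∈ U, (γ 1) ^ n • z - iv w ∈ W}

/-- No point of `L` is periodic modulo translations with period `q`. -/
def NP (q : ℕ) (L : Set Pl) : Set C(unitInterval, EE) :=
  {γ | ∀ z ∈ L, ∀ w : ℤ × ℤ, (γ 1) ^ q • z ≠ z + iv w}

end H45T
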