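import Pool.Agent.Lib.H45Torus.BA0

/-!
# Chunk BA1: the open conditions
-/

namespace H45T

open Filter Topology Set

lemma BA1_continuous (n : ℕ) :
    Continuous fun p : C(unitInterval, EE) × Pl => (p.1 1) ^ n • p.2 := by
  have h1 : Continuous fun p : C(unitInterval, EE) × Pl => p.1 1 :=
    (continuous_eval_const (1 : unitInterval)).comp continuous_fst
  exact (h1.pow n).smul continuous_snd

/-- `γ ↦ (γ 1) ^ n • z` is continuous for fixed `z`, `n` (`EV`, `TG`). -/
lemma isOpen_Tr {U W : Set Pl} (hW : IsOpen W) : IsOpen (Tr U W) := by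
  have h : Tr U W = ⋃ (n : ℕ) (_ : 1 ≤ n) (w : ℤ × ℤ) (z : Pl) (_ : z ∈ U),
      {γ : C(unitInterval, EE) | (γ 1) ^ n • z - iv w ∈ W} := by
    ext γ
    simp only [Set.mem_iUnion]
    constructor
    · rintro ⟨n, hn, w, z, hz, hw⟩
      exact ⟨n, hn, w, z, hz, hw⟩
    · rintro ⟨n, hn, w, z, hz, hw⟩
      exact ⟨n, hn, w, z, hz, hw⟩
  rw [h]
  refine isOpen_iUnion fun n => isOpen_iUnion fun _ => isOpen_iUnion fun w =>
    isOpen_iUnion fun z => isOpen_iUnion fun _ => ?_
  refine hW.preimage ?_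
  exact ((BA1_continuous n).comp (continuous_id.prodMk continuous_const)).sub continuous_const

lemma BA1_isClosed_range_iv : IsClosed (range iv) := by
  have h1 : range iv = (range ((↑) : ℤ → ℝ)) ×ˢ (range ((↑) : ℤ → ℝ)) := by
    ext z
    constructor
    · rintro ⟨w, rfl⟩
      exact ⟨⟨w.1, rfl⟩, ⟨w.2, rfl⟩⟩
    · rintro ⟨⟨a, ha⟩, ⟨b, hb⟩⟩
      exact ⟨(a, b), Prod.ext ha hb⟩
  rw [h1]
  exact Int.isClosedEmbedding_coe_real.isClosed_range.prod
    Int.isClosedEmbedding_coe_real.isClosed_range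

/-- The map `(γ, z) ↦ (γ 1) ^ q • z - z` is jointly continuous, and the set `{iv w}` is closed in
the plane; by compactness of `L` (`IsCompact` tube lemma, `IsCompact.eventually_forall_of_forall_eventually`) the set
of `γ` such that `(γ 1) ^ q • z - z ∉ {iv w}` for all `z ∈ L` is open. -/
lemma isOpen_NP (q : ℕ) {L : Set Pl} (hL : IsCompact L) : IsOpen (NP q L) := by
  rw [isOpen_iff_mem_nhds]
  intro γ hγ
  have hF : Continuous fun p : C(unitInterval, EE) × Pl => (p.1 1) ^ q • p.2 - p.2 :=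
    (BA1_continuous q).sub continuous_snd
  have h1 : ∀ z ∈ L, ∀ᶠ p : C(unitInterval, EE) × Pl in 𝓝 (γ, z),
      (p.1 1) ^ q • p.2 - p.2 ∈ (range iv)ᶜ := by
    intro z hz
    refine hF.continuousAt.eventually (BA1_isClosed_range_iv.isOpen_compl.mem_nhds ?_)
    rintro ⟨w, hw⟩
    exact hγ z hz w (eq_add_of_sub_eq' hw.symm)
  have h2 := hL.eventually_forall_of_forall_eventually
    (P := fun (γ : C(unitInterval, EE)) (z : Pl) => (γ 1) ^ q • z - z ∈ (range iv)ᶜ) h1
  filter_upwards [h2] with γ' hγ' z hz w hw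
  exact hγ' z hz ⟨w, (sub_eq_of_eq_add' hw).symm⟩

end H45T
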