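import Pool.Agent.Lib.H45Torus.BA0

/-!
# Chunk BA2: periodic points, perturbation of paths
-/

namespace H45T

open Filter Topology Set

/-- The inverse is continuous on the group of paths. -/
lemma BA2_continuous_inv : Continuous fun Ψ : C(unitInterval, EE) => Ψ⁻¹ := by
  have := ContinuousMap.continuous_postcomp (X := unitInterval)
    (⟨fun g : EE => g⁻¹, continuous_inv⟩ : C(EE, EE))
  exact this

/-- Elements of `CC` have their periodic points in `KK`: if `g = h FF h⁻¹` and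
`g ^ q • z = z + iv w` then `FF ^ q • (h⁻¹ • z) = h⁻¹ • z + iv w` so `h⁻¹ • z ∈ KK`
(`periodic_mem_KK`) and `z = h • (h⁻¹ • z) = h⁻¹ • z ∈ KK`. -/
lemma P0_subset_NP {q : ℕ} (hq : 1 ≤ q) {L : Set Pl} (hL : Disjoint L KK) : P0 ⊆ NP q L := by
  rintro γ ⟨-, h, hh, hγ⟩ z hz w hzw
  rw [hγ, conj_pow, mul_smul, mul_smul] at hzw
  have h1 : FF ^ q • (h⁻¹ • z) = h⁻¹ • z + iv w := by
    have := congrArg (fun u : Pl => h⁻¹ • u) hzw
    simpa [inv_smul_smul, smul_add_iv] using this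
  have h2 : h⁻¹ • z ∈ KK := periodic_mem_KK hq h1
  have h3 : z = h⁻¹ • z := by
    have := hh _ h2
    rwa [smul_inv_smul] at this
  rw [← h3] at h2
  exact disjoint_left.1 hL hz h2

/-- One perturbation in `P0` (abstract form): if `γ ∈ P0` with `γ 1 = h₀ FF h₀⁻¹` and `h`, `Ψ` are
such that `h FF h⁻¹ = FF (Ψ 1)⁻¹`, `Ψ 0 = 1`, then the path
`γ' t = γ t * (h₀ * (Ψ t)⁻¹ * h₀⁻¹)` satisfies `γ' 0 = 1` and `γ' 1 = (h₀ h) FF (h₀ h)⁻¹`; and `γ'` is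
in a given neighbourhood `N` of `γ` as soon as `Ψ` is in a suitable neighbourhood `N'` of `1`
(`Ψ ↦ γ'` is continuous: `C(unitInterval, EE)` is a topological group, with the constant path `h₀`). -/
lemma perturb_path (γ : C(unitInterval, EE)) (h₀ : EE) (h1 : γ 1 = h₀ * FF * h₀⁻¹)
    (h0 : γ 0 = 1) {N : Set C(unitInterval, EE)} (hN : N ∈ 𝓝 γ) :
    ∃ N' ∈ 𝓝 (1 : C(unitInterval, EE)), ∀ (h : EE) (Ψ : C(unitInterval, EE)), Ψ ∈ N' →
      Ψ 0 = 1 → h * FF * h⁻¹ = FF * (Ψ 1)⁻¹ →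
      ∃ γ' ∈ N, γ' 0 = 1 ∧ γ' 1 = (h₀ * h) * FF * (h₀ * h)⁻¹ := by
  let k : C(unitInterval, EE) := ContinuousMap.const _ h₀
  let T : C(unitInterval, EE) → C(unitInterval, EE) := fun Ψ => γ * (k * Ψ⁻¹ * k⁻¹)
  have hT : Continuous T := by
    show Continuous fun Ψ : C(unitInterval, EE) => γ * (k * Ψ⁻¹ * k⁻¹)
    exact continuous_const.mul ((continuous_const.mul BA2_continuous_inv).mul continuous_const)
  have hT1 : T 1 = γ := by simp [T]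
  have hN' : T ⁻¹' N ∈ 𝓝 (1 : C(unitInterval, EE)) := by
    apply hT.continuousAt.preimage_mem_nhds
    rw [hT1]; exact hN
  refine ⟨T ⁻¹' N, hN', fun h Ψ hΨ hΨ0 hh => ⟨T Ψ, hΨ, ?_, ?_⟩⟩
  · show γ 0 * (h₀ * (Ψ 0)⁻¹ * h₀⁻¹) = 1
    rw [h0, hΨ0]; simp
  · show γ 1 * (h₀ * (Ψ 1)⁻¹ * h₀⁻¹) = _
    rw [h1]
    have : h₀ * FF * h₀⁻¹ * (h₀ * (Ψ 1)⁻¹ * h₀⁻¹) = h₀ * (FF * (Ψ 1)⁻¹) * h₀⁻¹ := by group
    rw [this, ← hh]; group

end H45T
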