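import Pool.Agent.Lib.H45Torus.ISO

/-!
# Chunk BMP: moving the centre of a ball
-/

namespace H45T

open Filter Topology Set

/-- An isotopy supported in the translates of a ball, moving its centre.
Proof: let `Λ = {p + iv w}` (range), `l z = max 0 (1 - infDist z Λ / r)`: it is `1/r`-Lipschitz,
periodic, `l p = 1`, and `l z > 0` only if `z - iv w ∈ ball p r` for some `w`.  Apply `iso_path` to
`P z = l z • (q - p)`, which is Lipschitz with constant `‖q - p‖/r < 1/2`: for `t ∈ [0,1]`,
`dist (z + t P z) (z' + t P z') ≥ dist z z' - (1/2) dist z z'`, so `C = 2`; surjectivity: for given `y`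
the map `z ↦ y - t • P z` is a contraction (constant `1/2`), its fixed point is a preimage of `y`
(`ContractingWith.fixedPoint`). -/
theorem bump (O : Set Pl) (p q : Pl) (r : ℝ) (hr : 0 < r) (hq : dist q p < r / 2)
    (hO : Metric.ball p r ⊆ O) :
    ∃ Ψ : C(unitInterval, EE), Ψ 0 = 1 ∧ Ψ 1 • p = q ∧
      ∀ (t : unitInterval) (z : Pl), (∀ w : ℤ × ℤ, z - iv w ∉ O) → Ψ t • z = z := by
  classical
  set Λ : Set Pl := range (fun w : ℤ × ℤ => p + iv w) with hΛ
  have hΛne : Λ.Nonempty := ⟨p + iv 0, 0, rfl⟩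
  have hΛper : ∀ w : ℤ × ℤ, (fun z : Pl => z + iv w) '' Λ = Λ := by
    intro w
    ext y
    constructor
    · rintro ⟨_, ⟨v, rfl⟩, rfl⟩
      exact ⟨v + w, by simp only [iv_add]; abel⟩
    · rintro ⟨v, rfl⟩
      exact ⟨p + iv (v - w), ⟨v - w, rfl⟩, by simp only [iv_sub]; abel⟩
  have hdper : ∀ (z : Pl) (w : ℤ × ℤ), Metric.infDist (z + iv w) Λ = Metric.infDist z Λ := by
    intro z w
    have h1 := Metric.infDist_image (Φ := fun z : Pl => z + iv w) (t := Λ) (x := z)
      (Isometry.of_dist_eq fun a b => dist_add_right _ _ _)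
    rw [hΛper w] at h1
    exact h1
  set l : Pl → ℝ := fun z => max 0 (1 - Metric.infDist z Λ / r) with hl
  have hlper : ∀ (z : Pl) (w : ℤ × ℤ), l (z + iv w) = l z := by
    intro z w
    simp only [hl, hdper]
  have hlp : l p = 1 := by
    have h1 : Metric.infDist p Λ = 0 := Metric.infDist_zero_of_mem ⟨0, by simp⟩
    simp only [hl, h1]
    norm_num
  have hllip : ∀ a b : Pl, |l a - l b| ≤ dist a b / r := by
    intro a b
    have h1 : |Metric.infDist a Λ - Metric.infDist b Λ| ≤ dist a b := by
      have h2 := (Metric.lipschitz_infDist_pt Λ).dist_le_mul a b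
      rwa [Real.dist_eq, NNReal.coe_one, one_mul] at h2
    have h3 : |l a - l b| ≤ |(1 - Metric.infDist a Λ / r) - (1 - Metric.infDist b Λ / r)| := by
      simp only [hl, max_comm (0:ℝ)]
      exact abs_max_sub_max_le_abs _ _ _
    refine h3.trans ?_
    have h4 : (1 - Metric.infDist a Λ / r) - (1 - Metric.infDist b Λ / r) =
        -(Metric.infDist a Λ - Metric.infDist b Λ) / r := by ring
    rw [h4, abs_div, abs_neg, abs_of_pos hr]
    exact div_le_div_of_nonneg_right h1 hr.le
  have hl0 : ∀ z : Pl, (∀ w : ℤ × ℤ, z - iv w ∉ O) → l z = 0 := by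
    intro z hz
    have h1 : r ≤ Metric.infDist z Λ := by
      by_contra hlt
      push Not at hlt
      obtain ⟨y, ⟨w, rfl⟩, hy⟩ := (Metric.infDist_lt_iff hΛne).1 hlt
      refine hz w (hO ?_)
      rw [Metric.mem_ball]
      have h2 : dist (z - iv w) p = dist z (p + iv w) := by
        rw [dist_eq_norm, dist_eq_norm]
        congr 1
        abel
      rw [h2]
      exact hy
    have h2 : 1 - Metric.infDist z Λ / r ≤ 0 := by
      rw [sub_nonpos, one_le_div hr]
      exact h1
    exact max_eq_left h2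
  set P : Pl → Pl := fun z => l z • (q - p) with hP
  have hnq : ‖q - p‖ < r / 2 := by rwa [← dist_eq_norm]
  have hPlip : ∀ a b : Pl, dist (P a) (P b) ≤ 1 / 2 * dist a b := by
    intro a b
    rw [dist_eq_norm]
    simp only [hP]
    rw [← sub_smul, norm_smul, Real.norm_eq_abs]
    calc |l a - l b| * ‖q - p‖ ≤ (dist a b / r) * (r / 2) :=
          mul_le_mul (hllip a b) hnq.le (norm_nonneg _) (div_nonneg dist_nonneg hr.le)
      _ = 1 / 2 * dist a b := by field_simp
  have hPlipW : LipschitzWith (1 / 2) P := by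
    refine LipschitzWith.of_dist_le_mul fun a b => ?_
    simpa using hPlip a b
  have hPc : Continuous P := hPlipW.continuous
  have htP : ∀ t ∈ Icc (0:ℝ) 1, ∀ a b : Pl, dist (t • P a) (t • P b) ≤ 1 / 2 * dist a b := by
    intro t ht a b
    rw [dist_smul₀, Real.norm_eq_abs, abs_of_nonneg ht.1]
    have h1 := hPlip a b
    have h2 : t * dist (P a) (P b) ≤ 1 * dist (P a) (P b) :=
      mul_le_mul_of_nonneg_right ht.2 dist_nonneg
    linarith
  obtain ⟨Ψ, hΨ⟩ := iso_path P hPc (fun z w => by simp only [hP, hlper]) 2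
    (by
      intro t ht a b
      have h1 := htP t ht a b
      have h2 : dist a b ≤ dist (a + t • P a) (b + t • P b) + dist (t • P a) (t • P b) := by
        have h3 : a - b = ((a + t • P a) - (b + t • P b)) - (t • P a - t • P b) := by abel
        rw [dist_eq_norm, dist_eq_norm (a + t • P a), dist_eq_norm (t • P a), h3]
        exact norm_sub_le _ _
      linarith)
    (by
      intro t ht y
      have hK : ContractingWith (1 / 2) (fun z : Pl => y - t • P z) := by
        refine ⟨?_, LipschitzWith.of_dist_le_mul fun a b => ?_⟩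
        · rw [← NNReal.coe_lt_coe]
          norm_num
        · rw [dist_sub_left]
          simpa using htP t ht a b
      have h1 : y - t • P (hK.fixedPoint _) = hK.fixedPoint _ := hK.fixedPoint_isFixedPt
      refine ⟨hK.fixedPoint _, ?_⟩
      show hK.fixedPoint _ + t • P (hK.fixedPoint _) = y
      nth_rw 1 [← h1]
      abel)
  refine ⟨Ψ, ?_, ?_, ?_⟩
  · refine EE.ext' fun z => ?_
    rw [hΨ]
    simp
  · rw [hΨ]
    simp only [hP, hlp]
    simp
  · intro t z hz
    rw [hΨ]
    simp only [hP, hl0 z hz]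
    simp

end H45T
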