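import Pool.Agent.Lib.H45Torus.Defs

/-!
# The group `EE` of homeomorphisms of the plane commuting with integer translations

`EE` is a group acting on the plane (`f • z`), with the complete metric
`dist f g = max (sup |f - g|) (sup |f⁻¹ - g⁻¹|)`.
-/

namespace H45T

open Filter Topology Set
open scoped BoundedContinuousFunction

/-- The integer vector `w` seen in the plane. -/
def iv (w : ℤ × ℤ) : Pl := ((w.1 : ℝ), (w.2 : ℝ))

@[simp] lemma iv_fst (w : ℤ × ℤ) : (iv w).1 = (w.1 : ℝ) := rfl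
@[simp] lemma iv_snd (w : ℤ × ℤ) : (iv w).2 = (w.2 : ℝ) := rfl
@[simp] lemma iv_zero : iv 0 = 0 := by ext <;> simp
@[simp] lemma iv_add (v w : ℤ × ℤ) : iv (v + w) = iv v + iv w := by ext <;> simp
@[simp] lemma iv_neg (w : ℤ × ℤ) : iv (-w) = - iv w := by ext <;> simp
@[simp] lemma iv_sub (v w : ℤ × ℤ) : iv (v - w) = iv v - iv w := by ext <;> simp

/-- The subgroup of the homeomorphisms of the plane commuting with the integer translations. -/
def periodicSubgroup : Subgroup (Pl ≃ₜ Pl) where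
  carrier := {f | ∀ (z : Pl) (w : ℤ × ℤ), f (z + iv w) = f z + iv w}
  mul_mem' := by
    intro f g hf hg z w
    show f (g (z + iv w)) = f (g z) + iv w
    rw [hg z w, hf]
  one_mem' := by intro z w; rfl
  inv_mem' := by
    intro f hf z w
    show f.symm (z + iv w) = f.symm z + iv w
    rw [Homeomorph.symm_apply_eq, hf, Homeomorph.apply_symm_apply]

/-- The group of the homeomorphisms of the plane commuting with the integer translations. -/
def EE : Type := ↥periodicSubgroup

noncomputable instance : Group EE := inferInstanceAs (Group ↥periodicSubgroup)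

/-- The underlying homeomorphism of the plane. -/
def EE.hom (f : EE) : Pl ≃ₜ Pl := f.1

/-- `EE` acts on the plane. -/
instance : MulAction EE Pl where
  smul f z := f.1 z
  one_smul _ := rfl
  mul_smul _ _ _ := rfl

lemma smul_eq_hom (f : EE) (z : Pl) : f • z = f.hom z := rfl

lemma inv_smul_eq (f : EE) (z : Pl) : f⁻¹ • z = f.hom.symm z := rfl

lemma smul_add_iv (f : EE) (z : Pl) (w : ℤ × ℤ) : f • (z + iv w) = f • z + iv w := f.2 z w

lemma smul_sub_iv (f : EE) (z : Pl) (w : ℤ × ℤ) : f • (z - iv w) = f • z - iv w := by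
  have := smul_add_iv f z (-w)
  simpa [sub_eq_add_neg] using this

lemma continuous_smul_pl (f : EE) : Continuous (fun z : Pl => f • z) := f.1.continuous

lemma EE.ext' {f g : EE} (h : ∀ z : Pl, f • z = g • z) : f = g :=
  Subtype.ext (Homeomorph.ext h)

/-- Constructor: a homeomorphism commuting with integer translations. -/
def EE.mk' (f : Pl ≃ₜ Pl) (h : ∀ (z : Pl) (w : ℤ × ℤ), f (z + iv w) = f z + iv w) : EE := ⟨f, h⟩

@[simp] lemma mk'_smul (f : Pl ≃ₜ Pl) (h : ∀ (z : Pl) (w : ℤ × ℤ), f (z + iv w) = f z + iv w)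
    (z : Pl) : (EE.mk' f h) • z = f z := rfl

@[simp] lemma mk'_inv_smul (f : Pl ≃ₜ Pl) (h : ∀ (z : Pl) (w : ℤ × ℤ), f (z + iv w) = f z + iv w)
    (z : Pl) : (EE.mk' f h)⁻¹ • z = f.symm z := rfl

lemma pow_smul_eq (f : EE) (n : ℕ) (z : Pl) : f ^ n • z = (f.hom)^[n] z := by
  induction n generalizing z with
  | zero => simp
  | succ n ih => rw [pow_succ, mul_smul, ih, Function.iterate_succ_apply, smul_eq_hom]

/-- Every plane point is an integer translate of a point of `[0,1) × [0,1)`. -/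
lemma exists_fract (z : Pl) : ∃ w : ℤ × ℤ, z - iv w ∈ Ico (0:ℝ) 1 ×ˢ Ico (0:ℝ) 1 :=
  ⟨(⌊z.1⌋, ⌊z.2⌋), by
    simp only [mem_prod, Prod.fst_sub, Prod.snd_sub, iv_fst, iv_snd, mem_Ico]
    exact ⟨⟨Int.fract_nonneg z.1, Int.fract_lt_one z.1⟩,
      ⟨Int.fract_nonneg z.2, Int.fract_lt_one z.2⟩⟩⟩

/-- The displacement `f z - z` is bounded. -/
lemma disp_bounded (f : EE) : ∃ C : ℝ, ∀ z : Pl, ‖f • z - z‖ ≤ C := by
  have hc : Continuous fun z : Pl => ‖f • z - z‖ := ((continuous_smul_pl f).sub continuous_id).norm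
  obtain ⟨C, hC⟩ := (isCompact_Icc (a := (0:ℝ)) (b := 1)).prod (isCompact_Icc (a := (0:ℝ)) (b := 1))
    |>.exists_bound_of_continuousOn hc.continuousOn
  refine ⟨C, fun z => ?_⟩
  obtain ⟨w, hw⟩ := exists_fract z
  have h1 := hC (z - iv w) ⟨⟨hw.1.1, hw.1.2.le⟩, ⟨hw.2.1, hw.2.2.le⟩⟩
  rw [smul_sub_iv, sub_sub_sub_cancel_right] at h1
  simpa using h1

/-- The displacement as a bounded continuous function. -/
noncomputable def disp (f : EE) : Pl →ᵇ Pl :=
  BoundedContinuousFunction.ofNormedAddCommGroup (fun z => f • z - z)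
    ((continuous_smul_pl f).sub continuous_id) (disp_bounded f).choose (disp_bounded f).choose_spec

@[simp] lemma disp_apply (f : EE) (z : Pl) : disp f z = f • z - z := rfl

/-- The embedding defining the metric of `EE`. -/
noncomputable def emb (f : EE) : (Pl →ᵇ Pl) × (Pl →ᵇ Pl) := (disp f, disp f⁻¹)

lemma emb_injective : Function.Injective emb := by
  intro f g h
  have h1 : disp f = disp g := congrArg Prod.fst h
  refine EE.ext' fun z => ?_
  have h2 := DFunLike.congr_fun h1 z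
  simpa using h2

noncomputable instance : MetricSpace EE := MetricSpace.induced emb emb_injective inferInstance

lemma dist_eq_emb (f g : EE) : dist f g = dist (emb f) (emb g) := rfl

lemma dist_le_iff {f g : EE} {ε : ℝ} (hε : 0 ≤ ε) :
    dist f g ≤ ε ↔ (∀ z : Pl, dist (f • z) (g • z) ≤ ε) ∧
      (∀ z : Pl, dist (f⁻¹ • z) (g⁻¹ • z) ≤ ε) := by
  rw [dist_eq_emb, Prod.dist_eq, max_le_iff]
  show dist (disp f) (disp g) ≤ ε ∧ dist (disp f⁻¹) (disp g⁻¹) ≤ ε ↔ _
  rw [BoundedContinuousFunction.dist_le hε, BoundedContinuousFunction.dist_le hε]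
  simp only [disp_apply, dist_sub_right]

lemma dist_smul_le (f g : EE) (z : Pl) : dist (f • z) (g • z) ≤ dist f g :=
  ((dist_le_iff dist_nonneg).1 le_rfl).1 z

lemma dist_inv_smul_le (f g : EE) (z : Pl) : dist (f⁻¹ • z) (g⁻¹ • z) ≤ dist f g :=
  ((dist_le_iff dist_nonneg).1 le_rfl).2 z

lemma dist_inv_inv (f g : EE) : dist f⁻¹ g⁻¹ = dist f g := by
  apply le_antisymm
  · rw [dist_le_iff dist_nonneg]
    exact ⟨dist_inv_smul_le f g, by simpa using dist_smul_le f g⟩
  · rw [dist_le_iff dist_nonneg]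
    exact ⟨by simpa using dist_inv_smul_le f⁻¹ g⁻¹, dist_smul_le f⁻¹ g⁻¹⟩

end H45T
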