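import Pool.Agent.Lib.H45Torus.EDG

/-!
# Chunk CAP: captured points; definitions for the density of `Us`
-/

namespace H45T

open Filter Topology Set

/-- `(-1/10, 0) × (0, 1/10)` (and its translates) are in `Us`: `FF ^ n • z = (1/9)^n • z`
(induction with `FF_tri`), which is in `Tri` for `n` large (`GG` is continuous and `GG 0 = 1/5`). -/
lemma corner_Us {z : Pl} (h1 : -(1/10) < z.1) (h2 : z.1 < 0) (h3 : 0 < z.2) (h4 : z.2 < 1/10)
    (w : ℤ × ℤ) : z + iv w ∈ Us := by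
  rw [Us_add_iv]
  have hpow : ∀ n : ℕ, FF ^ n • z = ((1/9 : ℝ) ^ n) • z := by
    intro n
    induction n with
    | zero => rw [pow_zero, pow_zero, one_smul, one_smul]
    | succ n ih =>
      have hp : (0 : ℝ) < (1/9 : ℝ) ^ n := by positivity
      have hp1 : (1/9 : ℝ) ^ n ≤ 1 := pow_le_one₀ (by norm_num) (by norm_num)
      rw [pow_succ', mul_smul, ih, FF_tri, smul_smul, pow_succ']
      · show -(2/9) ≤ (1/9 : ℝ) ^ n * z.1
        nlinarith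
      · show (1/9 : ℝ) ^ n * z.1 ≤ 0
        nlinarith
      · show 0 ≤ (1/9 : ℝ) ^ n * z.2
        nlinarith
      · show (1/9 : ℝ) ^ n * z.2 ≤ 1/10
        nlinarith
  refine ⟨2, 0, ?_⟩
  rw [iv_zero, sub_zero, hpow 2]
  refine ⟨?_, ?_, ?_⟩
  · show (1/9 : ℝ) ^ 2 * z.1 < 0
    nlinarith
  · show 0 < (1/9 : ℝ) ^ 2 * z.2
    nlinarith
  · rw [USA_GG_pos]
    simp only [Prod.smul_fst, Prod.smul_snd, smul_eq_mul]
    constructor
    · nlinarith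
    · nlinarith

/-- If `x ∈ (1/10, 1)`, `y ∈ (0, 9/10)` and `th y = 0` then `(x, y) ∈ Us`:
`FF (x, y) = ((8+x)/9, y/9)` (`aa_hi`, `th_zero3`, `bb_lo`), and `((8+x)/9 - 1, y/9)` is in the
corner of `corner_Us`; `FF_smul_mem_Us`. -/
lemma capture {x y : ℝ} (h1 : 1/10 < x) (h2 : x < 1) (h3 : 0 < y) (h4 : y < 9/10)
    (h5 : th y = 0) : ((x, y) : Pl) ∈ Us := by
  rw [← FF_smul_mem_Us, FF_smul, aa_hi h1.le h2.le, h5, add_zero,
    th_zero3 (by linarith) (by linarith), sub_zero, bb_lo h3.le h4.le]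
  have h6 : (((8 + x) / 9, y / 9) : Pl) = (((8 + x) / 9 - 1, y / 9) : Pl) + iv (1, 0) := by
    ext <;> simp
  rw [h6]
  apply corner_Us
  · show -(1/10) < (8 + x) / 9 - 1
    linarith
  · show (8 + x) / 9 - 1 < 0
    linarith
  · show 0 < y / 9
    linarith
  · show y / 9 < 1/10
    linarith

/-- Nearly horizontal connected sets outside `Us`, in the box `[0,1/10] × (0,1/10)`, with two
points at horizontal distance `≥ l`. -/
def NSet (l : ℝ) (C : Set Pl) : Prop :=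
  IsPreconnected C ∧ (∀ z ∈ C, z ∉ Us) ∧
    (∀ z ∈ C, 0 ≤ z.1 ∧ z.1 ≤ 1/10 ∧ 0 < z.2 ∧ z.2 < 1/10) ∧
    (∀ z ∈ C, ∀ z' ∈ C, |z.2 - z'.2| ≤ |z.1 - z'.1| / 10) ∧
    ∃ z ∈ C, ∃ z' ∈ C, l ≤ |z.1 - z'.1|

/-- Nearly vertical connected sets outside `Us`, in the box `(1/10,1) × (1/10,1]`, with two
points at vertical distance `≥ l`. -/
def VSet (l : ℝ) (C : Set Pl) : Prop :=
  IsPreconnected C ∧ (∀ z ∈ C, z ∉ Us) ∧
    (∀ z ∈ C, 1/10 < z.1 ∧ z.1 < 1 ∧ 1/10 < z.2 ∧ z.2 ≤ 1) ∧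
    (∀ z ∈ C, ∀ z' ∈ C, |z.1 - z'.1| ≤ |z.2 - z'.2| / 10) ∧
    ∃ z ∈ C, ∃ z' ∈ C, l ≤ |z.2 - z'.2|

/-- Intermediate sets: images under `Hm` of sets as above, such that their image under
`V = (rc Hm)⁻¹` is outside `Us`. -/
def MSet (l : ℝ) (D : Set Pl) : Prop :=
  IsPreconnected D ∧ (∀ z ∈ D, (rc Hm)⁻¹ • z ∉ Us) ∧
    (∀ z ∈ D, 0 < z.2 ∧ z.2 < 9/10) ∧
    (∀ z ∈ D, ∀ z' ∈ D, |z.2 - z'.2| ≤ |z.1 - z'.1| / 9) ∧
    ∃ z ∈ D, ∃ z' ∈ D, l ≤ |z.1 - z'.1|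

/-- `V (x, y) = (x, bb (y - th x))`. -/
lemma V_smul (z : Pl) : (rc Hm)⁻¹ • z = (z.1, bb (z.2 - th z.1)) := by
  rw [rc_inv_smul]
  simp [Hm_inv_smul]

/-- Separation: a real continuous function avoiding the value `c` on a preconnected set is
everywhere `< c` or everywhere `> c` on it. -/
lemma sep_of_preconnected {C : Set Pl} (hC : IsPreconnected C) {f : Pl → ℝ} (hf : Continuous f)
    (c : ℝ) (h : ∀ z ∈ C, f z ≠ c) : (∀ z ∈ C, f z < c) ∨ (∀ z ∈ C, c < f z) := by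
  by_contra hcon
  rw [not_or] at hcon
  obtain ⟨h1, h2⟩ := hcon
  push Not at h1 h2
  obtain ⟨z, hz, hz'⟩ := h1
  obtain ⟨z', hz2, hz2'⟩ := h2
  have h3 := hC.image f hf.continuousOn
  have h4 := h3.ordConnected.out (Set.mem_image_of_mem f hz2) (Set.mem_image_of_mem f hz)
    ⟨hz2', hz'⟩
  obtain ⟨u, hu, hu'⟩ := h4
  exact h u hu hu'

end H45T
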