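import Pool.Agent.Lib.H45Torus.US

/-!
# Chunk COA: the components `Cu v` of `Uu`
-/

namespace H45T

open Filter Topology Set

lemma COA_eq (z : Pl) (v : ℤ × ℤ) (n : ℕ) :
    ((FF ^ n)⁻¹ • z - iv v).swap = FF ^ n • z.swap - iv v.swap := by
  rw [FF_pow_inv_smul, swap_sub_iv, Prod.swap_swap]

/-- The sequence of conditions is increasing in `n` (`FF_pow_inv_smul`, `Tri_mono`). -/
lemma Cu_mono {z : Pl} {v : ℤ × ℤ} {n m : ℕ} (h : ((FF ^ n)⁻¹ • z - iv v).swap ∈ Tri)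
    (hnm : n ≤ m) : ((FF ^ m)⁻¹ • z - iv v).swap ∈ Tri := by
  rw [COA_eq] at h ⊢
  exact Tri_mono h hnm

lemma isOpen_Cu (v : ℤ × ℤ) : IsOpen (Cu v) := by
  have h : Cu v = ⋃ n : ℕ, (fun z : Pl => ((FF ^ n)⁻¹ • z - iv v).swap) ⁻¹' Tri := by
    ext z
    simp only [Cu, mem_setOf_eq, mem_iUnion, mem_preimage]
  rw [h]
  refine isOpen_iUnion fun n => isOpen_Tri.preimage ?_
  exact continuous_swap.comp ((continuous_smul_pl _).sub continuous_const)

/-- Increasing union (directed) of the images of `Tri` under continuous maps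
(`isPreconnected_iUnion...`, or: all these images contain the point
`FF ^ 0`-image of a fixed point of the mirror sector: the image of `n = 0` is contained in all the
others). -/
lemma isPreconnected_Cu (v : ℤ × ℤ) : IsPreconnected (Cu v) := by
  have h : Cu v = ⋃ n : ℕ, (fun t : Pl => FF ^ n • (t.swap + iv v)) '' Tri := by
    ext z
    simp only [Cu, mem_setOf_eq, mem_iUnion, mem_image]
    refine exists_congr fun n => ⟨fun hz => ⟨_, hz, ?_⟩, ?_⟩
    · rw [Prod.swap_swap, sub_add_cancel, smul_inv_smul]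
    · rintro ⟨t, ht, rfl⟩
      rw [inv_smul_smul, add_sub_cancel_right, Prod.swap_swap]
      exact ht
  rw [h]
  refine isPreconnected_iUnion ?_ fun n => ?_
  · obtain ⟨t, ht⟩ := Tri_nonempty
    refine ⟨t.swap + iv v, mem_iInter.2 fun n => ?_⟩
    have h0 : ((FF ^ 0)⁻¹ • (t.swap + iv v) - iv v).swap ∈ Tri := by
      rw [pow_zero, inv_one, one_smul, add_sub_cancel_right, Prod.swap_swap]
      exact ht
    refine ⟨_, Cu_mono h0 (Nat.zero_le n), ?_⟩
    show FF ^ n • (((FF ^ n)⁻¹ • (t.swap + iv v) - iv v).swap.swap + iv v) = _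
    rw [Prod.swap_swap, sub_add_cancel, smul_inv_smul]
  · refine convex_Tri.isPreconnected.image _ (Continuous.continuousOn ?_)
    exact (continuous_smul_pl _).comp (continuous_swap.add continuous_const)

lemma mem_Uu_iff_Cu {z : Pl} : z ∈ Uu ↔ ∃ v, z ∈ Cu v := by
  constructor
  · rintro ⟨n, w, h⟩
    refine ⟨w.swap, n, ?_⟩
    rw [COA_eq, Prod.swap_swap]
    exact h
  · rintro ⟨v, n, h⟩
    rw [COA_eq] at h
    exact ⟨n, v.swap, h⟩

lemma COA_succ (n : ℕ) (z : Pl) : (FF ^ (n + 1))⁻¹ • (FF • z) = (FF ^ n)⁻¹ • z := by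
  rw [← mul_smul, pow_succ', mul_inv_rev, mul_assoc, inv_mul_cancel, mul_one]

/-- `(FF ^ (n+1))⁻¹ • (FF • z) = (FF ^ n)⁻¹ • z` and `Cu_mono`. -/
lemma FF_smul_mem_Cu {z : Pl} {v : ℤ × ℤ} : FF • z ∈ Cu v ↔ z ∈ Cu v := by
  constructor
  · rintro ⟨n, h⟩
    have := Cu_mono h (Nat.le_succ n)
    rw [Nat.succ_eq_add_one, COA_succ] at this
    exact ⟨n, this⟩
  · rintro ⟨n, h⟩
    refine ⟨n + 1, ?_⟩
    rw [COA_succ]
    exact h

lemma FF_pow_smul_mem_Cu {z : Pl} {v : ℤ × ℤ} (n : ℕ) : FF ^ n • z ∈ Cu v ↔ z ∈ Cu v := by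
  induction n with
  | zero => rw [pow_zero, one_smul]
  | succ n ih => rw [pow_succ', mul_smul, FF_smul_mem_Cu, ih]

lemma FF_pow_inv_smul_mem_Cu {z : Pl} {v : ℤ × ℤ} (n : ℕ) :
    (FF ^ n)⁻¹ • z ∈ Cu v ↔ z ∈ Cu v := by
  rw [← FF_pow_smul_mem_Cu n, smul_inv_smul]

lemma sub_iv_mem_Cu {z : Pl} {v w : ℤ × ℤ} : z - iv w ∈ Cu v ↔ z ∈ Cu (v + w) := by
  have h : ∀ n : ℕ, (FF ^ n)⁻¹ • (z - iv w) - iv v = (FF ^ n)⁻¹ • z - iv (v + w) := by
    intro n
    rw [smul_sub_iv, iv_add]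
    abel
  simp only [Cu, mem_setOf_eq, h]

/-- Different components are disjoint: for a common `n` (`Cu_mono`), both
`((FF ^ n)⁻¹ • z - iv v).swap` and `((FF ^ n)⁻¹ • z - iv v').swap` are in `Tri`, which is in the box
`(-2/9,0) × (0, 2/81)`, so `iv v - iv v'` has coordinates of absolute value `< 1`. -/
lemma Cu_unique {z : Pl} {v v' : ℤ × ℤ} (h : z ∈ Cu v) (h' : z ∈ Cu v') : v = v' := by
  obtain ⟨n, hn⟩ := h
  obtain ⟨m, hm⟩ := h'
  have h1 := Tri_box (Cu_mono hn (le_max_left n m))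
  have h2 := Tri_box (Cu_mono hm (le_max_right n m))
  generalize (FF ^ (max n m))⁻¹ • z = p at h1 h2
  simp only [Prod.fst_swap, Prod.snd_swap, Prod.fst_sub, Prod.snd_sub, iv_fst, iv_snd] at h1 h2
  obtain ⟨a1, a2, a3, a4⟩ := h1
  obtain ⟨b1, b2, b3, b4⟩ := h2
  have e1 : v.1 = v'.1 := by
    have c1 : ((v.1 - v'.1 : ℤ) : ℝ) < 1 := by push_cast; linarith
    have c2 : (-1 : ℝ) < ((v.1 - v'.1 : ℤ) : ℝ) := by push_cast; linarith
    have c1' : v.1 - v'.1 < 1 := by exact_mod_cast c1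
    have c2' : -1 < v.1 - v'.1 := by exact_mod_cast c2
    omega
  have e2 : v.2 = v'.2 := by
    have c1 : ((v.2 - v'.2 : ℤ) : ℝ) < 1 := by push_cast; linarith
    have c2 : (-1 : ℝ) < ((v.2 - v'.2 : ℤ) : ℝ) := by push_cast; linarith
    have c1' : v.2 - v'.2 < 1 := by exact_mod_cast c1
    have c2' : -1 < v.2 - v'.2 := by exact_mod_cast c2
    omega
  exact Prod.ext e1 e2

/-- `Cu v` has a point outside `Tri`: take `p ∈ Tri` and `z = p.swap + iv v`, whose coordinates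
are `> v.1` resp. in `(v.2 - 2/9, v.2)`; a point of `Tri` has `z.1 ∈ (-2/9, 0)`, `z.2 ∈ (0, 2/81)`;
here `z.1 ∈ (v.1, v.1 + 2/81)` : impossible for an integer `v.1`
(`v.1 < 0` and `v.1 + 2/81 > -2/9`). -/
lemma exists_Cu_not_Tri (v : ℤ × ℤ) : ∃ z ∈ Cu v, z ∉ Tri := by
  obtain ⟨t, ht⟩ := Tri_nonempty
  refine ⟨t.swap + iv v, ⟨0, ?_⟩, fun h => ?_⟩
  · rw [pow_zero, inv_one, one_smul, add_sub_cancel_right, Prod.swap_swap]
    exact ht
  · have h1 := Tri_box h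
    have h2 := Tri_box ht
    simp only [Prod.fst_swap, Prod.snd_swap, Prod.fst_add, Prod.snd_add, iv_fst, iv_snd] at h1
    obtain ⟨a1, a2, -, -⟩ := h1
    obtain ⟨-, -, b3, b4⟩ := h2
    have c1 : ((v.1 : ℤ) : ℝ) < 0 := by linarith
    have c2 : (-1 : ℝ) < ((v.1 : ℤ) : ℝ) := by linarith
    have c1' : v.1 < 0 := by exact_mod_cast c1
    have c2' : -1 < v.1 := by exact_mod_cast c2
    omega

end H45T
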