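import Pool.Agent.Lib.H45Torus.COA

/-!
# Chunk COB: compact subsets of `Cu v`
-/

namespace H45T

open Filter Topology Set

/-- Backward orbit of the mirror image of a point of the sector. -/
lemma COB_back {p : Pl} (hp : p ∈ Tri) (j : ℕ) (v : ℤ × ℤ) :
    (FF ^ j)⁻¹ • (p.swap + iv v) = (((1/9 : ℝ) ^ j) • p).swap + iv v := by
  rw [smul_add_iv, FF_pow_inv_smul, Prod.swap_swap, FF_pow_smul_Tri hp]

lemma COB_split {n i : ℕ} (h : n ≤ i) (z : Pl) :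
    (FF ^ i)⁻¹ • z = (FF ^ (i - n))⁻¹ • ((FF ^ n)⁻¹ • z) := by
  rw [← mul_smul, ← mul_inv_rev, ← pow_add, Nat.add_sub_cancel' h]

lemma COB_formula {z : Pl} {v : ℤ × ℤ} {n i : ℕ} (h : n ≤ i)
    (hz : ((FF ^ n)⁻¹ • z - iv v).swap ∈ Tri) :
    (FF ^ i)⁻¹ • z =
      (((1/9 : ℝ) ^ (i - n)) • ((FF ^ n)⁻¹ • z - iv v).swap).swap + iv v := by
  have h1 : (FF ^ n)⁻¹ • z = (((FF ^ n)⁻¹ • z - iv v).swap).swap + iv v := by
    rw [Prod.swap_swap, sub_add_cancel]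
  rw [COB_split h, h1, COB_back hz]
  rw [← h1]

/-- A compact subset of `Cu v` is contained in one of the sets of the increasing open union. -/
lemma compact_Cu {D : Set Pl} {v : ℤ × ℤ} (hD : IsCompact D) (hDC : D ⊆ Cu v) :
    ∃ n : ℕ, ∀ z ∈ D, ((FF ^ n)⁻¹ • z - iv v).swap ∈ Tri := by
  obtain ⟨n, hn⟩ := hD.elim_directed_cover
    (fun n : ℕ => {z : Pl | ((FF ^ n)⁻¹ • z - iv v).swap ∈ Tri}) (fun n => by
      have hc : Continuous fun z : Pl => ((FF ^ n)⁻¹ • z - iv v).swap :=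
        continuous_swap.comp ((continuous_smul_pl _).sub continuous_const)
      exact isOpen_Tri.preimage hc) (fun z hz => by
      obtain ⟨n, hn⟩ := hDC hz
      exact mem_iUnion.2 ⟨n, hn⟩) (by
      intro a b
      exact ⟨max a b, fun z hz => Cu_mono hz (le_max_left a b),
        fun z hz => Cu_mono hz (le_max_right a b)⟩)
  exact ⟨n, fun z hz => hn hz⟩

lemma COB_bound {p : Pl} (hp : p ∈ Tri) : ‖p‖ ≤ 1 := by
  obtain ⟨h1, h2, h3, h4⟩ := Tri_box hp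
  rw [Prod.norm_def]
  apply max_le
  · rw [Real.norm_eq_abs, abs_le]; constructor <;> linarith
  · rw [Real.norm_eq_abs, abs_le]; constructor <;> linarith

lemma COB_norm_swap (p : Pl) : ‖p.swap‖ = ‖p‖ := by
  rw [Prod.norm_def, Prod.norm_def]; simp [max_comm]

/-- Backward iterates of a compact subset of `Cu v` shrink exponentially.
Proof: with `n` from `compact_Cu`, for `i = n + j` and `z ∈ D`, writing
`p = ((FF ^ n)⁻¹ • z - iv v).swap ∈ Tri` we have `((FF ^ i)⁻¹ • z - iv v).swap = FF ^ j • p =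
(1/9)^j • p` (`FF_pow_inv_smul`, `FF_pow_smul_Tri`), so that for `z, z' ∈ D` the distance is
`≤ (1/9)^j * dist p p' ≤ (1/9)^j`.  For `i ≤ n` the distance is bounded because
`(FF ^ i)⁻¹ • D` is compact.  Take `δ i = C * (1/9)^i` with `C` large. -/
lemma shrink_Cu {D : Set Pl} {v : ℤ × ℤ} (hD : IsCompact D) (hDC : D ⊆ Cu v) :
    ∃ C : ℝ, 0 ≤ C ∧ ∀ i : ℕ, ∀ z ∈ D, ∀ z' ∈ D,
      dist ((FF ^ i)⁻¹ • z) ((FF ^ i)⁻¹ • z') ≤ C * (1/9 : ℝ) ^ i := by
  obtain ⟨n, hn⟩ := compact_Cu hD hDC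
  -- bounds for small exponents
  have hb : ∀ i : ℕ, ∃ B : ℝ, ∀ z ∈ D, ‖(FF ^ i)⁻¹ • z‖ ≤ B := fun i =>
    hD.exists_bound_of_continuousOn (continuous_smul_pl _).continuousOn
  choose B hB using hb
  set M : ℝ := 2 + ∑ i ∈ Finset.range (n + 1), 2 * |B i| with hM
  have hMB : ∀ i ≤ n, 2 * |B i| ≤ M := by
    intro i hi
    have := Finset.single_le_sum (f := fun i => 2 * |B i|)
      (fun j _ => by positivity) (Finset.mem_range.2 (Nat.lt_succ_of_le hi))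
    linarith
  have hM2 : 2 ≤ M := by
    have : 0 ≤ ∑ i ∈ Finset.range (n + 1), 2 * |B i| := Finset.sum_nonneg fun j _ => by positivity
    linarith
  have h9 : (9 : ℝ) ^ n * (1/9 : ℝ) ^ n = 1 := by
    rw [← mul_pow]; norm_num
  refine ⟨M * 9 ^ n, by positivity, fun i z hz z' hz' => ?_⟩
  rcases le_total i n with hin | hin
  · have h1 : dist ((FF ^ i)⁻¹ • z) ((FF ^ i)⁻¹ • z') ≤ 2 * |B i| := by
      rw [dist_eq_norm]
      calc _ ≤ ‖(FF ^ i)⁻¹ • z‖ + ‖(FF ^ i)⁻¹ • z'‖ := norm_sub_le _ _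
        _ ≤ |B i| + |B i| := add_le_add ((hB i z hz).trans (le_abs_self _))
            ((hB i z' hz').trans (le_abs_self _))
        _ = 2 * |B i| := by ring
    have h2 : (1 : ℝ) ≤ 9 ^ n * (1/9 : ℝ) ^ i := by
      have h21 : (1/9 : ℝ) ^ n ≤ (1/9 : ℝ) ^ i :=
        pow_le_pow_of_le_one (by norm_num) (by norm_num) hin
      calc (1 : ℝ) = 9 ^ n * (1/9 : ℝ) ^ n := h9.symm
        _ ≤ 9 ^ n * (1/9 : ℝ) ^ i := mul_le_mul_of_nonneg_left h21 (by positivity)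
    calc _ ≤ M := h1.trans (hMB i hin)
      _ = M * 1 := (mul_one _).symm
      _ ≤ M * (9 ^ n * (1/9 : ℝ) ^ i) := mul_le_mul_of_nonneg_left h2 (by linarith)
      _ = M * 9 ^ n * (1/9 : ℝ) ^ i := by ring
  · rw [COB_formula hin (hn z hz), COB_formula hin (hn z' hz'), dist_add_right, dist_swap,
      dist_eq_norm, ← smul_sub, norm_smul, norm_pow]
    have h3 := norm_sub_le ((FF ^ n)⁻¹ • z - iv v).swap ((FF ^ n)⁻¹ • z' - iv v).swap
    have h4 := COB_bound (hn z hz)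
    have h5 := COB_bound (hn z' hz')
    have h6 : ‖(1/9 : ℝ)‖ = 1/9 := by norm_num
    rw [h6]
    have h7 : (9 : ℝ) ^ n * (1/9 : ℝ) ^ i = (1/9 : ℝ) ^ (i - n) := by
      obtain ⟨j, rfl⟩ := Nat.exists_eq_add_of_le hin
      rw [pow_add, ← mul_assoc, h9, one_mul, Nat.add_sub_cancel_left]
    calc (1/9 : ℝ) ^ (i - n) * ‖((FF ^ n)⁻¹ • z - iv v).swap - ((FF ^ n)⁻¹ • z' - iv v).swap‖
        ≤ (1/9 : ℝ) ^ (i - n) * 2 := mul_le_mul_of_nonneg_left (by linarith) (by positivity)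
      _ ≤ (1/9 : ℝ) ^ (i - n) * M := mul_le_mul_of_nonneg_left hM2 (by positivity)
      _ = M * 9 ^ n * (1/9 : ℝ) ^ i := by rw [← h7]; ring

lemma COB_zero (n : ℕ) : FF ^ n • (0 : Pl) = 0 := by
  induction n with
  | zero => simp
  | succ n ih =>
    rw [pow_succ, mul_smul, FF_tri (z := (0 : Pl)) (by simp; norm_num) (by simp) (by simp) (by simp),
      smul_zero, ih]

lemma COB_iv (v : ℤ × ℤ) : iv v ∉ Cu v := by
  rintro ⟨n, hn⟩
  have h1 : (FF ^ n)⁻¹ • iv v = iv v := by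
    have h2 := smul_add_iv (FF ^ n)⁻¹ 0 v
    rw [zero_add] at h2
    rw [h2, FF_pow_inv_smul]
    have h3 : (0 : Pl).swap = 0 := rfl
    rw [h3, COB_zero, h3, zero_add]
  rw [h1, sub_self] at hn
  exact lt_irrefl _ hn.1

/-- Forward iterates leave a compact subset of `Cu v`.
Proof: `n₁` from `compact_Cu`.  The point `iv v` is not in `D` (`iv v` is not in `Cu v`: all its
backward iterates are integer points), so by compactness `dist (z, iv v) ≥ r > 0` on `D`.  If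
`z ∈ D` and `z' = FF ^ i • z ∈ D` with `i ≥ n₁`, then with `p = ((FF ^ n₁)⁻¹ • z' - iv v).swap ∈ Tri`
we get `z - iv v = ((FF ^ i)⁻¹ • z') - iv v = ((1/9)^(i - n₁) • p).swap` has norm
`≤ (1/9)^(i-n₁) < r` for `i` large: contradiction. -/
lemma escape_Cu {D : Set Pl} {v : ℤ × ℤ} (hD : IsCompact D) (hDC : D ⊆ Cu v) :
    ∃ N : ℕ, ∀ i ≥ N, ∀ z ∈ D, FF ^ i • z ∉ D := by
  obtain ⟨n, hn⟩ := compact_Cu hD hDC
  have hiv : iv v ∉ D := fun h => COB_iv v (hDC h)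
  obtain ⟨r, hr, hrD⟩ : ∃ r : ℝ, 0 < r ∧ ∀ z ∈ D, r ≤ dist z (iv v) := by
    obtain ⟨r, hr, hb⟩ := Metric.isOpen_iff.1 hD.isClosed.isOpen_compl (iv v) hiv
    refine ⟨r, hr, fun z hz => ?_⟩
    by_contra hlt
    exact hb (Metric.mem_ball.2 (not_le.1 hlt)) hz
  obtain ⟨j, hj⟩ := exists_pow_lt_of_lt_one hr (by norm_num : (1/9 : ℝ) < 1)
  refine ⟨n + j, fun i hi z hz hz' => ?_⟩
  have hni : n ≤ i := le_trans (Nat.le_add_right n j) hi
  have h1 := COB_formula hni (hn _ hz')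
  rw [inv_smul_smul] at h1
  have h2 := hrD z hz
  rw [h1, dist_eq_norm, add_sub_cancel_right, COB_norm_swap, norm_smul, norm_pow] at h2
  have h4 := COB_bound (hn _ hz')
  have h6 : ‖(1/9 : ℝ)‖ = 1/9 := by norm_num
  rw [h6] at h2
  have h7 : (1/9 : ℝ) ^ (i - n) ≤ (1/9 : ℝ) ^ j :=
    pow_le_pow_of_le_one (by norm_num) (by norm_num) (by omega)
  have h8 : (1/9 : ℝ) ^ (i - n) * ‖((FF ^ n)⁻¹ • FF ^ i • z - iv v).swap‖ ≤ (1/9 : ℝ) ^ (i - n) * 1 :=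
    mul_le_mul_of_nonneg_left h4 (by positivity)
  linarith

end H45T
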