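import Pool.Agent.Lib.H45Torus.Basic

/-!
# Chunk CS: `EE` is complete
-/

namespace H45T

open Filter Topology Set
open scoped BoundedContinuousFunction

/-- `EE` is complete.
Proof: `emb : EE → (Pl →ᵇ Pl) × (Pl →ᵇ Pl)` is an isometry (`dist_eq_emb`) so it suffices that its
range is closed.  Its range is the set of pairs `(p, q)` such that `p`, `q` are periodic
(`p (z + iv w) = p z`) and `(id + p) ∘ (id + q) = id = (id + q) ∘ (id + p)`: for such a pair
`z ↦ z + p z` is a homeomorphism with inverse `z ↦ z + q z`, commuting with `iv w`.
Closedness: each of these conditions, for fixed `z` (and `w`), is a closed condition: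
`z + q z + p (z + q z) = z` is continuous in `(p, q)` because `(p, x) ↦ p x` is jointly continuous
(`BoundedContinuousFunction.continuous_eval`).
(Alternatively, directly with a Cauchy sequence.) -/
theorem completeSpace_EE : CompleteSpace EE := by
  have hiso : Isometry emb := Isometry.of_dist_eq fun f g => (dist_eq_emb f g).symm
  have hcl : IsClosed (range emb) := by
    have hset : range emb = {pq : (Pl →ᵇ Pl) × (Pl →ᵇ Pl) |
        (∀ (z : Pl) (w : ℤ × ℤ), pq.1 (z + iv w) = pq.1 z) ∧
        (∀ z : Pl, z + pq.2 z + pq.1 (z + pq.2 z) = z) ∧
        (∀ z : Pl, z + pq.1 z + pq.2 (z + pq.1 z) = z)} := by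
      ext pq
      constructor
      · rintro ⟨f, rfl⟩
        refine ⟨fun z w => ?_, fun z => ?_, fun z => ?_⟩
        · show disp f (z + iv w) = disp f z
          rw [disp_apply, disp_apply, smul_add_iv]
          abel
        · show z + disp f⁻¹ z + disp f (z + disp f⁻¹ z) = z
          have h1 : z + disp f⁻¹ z = f⁻¹ • z := by rw [disp_apply]; abel
          rw [h1, disp_apply, smul_inv_smul]
          abel
        · show z + disp f z + disp f⁻¹ (z + disp f z) = z
          have h1 : z + disp f z = f • z := by rw [disp_apply]; abel
          rw [h1, disp_apply, inv_smul_smul]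
          abel
      · rintro ⟨h1, h2, h3⟩
        obtain ⟨p, q⟩ := pq
        simp only at h1 h2 h3
        let e : Pl ≃ₜ Pl :=
          { toFun := fun z => z + p z
            invFun := fun z => z + q z
            left_inv := fun z => h3 z
            right_inv := fun z => h2 z
            continuous_toFun := continuous_id.add p.continuous
            continuous_invFun := continuous_id.add q.continuous }
        have he : ∀ (z : Pl) (w : ℤ × ℤ), e (z + iv w) = e z + iv w := by
          intro z w
          show z + iv w + p (z + iv w) = z + p z + iv w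
          rw [h1]
          abel
        refine ⟨EE.mk' e he, ?_⟩
        refine Prod.ext ?_ ?_
        · ext1 z
          show disp (EE.mk' e he) z = p z
          rw [disp_apply, mk'_smul]
          show z + p z - z = p z
          abel
        · ext1 z
          show disp (EE.mk' e he)⁻¹ z = q z
          rw [disp_apply, mk'_inv_smul]
          show z + q z - z = q z
          abel
    rw [hset]
    have hev : Continuous fun x : (Pl →ᵇ Pl) × Pl => x.1 x.2 := by fun_prop
    have c1 : ∀ z : Pl, Continuous fun pq : (Pl →ᵇ Pl) × (Pl →ᵇ Pl) => pq.1 z := fun z =>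
      hev.comp (continuous_fst.prodMk continuous_const)
    have c2 : ∀ z : Pl, Continuous fun pq : (Pl →ᵇ Pl) × (Pl →ᵇ Pl) => pq.2 z := fun z =>
      hev.comp (continuous_snd.prodMk continuous_const)
    have A1 : IsClosed {pq : (Pl →ᵇ Pl) × (Pl →ᵇ Pl) |
        ∀ (z : Pl) (w : ℤ × ℤ), pq.1 (z + iv w) = pq.1 z} := by
      simp only [Set.ofPred_forall]
      exact isClosed_iInter fun z => isClosed_iInter fun w => isClosed_eq (c1 _) (c1 _)
    have A2 : IsClosed {pq : (Pl →ᵇ Pl) × (Pl →ᵇ Pl) |
        ∀ z : Pl, z + pq.2 z + pq.1 (z + pq.2 z) = z} := by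
      simp only [Set.ofPred_forall]
      exact isClosed_iInter fun z => isClosed_eq
        ((continuous_const.add (c2 z)).add
          (hev.comp (continuous_fst.prodMk (continuous_const.add (c2 z))))) continuous_const
    have A3 : IsClosed {pq : (Pl →ᵇ Pl) × (Pl →ᵇ Pl) |
        ∀ z : Pl, z + pq.1 z + pq.2 (z + pq.1 z) = z} := by
      simp only [Set.ofPred_forall]
      exact isClosed_iInter fun z => isClosed_eq
        ((continuous_const.add (c1 z)).add
          (hev.comp (continuous_snd.prodMk (continuous_const.add (c1 z))))) continuous_const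
    exact A1.inter (A2.inter A3)
  exact hiso.isUniformInducing.completeSpace hcl.isComplete

instance : CompleteSpace EE := completeSpace_EE

end H45T
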