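import Pool.Agent.Lib.H45Torus.CAP

/-!
# Chunk HV: the step `VSet → VSet` or `VSet → MSet`
-/

namespace H45T

open Filter Topology Set

lemma HV_class {z : Pl} (hU : z ∉ Us) (h1 : 1/10 < z.1) (h2 : z.1 < 1) (h3 : 1/10 < z.2)
    (h4 : z.2 ≤ 1) :
    (2/10 < z.2 ∧ z.2 < 3/10) ∨ (3/10 < z.2 ∧ z.2 < 4/10) ∨ (6/10 < z.2 ∧ z.2 < 7/10) ∨
      (7/10 < z.2 ∧ z.2 < 8/10) ∨ 9/10 ≤ z.2 := by
  obtain ⟨x, y⟩ := z
  simp only at h1 h2 h3 h4 ⊢
  have hcap : y < 9/10 → th y = 0 → False := fun a b => hU (capture h1 h2 (by linarith) a b)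
  have hx : aa x = (8 + x) / 9 := aa_hi h1.le h2.le
  have hne3 : y ≠ 3/10 := by
    rintro rfl
    apply hU
    rw [← FF_smul_mem_Us, FF_smul, hx, th_r1 (by norm_num) (by norm_num)]
    have e1 : th ((8 + x) / 9 + (2 - 10 * (3/10))) = 0 := th_near (by linarith) (by linarith)
    rw [e1, sub_zero, bb_lo (by norm_num) (by norm_num)]
    have := corner_Us (z := ((8 + x) / 9 + (2 - 10 * (3/10)), 3/10/9)) (by simp only; linarith)
      (by simp only; linarith) (by norm_num) (by norm_num) 0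
    simpa using this
  have hne7 : y ≠ 7/10 := by
    rintro rfl
    apply hU
    rw [← FF_smul_mem_Us, FF_smul, hx, th_r4 (by norm_num) (by norm_num)]
    have e0 : (8 + x) / 9 + (8 - 10 * (7/10)) = (x - 1) / 9 + ((2 : ℤ) : ℝ) := by
      push_cast; ring
    have e1 : th ((8 + x) / 9 + (8 - 10 * (7/10))) = 0 := by
      rw [e0, th_add_int]
      exact th_near (by linarith) (by linarith)
    rw [e1, sub_zero, bb_lo (by norm_num) (by norm_num)]
    have h5 := corner_Us (z := ((x - 1) / 9, 7/10/9)) (by simp only; linarith)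
      (by simp only; linarith) (by norm_num) (by norm_num) (2, 0)
    have h6 : (((8 + x) / 9 + (8 - 10 * (7/10)), 7/10/9) : Pl) = ((x - 1) / 9, 7/10/9) + iv (2, 0) := by
      ext
      · simp only [Prod.fst_add, iv_fst]; push_cast; ring
      · simp
    rw [h6]
    exact h5
  by_contra hcon
  simp only [not_or, not_and_or, not_lt, not_le] at hcon
  obtain ⟨c1, c2, c3, c4, c5⟩ := hcon
  rcases le_or_gt y (2/10) with h | h
  · exact hcap c5 (th_zero1 (by linarith) h)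
  have h' : 3/10 ≤ y := c1.resolve_left (by linarith)
  have h'' : 3/10 < y := lt_of_le_of_ne h' (Ne.symm hne3)
  have h4' : 4/10 ≤ y := c2.resolve_left (by linarith)
  rcases le_or_gt y (6/10) with k | k
  · exact hcap c5 (th_zero2 h4' k)
  have k' : 7/10 ≤ y := c3.resolve_left (by linarith)
  have k'' : 7/10 < y := lt_of_le_of_ne k' (Ne.symm hne7)
  have k4 : 8/10 ≤ y := c4.resolve_left (by linarith)
  exact hcap c5 (th_zero3 k4 h4)

lemma HV_lin {l : ℝ} {C : Set Pl} (h : VSet l C) {s c : ℝ} (hs : |s| = 10)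
    (hc : ∀ z ∈ C, th z.2 = s * z.2 + c) (h9 : ∀ z ∈ C, z.2 < 9/10) :
    MSet (9 * l) ((fun z : Pl => Hm • z) '' C) := by
  obtain ⟨hC, hU, hB, hS, z0, hz0, z1, hz1, hl⟩ := h
  have hf : ∀ z ∈ C, Hm • z = ((8 + z.1) / 9 + (s * z.2 + c), z.2) := by
    intro z hz
    obtain ⟨h1, h2, h3, h4⟩ := hB z hz
    rw [Hm_smul, aa_hi h1.le h2.le, hc z hz]
  have hslope : ∀ z ∈ C, ∀ z' ∈ C, 9 * |z.2 - z'.2| ≤
      |((8 + z.1) / 9 + (s * z.2 + c)) - ((8 + z'.1) / 9 + (s * z'.2 + c))| := by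
    intro z hz z' hz'
    have h1 := hS z hz z' hz'
    have h2 : s * (z.2 - z'.2) = (((8 + z.1) / 9 + (s * z.2 + c)) -
        ((8 + z'.1) / 9 + (s * z'.2 + c))) - (z.1 - z'.1) / 9 := by ring
    have h3 : |s * (z.2 - z'.2)| = 10 * |z.2 - z'.2| := by rw [abs_mul, hs]
    have h4 := abs_sub (((8 + z.1) / 9 + (s * z.2 + c)) -
        ((8 + z'.1) / 9 + (s * z'.2 + c))) ((z.1 - z'.1) / 9)
    rw [← h2, h3, abs_div, abs_of_pos (by norm_num : (0:ℝ) < 9)] at h4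
    have h5 := abs_nonneg (z.2 - z'.2)
    linarith
  refine ⟨hC.image _ (continuous_smul_pl Hm).continuousOn, ?_, ?_, ?_, ?_⟩
  · rintro _ ⟨z, hz, rfl⟩
    show (rc Hm)⁻¹ • (Hm • z) ∉ Us
    rw [← mul_smul]
    intro hh
    exact hU z hz (FF_smul_mem_Us.1 hh)
  · rintro _ ⟨z, hz, rfl⟩
    obtain ⟨h1, h2, h3, h4⟩ := hB z hz
    simp only [hf z hz]
    exact ⟨by linarith, h9 z hz⟩
  · rintro _ ⟨z, hz, rfl⟩ _ ⟨z', hz', rfl⟩
    simp only [hf z hz, hf z' hz']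
    have h1 := hslope z hz z' hz'
    linarith
  · refine ⟨_, ⟨z0, hz0, rfl⟩, _, ⟨z1, hz1, rfl⟩, ?_⟩
    simp only [hf z0 hz0, hf z1 hz1]
    have h1 := hslope z0 hz0 z1 hz1
    linarith

lemma HV_top {l : ℝ} {C : Set Pl} (h : VSet l C) (h9 : ∀ z ∈ C, 9/10 ≤ z.2) :
    VSet (9 * l) ((fun z : Pl => FF • z) '' C) := by
  obtain ⟨hC, hU, hB, hS, z0, hz0, z1, hz1, hl⟩ := h
  have hf : ∀ z ∈ C, FF • z = ((8 + z.1) / 9, 9 * z.2 - 8) := by
    intro z hz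
    obtain ⟨h1, h2, h3, h4⟩ := hB z hz
    have h5 := h9 z hz
    have e : z = (z.1, z.2) := rfl
    rw [e, FF_smul, aa_hi h1.le h2.le, th_zero3 (by linarith) h4, add_zero,
      th_zero3 (by linarith) (by linarith), sub_zero, bb_hi h5 h4]
  have hU' : ∀ z ∈ C, FF • z ∉ Us := fun z hz hh => hU z hz (FF_smul_mem_Us.1 hh)
  refine ⟨hC.image _ (continuous_smul_pl FF).continuousOn, ?_, ?_, ?_, ?_⟩
  · rintro _ ⟨z, hz, rfl⟩
    exact hU' z hz
  · rintro _ ⟨z, hz, rfl⟩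
    obtain ⟨h1, h2, h3, h4⟩ := hB z hz
    have h5 := h9 z hz
    have h6 := hU' z hz
    simp only [hf z hz] at h6 ⊢
    refine ⟨by linarith, by linarith, ?_, by linarith⟩
    rcases lt_or_eq_of_le (show 1/10 ≤ 9 * z.2 - 8 by linarith) with h7 | h7
    · exact h7
    · exfalso
      apply h6
      exact capture (by linarith) (by linarith) (by linarith) (by linarith)
        (th_zero1 (by linarith) (by linarith))
  · rintro _ ⟨z, hz, rfl⟩ _ ⟨z', hz', rfl⟩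
    simp only [hf z hz, hf z' hz']
    have h1 := hS z hz z' hz'
    have h2 : (8 + z.1) / 9 - (8 + z'.1) / 9 = (z.1 - z'.1) / 9 := by ring
    have h3 : 9 * z.2 - 8 - (9 * z'.2 - 8) = 9 * (z.2 - z'.2) := by ring
    rw [h2, h3, abs_div, abs_mul, abs_of_pos (by norm_num : (0:ℝ) < 9)]
    have h5 := abs_nonneg (z.2 - z'.2)
    linarith
  · refine ⟨_, ⟨z0, hz0, rfl⟩, _, ⟨z1, hz1, rfl⟩, ?_⟩
    simp only [hf z0 hz0, hf z1 hz1]
    have h3 : 9 * z0.2 - 8 - (9 * z1.2 - 8) = 9 * (z0.2 - z1.2) := by ring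
    rw [h3, abs_mul, abs_of_pos (by norm_num : (0:ℝ) < 9)]
    linarith

/-- The step for a `VSet l`, `C`.  By `capture`, a point `(x, y)` of `C` has `y ≥ 9/10` or
`th y ≠ 0`, so `y ∈ (2/10,4/10) ∪ (6/10,8/10) ∪ [9/10,1]` (`th_zero1`, `th_zero2`, `th_zero3`), and
`y ≠ 3/10`, `y ≠ 7/10`: for `y = 3/10`, `th y = -1`, `FF (x, y) = ((8+x)/9 - 1, bb (3/10)) =
((8+x)/9 - 1, 1/30)` is in the corner of `corner_Us`; for `y = 7/10`, `th y = 1` and
`FF (x, y) = ((8+x)/9 + 1, 7/90) = ((8+x)/9 - 1, 7/90) + iv (2, 0)`, also in `Us`.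
Using `sep_of_preconnected` with `f z = z.2` and the values `3/10, 5/10, 7/10, 85/100` all the
points of `C` have `y` in the same of the intervals `(2/10,3/10)`, `(3/10,4/10)`, `(6/10,7/10)`,
`(7/10,8/10)`, `[9/10,1]`.

Last interval: the image `C' = FF '' C`: `FF (x, y) = ((8+x)/9, 9y - 8)` (`aa_hi`, `th_zero3`
twice, `bb_hi`): a `VSet (9 l)`: `(8+x)/9 ∈ (9/10, 1)`, `9 y - 8 ∈ [1/10, 1]` and `9y - 8 ≠ 1/10`
by `capture` (`th (1/10) = 0`) since `FF • z ∉ Us`; `|Δx'| = |Δx|/9 ≤ |Δy|/90 ≤ |Δy'|/10`.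

Other intervals: `th y = ± 10 y + const` on the interval (`th_r1` … `th_r4`) so for the image
`D = Hm '' C`: `Δx' = Δx/9 ± 10 Δy`, `|Δx'| ≥ 10|Δy| - |Δy|/90 ≥ 9 |Δy|`: `D` is an `MSet (9 l)`.
`(rc Hm)⁻¹ • Hm • z = FF • z ∉ Us`. -/
theorem VSet_step {l : ℝ} {C : Set Pl} (h : VSet l C) :
    VSet (9 * l) ((fun z : Pl => FF • z) '' C) ∨ MSet (9 * l) ((fun z : Pl => Hm • z) '' C) := by
  have hh := h
  obtain ⟨hC, hU, hB, hS, -⟩ := hh
  have hcl : ∀ z ∈ C, (2/10 < z.2 ∧ z.2 < 3/10) ∨ (3/10 < z.2 ∧ z.2 < 4/10) ∨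
      (6/10 < z.2 ∧ z.2 < 7/10) ∨ (7/10 < z.2 ∧ z.2 < 8/10) ∨ 9/10 ≤ z.2 := by
    intro z hz
    obtain ⟨h1, h2, h3, h4⟩ := hB z hz
    exact HV_class (hU z hz) h1 h2 h3 h4
  have hsep : ∀ c : ℝ, (c = 3/10 ∨ c = 5/10 ∨ c = 7/10 ∨ c = 85/100) →
      (∀ z ∈ C, z.2 < c) ∨ (∀ z ∈ C, c < z.2) := by
    intro c hc
    refine sep_of_preconnected hC continuous_snd c fun z hz he => ?_
    have h1 := hcl z hz
    rcases hc with rfl | rfl | rfl | rfl <;>
      rcases h1 with ⟨a, b⟩ | ⟨a, b⟩ | ⟨a, b⟩ | ⟨a, b⟩ | a <;> linarith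
  rcases hsep (3/10) (by simp) with h3 | h3
  · right
    refine HV_lin h (s := -10) (c := 2) (by norm_num) (fun z hz => ?_) (fun z hz => ?_)
    · have h1 := hcl z hz
      have h2 := h3 z hz
      rcases h1 with ⟨a, b⟩ | ⟨a, b⟩ | ⟨a, b⟩ | ⟨a, b⟩ | a <;> try (exfalso; linarith)
      rw [th_r1 a.le b.le]; ring
    · have := h3 z hz; linarith
  rcases hsep (5/10) (by simp) with h5 | h5
  · right
    refine HV_lin h (s := 10) (c := -4) (by norm_num) (fun z hz => ?_) (fun z hz => ?_)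
    · have h1 := hcl z hz
      have h2 := h3 z hz
      have h4 := h5 z hz
      rcases h1 with ⟨a, b⟩ | ⟨a, b⟩ | ⟨a, b⟩ | ⟨a, b⟩ | a <;> try (exfalso; linarith)
      rw [th_r2 a.le b.le]; ring
    · have := h5 z hz; linarith
  rcases hsep (7/10) (by simp) with h7 | h7
  · right
    refine HV_lin h (s := 10) (c := -6) (by norm_num) (fun z hz => ?_) (fun z hz => ?_)
    · have h1 := hcl z hz
      have h2 := h5 z hz
      have h4 := h7 z hz
      rcases h1 with ⟨a, b⟩ | ⟨a, b⟩ | ⟨a, b⟩ | ⟨a, b⟩ | a <;> try (exfalso; linarith)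
      rw [th_r3 a.le b.le]; ring
    · have := h7 z hz; linarith
  rcases hsep (85/100) (by simp) with h8 | h8
  · right
    refine HV_lin h (s := -10) (c := 8) (by norm_num) (fun z hz => ?_) (fun z hz => ?_)
    · have h1 := hcl z hz
      have h2 := h7 z hz
      have h4 := h8 z hz
      rcases h1 with ⟨a, b⟩ | ⟨a, b⟩ | ⟨a, b⟩ | ⟨a, b⟩ | a <;> try (exfalso; linarith)
      rw [th_r4 a.le b.le]; ring
    · have := h8 z hz; linarith
  · left
    refine HV_top h fun z hz => ?_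
    have h1 := hcl z hz
    have h2 := h8 z hz
    rcases h1 with ⟨a, b⟩ | ⟨a, b⟩ | ⟨a, b⟩ | ⟨a, b⟩ | a <;> linarith

end H45T
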