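import Pool.Agent.Lib.H45Torus.REA2

/-!
# Chunk REA: every open set outside `Us` yields an `NSet` or a `VSet`
-/

namespace H45T

open Filter Topology Set

private lemma REA_hseg {A : Set Pl} (hA : IsOpen A) (hU : ∀ z ∈ A, z ∉ Us)
    (hB : ∀ z ∈ A, 0 ≤ z.1 ∧ z.1 ≤ 1/10 ∧ 0 < z.2 ∧ z.2 < 1/10) {p : Pl} (hp : p ∈ A) :
    ∃ (l : ℝ) (C : Set Pl), 0 < l ∧ NSet l C := by
  obtain ⟨r, hr, hr'⟩ := Metric.isOpen_iff.1 hA p hp
  have hsub : ∀ t ∈ Icc (p.1 - r/2) (p.1 + r/2), ((t, p.2) : Pl) ∈ A := by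
    intro t ht
    apply hr'
    rw [Metric.mem_ball, Prod.dist_eq]
    simp only [dist_self]
    rw [max_lt_iff]
    refine ⟨?_, hr⟩
    rw [Real.dist_eq, abs_lt]
    constructor <;> linarith [ht.1, ht.2]
  refine ⟨r, (fun t : ℝ => ((t, p.2) : Pl)) '' Icc (p.1 - r/2) (p.1 + r/2), hr, ?_, ?_, ?_, ?_, ?_⟩
  · exact isPreconnected_Icc.image _ (by fun_prop)
  · rintro z ⟨t, ht, rfl⟩
    exact hU _ (hsub t ht)
  · rintro z ⟨t, ht, rfl⟩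
    exact hB _ (hsub t ht)
  · rintro z ⟨t, ht, rfl⟩ z' ⟨t', ht', rfl⟩
    simp only [sub_self, abs_zero]
    positivity
  · refine ⟨_, ⟨p.1 + r/2, ⟨by linarith, le_rfl⟩, rfl⟩, _, ⟨p.1 - r/2, ⟨le_rfl, by linarith⟩, rfl⟩, ?_⟩
    simp only
    rw [show p.1 + r/2 - (p.1 - r/2) = r by ring, abs_of_pos hr]

private lemma REA_vseg {A : Set Pl} (hA : IsOpen A) (hU : ∀ z ∈ A, z ∉ Us)
    (hB : ∀ z ∈ A, 1/10 < z.1 ∧ z.1 < 1 ∧ 1/10 < z.2 ∧ z.2 ≤ 1) {p : Pl} (hp : p ∈ A) :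
    ∃ (l : ℝ) (C : Set Pl), 0 < l ∧ VSet l C := by
  obtain ⟨r, hr, hr'⟩ := Metric.isOpen_iff.1 hA p hp
  have hsub : ∀ t ∈ Icc (p.2 - r/2) (p.2 + r/2), ((p.1, t) : Pl) ∈ A := by
    intro t ht
    apply hr'
    rw [Metric.mem_ball, Prod.dist_eq]
    simp only [dist_self]
    rw [max_lt_iff]
    refine ⟨hr, ?_⟩
    rw [Real.dist_eq, abs_lt]
    constructor <;> linarith [ht.1, ht.2]
  refine ⟨r, (fun t : ℝ => ((p.1, t) : Pl)) '' Icc (p.2 - r/2) (p.2 + r/2), hr, ?_, ?_, ?_, ?_, ?_⟩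
  · exact isPreconnected_Icc.image _ (by fun_prop)
  · rintro z ⟨t, ht, rfl⟩
    exact hU _ (hsub t ht)
  · rintro z ⟨t, ht, rfl⟩
    exact hB _ (hsub t ht)
  · rintro z ⟨t, ht, rfl⟩ z' ⟨t', ht', rfl⟩
    simp only [sub_self, abs_zero]
    positivity
  · refine ⟨_, ⟨p.2 + r/2, ⟨by linarith, le_rfl⟩, rfl⟩, _, ⟨p.2 - r/2, ⟨le_rfl, by linarith⟩, rfl⟩, ?_⟩
    simp only
    rw [show p.2 + r/2 - (p.2 - r/2) = r by ring, abs_of_pos hr]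

/-- A nonempty open set `W` disjoint from `Us` yields an `NSet l` or a `VSet l` with `l > 0`: take
`z ∈ W` with generic orbit and `n`, `w` from `reach_point`; the set `{FF ^ n • z' - iv w | z' ∈ W}`
is open (homeomorphism), disjoint from `Us`, and contains the point `p = FF ^ n • z - iv w`; take
a small horizontal (resp. vertical) segment centred at `p` in its intersection with the open box. -/
theorem reach {W : Set Pl} (hW : IsOpen W) (hne : W.Nonempty) (hd : ∀ z ∈ W, z ∉ Us) :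
    ∃ (l : ℝ) (C : Set Pl), 0 < l ∧ (NSet l C ∨ VSet l C) := by
  obtain ⟨z, hzW, hz⟩ := dense_gen_orbit.inter_open_nonempty W hW hne
  obtain ⟨n, w, h⟩ := reach_point hz (hd z hzW)
  -- the open set of the translated `n`-th images of the points of `W`
  have hSopen : IsOpen {q : Pl | (FF ^ n)⁻¹ • (q + iv w) ∈ W} := by
    refine hW.preimage ?_
    exact (continuous_smul_pl _).comp (continuous_id.add continuous_const)
  have hSU : ∀ q ∈ {q : Pl | (FF ^ n)⁻¹ • (q + iv w) ∈ W}, q ∉ Us := by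
    intro q hq hqU
    apply hd _ hq
    rw [← FF_pow_smul_mem_Us n, smul_inv_smul, Us_add_iv]
    exact hqU
  have hpS : FF ^ n • z - iv w ∈ {q : Pl | (FF ^ n)⁻¹ • (q + iv w) ∈ W} := by
    show (FF ^ n)⁻¹ • (FF ^ n • z - iv w + iv w) ∈ W
    rw [sub_add_cancel, inv_smul_smul]
    exact hzW
  rcases h with h | h
  · obtain ⟨l, C, hl, hC⟩ := REA_hseg
      (A := {q : Pl | (FF ^ n)⁻¹ • (q + iv w) ∈ W} ∩ Ioo (0:ℝ) (1/10) ×ˢ Ioo (0:ℝ) (1/10))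
      (hSopen.inter (isOpen_Ioo.prod isOpen_Ioo)) (fun q hq => hSU q hq.1)
      (fun q hq => ⟨hq.2.1.1.le, hq.2.1.2.le, hq.2.2.1, hq.2.2.2⟩) ⟨hpS, h⟩
    exact ⟨l, C, hl, Or.inl hC⟩
  · obtain ⟨l, C, hl, hC⟩ := REA_vseg
      (A := {q : Pl | (FF ^ n)⁻¹ • (q + iv w) ∈ W} ∩ Ioo (1/10:ℝ) 1 ×ˢ Ioo (1/10:ℝ) 1)
      (hSopen.inter (isOpen_Ioo.prod isOpen_Ioo)) (fun q hq => hSU q hq.1)
      (fun q hq => ⟨hq.2.1.1, hq.2.1.2, hq.2.2.1, hq.2.2.2.le⟩) ⟨hpS, h⟩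
    exact ⟨l, C, hl, Or.inr hC⟩

end H45T
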