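import Pool.Agent.Lib.H45Torus.VMC

/-!
# Chunk VM: the step `MSet → NSet` or `MSet → VSet`
-/

namespace H45T

open Filter Topology Set

lemma VM_pre {D : Set Pl} (hD : IsPreconnected D) (w : ℤ × ℤ) :
    IsPreconnected ((fun z : Pl => (rc Hm)⁻¹ • z - iv w) '' D) :=
  hD.image _ ((continuous_smul_pl _).sub continuous_const).continuousOn

lemma VM_class {D : Set Pl} (h2 : ∀ z ∈ D, (rc Hm)⁻¹ • z ∉ Us)
    (h3 : ∀ z ∈ D, 0 < z.2 ∧ z.2 < 9/10) {z : Pl} (hz : z ∈ D) (m : ℤ)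
    (ha : (m : ℝ) ≤ z.1) (hb : z.1 < m + 1) :
    z.1 - m ≤ 1/10 ∨
      (((2/10 < z.1 - m ∧ z.1 - m < 3/10) ∨ (3/10 < z.1 - m ∧ z.1 - m < 4/10)) ∧
        9/10 < z.2 - th (z.1 - m) ∧ z.2 - th (z.1 - m) ≤ 1) ∨
      (((6/10 < z.1 - m ∧ z.1 - m < 7/10) ∨ (7/10 < z.1 - m ∧ z.1 - m < 8/10)) ∧
        -(1/10) < z.2 - th (z.1 - m) ∧ z.2 - th (z.1 - m) ≤ 0) := by
  refine V_class (n := m) (t := z.1 - m) (y := z.2) (by linarith) (by linarith) (h3 z hz).1
    (h3 z hz).2 ?_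
  have : (((m : ℝ) + (z.1 - m), z.2) : Pl) = z := by
    ext
    · show (m : ℝ) + (z.1 - m) = z.1
      ring
    · rfl
  rw [this]
  exact h2 z hz

lemma VM_th (x : ℝ) (m : ℤ) : th x = th (x - m) := by
  have := th_add_int (x - m) m
  rwa [sub_add_cancel] at this

/-- The final step in the four nearly vertical cases. -/
lemma VM_vset {l : ℝ} {D : Set Pl} (h : MSet l D) (w : ℤ × ℤ) (c e : ℝ) (hc : |c| = 90)
    (hform : ∀ z ∈ D, bb (z.2 - th z.1) - w.2 = 9 * z.2 + c * z.1 + e)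
    (hbox : ∀ z ∈ D, 1/10 < z.1 - w.1 ∧ z.1 - w.1 < 1 ∧ 1/10 < 9 * z.2 + c * z.1 + e ∧
      9 * z.2 + c * z.1 + e ≤ 1) :
    VSet l ((fun z : Pl => (rc Hm)⁻¹ • z - iv w) '' D) := by
  obtain ⟨h1, h2, h3, h4, z₁, hz₁, z₂, hz₂, hl⟩ := h
  have hval : ∀ z ∈ D, (rc Hm)⁻¹ • z - iv w = (z.1 - w.1, 9 * z.2 + c * z.1 + e) := by
    intro z hz
    rw [V_smul]
    ext
    · simp
    · simpa using hform z hz
  have key : ∀ z ∈ D, ∀ z' ∈ D, 89 * |z.1 - z'.1| ≤
      |(9 * z.2 + c * z.1 + e) - (9 * z'.2 + c * z'.1 + e)| := by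
    intro z hz z' hz'
    have h5 := h4 z hz z' hz'
    have h6 : c * (z.1 - z'.1) =
        ((9 * z.2 + c * z.1 + e) - (9 * z'.2 + c * z'.1 + e)) - 9 * (z.2 - z'.2) := by ring
    have h7 : |c * (z.1 - z'.1)| = 90 * |z.1 - z'.1| := by rw [abs_mul, hc]
    have h8 : |9 * (z.2 - z'.2)| = 9 * |z.2 - z'.2| := by
      rw [abs_mul, abs_of_pos (by norm_num : (0:ℝ) < 9)]
    have h9 := abs_sub ((9 * z.2 + c * z.1 + e) - (9 * z'.2 + c * z'.1 + e)) (9 * (z.2 - z'.2))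
    rw [← h6, h7, h8] at h9
    linarith
  refine ⟨VM_pre h1 w, ?_, ?_, ?_, ?_⟩
  · rintro _ ⟨z, hz, rfl⟩
    show (rc Hm)⁻¹ • z - iv w ∉ Us
    rw [Us_sub_iv]
    exact h2 z hz
  · rintro _ ⟨z, hz, rfl⟩
    simp only [hval z hz]
    exact hbox z hz
  · rintro _ ⟨z, hz, rfl⟩ _ ⟨z', hz', rfl⟩
    simp only [hval z hz, hval z' hz']
    have h5 := key z hz z' hz'
    rw [sub_sub_sub_cancel_right]
    have h6 := abs_nonneg (z.1 - z'.1)
    linarith
  · refine ⟨_, ⟨z₁, hz₁, rfl⟩, _, ⟨z₂, hz₂, rfl⟩, ?_⟩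
    simp only [hval z₁ hz₁, hval z₂ hz₂]
    have h5 := key z₁ hz₁ z₂ hz₂
    have h6 := abs_nonneg (z₁.1 - z₂.1)
    linarith

/-- The final step in the nearly horizontal case. -/
lemma VM_nset {l : ℝ} {D : Set Pl} (h : MSet l D) (n : ℤ)
    (hbox : ∀ z ∈ D, 0 ≤ z.1 - n ∧ z.1 - n ≤ 1/10) :
    NSet l ((fun z : Pl => (rc Hm)⁻¹ • z - iv (n, 0)) '' D) := by
  obtain ⟨h1, h2, h3, h4, z₁, hz₁, z₂, hz₂, hl⟩ := h
  have hval : ∀ z ∈ D, (rc Hm)⁻¹ • z - iv (n, 0) = (z.1 - n, z.2 / 9) := by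
    intro z hz
    rw [V_smul]
    ext
    · simp
    · have h5 := hbox z hz
      have h6 := h3 z hz
      simp only [Prod.snd_sub, iv_snd, Int.cast_zero, sub_zero]
      rw [VM_th z.1 n, th_near (by linarith [h5.1]) (by linarith [h5.2]), sub_zero,
        bb_lo h6.1.le h6.2.le]
  refine ⟨VM_pre h1 _, ?_, ?_, ?_, ?_⟩
  · rintro _ ⟨z, hz, rfl⟩
    show (rc Hm)⁻¹ • z - iv (n, 0) ∉ Us
    rw [Us_sub_iv]
    exact h2 z hz
  · rintro _ ⟨z, hz, rfl⟩
    simp only [hval z hz]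
    have h5 := hbox z hz
    have h6 := h3 z hz
    refine ⟨h5.1, h5.2, by linarith [h6.1], by linarith [h6.2]⟩
  · rintro _ ⟨z, hz, rfl⟩ _ ⟨z', hz', rfl⟩
    simp only [hval z hz, hval z' hz']
    have h5 := h4 z hz z' hz'
    rw [sub_sub_sub_cancel_right, ← sub_div, abs_div, abs_of_pos (by norm_num : (0:ℝ) < 9)]
    have h6 := abs_nonneg (z.1 - z'.1)
    linarith
  · refine ⟨_, ⟨z₁, hz₁, rfl⟩, _, ⟨z₂, hz₂, rfl⟩, ?_⟩
    simp only [hval z₁ hz₁, hval z₂ hz₂]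
    rw [sub_sub_sub_cancel_right]
    exact hl

/-- The step for an `MSet l`, `D`.  Fix `z₀ ∈ D`, `n = ⌊z₀.1⌋`, `t₀ = Int.fract z₀.1`.  By
`V_class` (every `z ∈ D` is `(⌊z.1⌋ + fract z.1, z.2)`), the first coordinates of the points of `D`
avoid the values `n - 1/20`, `n + 3/20`, `n + 3/10`, `n + 1/2`, `n + 7/10`, `n + 9/10`; so by
`sep_of_preconnected` (with `f z = z.1`) all the points of `D` have the same floor `n` and a
fractional part in the same of the intervals `[0,1/10]`, `(2/10,3/10)`, `(3/10,4/10)`,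
`(6/10,7/10)`, `(7/10,8/10)`.

First interval: `C' = {V z - iv (n, 0)}`, `V z = (z.1, z.2/9)` (`th_near`, `bb_lo`):
an `NSet l`.  Second and third: `C' = {V z - iv (n, 0)}`, `V z = (z.1, 9 (z.2 - th t) - 8)`
(`bb_hi`), with `th t = 2 - 10 t` or `10 t - 4`: a `VSet l` since `Δy' = 9 Δy ± 90 Δx`,
`|Δy'| ≥ 90 |Δx| - |Δx| = 89 |Δx|`.  Fourth and fifth: `C' = {V z - iv (n, -1)}`,
`V z = (z.1, 9 (z.2 - th t))` (`bb_neg`), with `th t = 10 t - 6` or `8 - 10 t`: a `VSet l`.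
`C' ∩ Us = ∅` by `Us_sub_iv`; `C'` is preconnected as a continuous image. -/
theorem MSet_step {l : ℝ} {D : Set Pl} (h : MSet l D) : ∃ C : Set Pl, NSet l C ∨ VSet l C := by
  have hM := h
  obtain ⟨h1, h2, h3, h4, z₀, hz₀, -, -, -⟩ := h
  set n : ℤ := ⌊z₀.1⌋ with hn
  have ha₀ : (n : ℝ) ≤ z₀.1 := Int.floor_le _
  have hb₀ : z₀.1 < n + 1 := Int.lt_floor_add_one _
  -- separation
  have sep : ∀ c : ℝ, (∀ z ∈ D, z.1 ≠ c) → (∀ z ∈ D, z.1 < c) ∨ (∀ z ∈ D, c < z.1) :=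
    fun c hc => sep_of_preconnected h1 continuous_fst c hc
  -- avoided values
  have av0 : ∀ z ∈ D, z.1 ≠ n - 1/20 := by
    intro z hz hzc
    have hcl := VM_class h2 h3 hz (n - 1) (by push_cast; linarith) (by push_cast; linarith)
    push_cast at hcl
    rw [hzc] at hcl
    rcases hcl with hh | ⟨⟨hh1, hh2⟩ | ⟨hh1, hh2⟩, -⟩ | ⟨⟨hh1, hh2⟩ | ⟨hh1, hh2⟩, -⟩ <;> linarith
  have av : ∀ r : ℝ, 0 ≤ r → r < 1 → 1/10 < r → (r ≤ 2/10 ∨ r = 3/10 ∨ (4/10 ≤ r ∧ r ≤ 6/10) ∨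
      r = 7/10 ∨ 8/10 ≤ r) → ∀ z ∈ D, z.1 ≠ n + r := by
    intro r hr0 hr1 hr2 hr3 z hz hzc
    have hcl := VM_class h2 h3 hz n (by linarith) (by linarith)
    rw [hzc, add_sub_cancel_left] at hcl
    rcases hcl with hh | ⟨hh | hh, -⟩ | ⟨hh | hh, -⟩
    · linarith
    · rcases hr3 with g | g | g | g | g
      · linarith [hh.1]
      · linarith [hh.2]
      · linarith [hh.2, g.1]
      · linarith [hh.2]
      · linarith [hh.2]
    · rcases hr3 with g | g | g | g | g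
      · linarith [hh.1]
      · linarith [hh.1]
      · linarith [hh.2, g.1]
      · linarith [hh.2]
      · linarith [hh.2]
    · rcases hr3 with g | g | g | g | g
      · linarith [hh.1]
      · linarith [hh.1]
      · linarith [hh.1, g.2]
      · linarith [hh.2]
      · linarith [hh.2]
    · rcases hr3 with g | g | g | g | g
      · linarith [hh.1]
      · linarith [hh.1]
      · linarith [hh.1, g.2]
      · linarith [hh.1]
      · linarith [hh.2]
  have s0 := sep _ av0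
  have s1 := sep _ (av (3/20) (by norm_num) (by norm_num) (by norm_num) (Or.inl (by norm_num)))
  have s2 := sep _ (av (3/10) (by norm_num) (by norm_num) (by norm_num) (Or.inr (Or.inl rfl)))
  have s3 := sep _ (av (1/2) (by norm_num) (by norm_num) (by norm_num)
    (Or.inr (Or.inr (Or.inl ⟨by norm_num, by norm_num⟩))))
  have s4 := sep _ (av (7/10) (by norm_num) (by norm_num) (by norm_num)
    (Or.inr (Or.inr (Or.inr (Or.inl rfl)))))
  have s5 := sep _ (av (9/10) (by norm_num) (by norm_num) (by norm_num)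
    (Or.inr (Or.inr (Or.inr (Or.inr (by norm_num))))))
  have up : ∀ c : ℝ, ((∀ z ∈ D, z.1 < c) ∨ (∀ z ∈ D, c < z.1)) → z₀.1 < c → ∀ z ∈ D, z.1 < c := by
    intro c hs hc
    rcases hs with hs | hs
    · exact hs
    · exact absurd (hs z₀ hz₀) (not_lt.2 hc.le)
  have dn : ∀ c : ℝ, ((∀ z ∈ D, z.1 < c) ∨ (∀ z ∈ D, c < z.1)) → c < z₀.1 → ∀ z ∈ D, c < z.1 := by
    intro c hs hc
    rcases hs with hs | hs
    · exact absurd (hs z₀ hz₀) (not_lt.2 hc.le)
    · exact hs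
  rcases VM_class h2 h3 hz₀ n ha₀ hb₀ with hh | ⟨hh | hh, -⟩ | ⟨hh | hh, -⟩
  · -- nearly horizontal case
    have l0 := dn _ s0 (by linarith)
    have u0 := up _ s1 (by linarith)
    refine ⟨_, Or.inl (VM_nset hM n fun z hz => ?_)⟩
    have hl := l0 z hz
    have hu := u0 z hz
    have hge : (n : ℝ) ≤ z.1 := by
      by_contra hlt
      push Not at hlt
      have hcl := VM_class h2 h3 hz (n - 1) (by push_cast; linarith) (by push_cast; linarith)
      push_cast at hcl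
      rcases hcl with hh | ⟨⟨hh1, hh2⟩ | ⟨hh1, hh2⟩, -⟩ | ⟨⟨hh1, hh2⟩ | ⟨hh1, hh2⟩, -⟩ <;> linarith
    refine ⟨by linarith, ?_⟩
    rcases VM_class h2 h3 hz n hge (by linarith) with
      hh | ⟨⟨hh1, hh2⟩ | ⟨hh1, hh2⟩, -⟩ | ⟨⟨hh1, hh2⟩ | ⟨hh1, hh2⟩, -⟩ <;> linarith
  · have l0 := dn _ s1 (by linarith [hh.1])
    have u0 := up _ s2 (by linarith [hh.2])
    have hall : ∀ z ∈ D, 2/10 < z.1 - n ∧ z.1 - n < 3/10 ∧ 9/10 < z.2 - th (z.1 - n) ∧
        z.2 - th (z.1 - n) ≤ 1 := by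
      intro z hz
      have hl := l0 z hz
      have hu := u0 z hz
      rcases VM_class h2 h3 hz n (by linarith) (by linarith) with
        hh | ⟨hh | hh, h5⟩ | ⟨hh | hh, -⟩
      · exfalso; linarith
      · exact ⟨hh.1, hh.2, h5.1, h5.2⟩
      · exfalso; linarith [hh.1]
      · exfalso; linarith [hh.1]
      · exfalso; linarith [hh.1]
    refine ⟨_, Or.inr (VM_vset hM (n, 0) 90 (-90 * n - 26) (by norm_num) ?_ ?_)⟩
    · intro z hz
      obtain ⟨g1, g2, g3, g4⟩ := hall z hz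
      rw [VM_th z.1 n, bb_hi g3.le g4, th_r1 g1.le g2.le]
      simp only [Int.cast_zero]
      ring
    · intro z hz
      obtain ⟨g1, g2, g3, g4⟩ := hall z hz
      rw [th_r1 g1.le g2.le] at g3 g4
      simp only
      refine ⟨by linarith, by linarith, by linarith, by linarith⟩
  · have l0 := dn _ s2 (by linarith [hh.1])
    have u0 := up _ s3 (by linarith [hh.2])
    have hall : ∀ z ∈ D, 3/10 < z.1 - n ∧ z.1 - n < 4/10 ∧ 9/10 < z.2 - th (z.1 - n) ∧
        z.2 - th (z.1 - n) ≤ 1 := by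
      intro z hz
      have hl := l0 z hz
      have hu := u0 z hz
      rcases VM_class h2 h3 hz n (by linarith) (by linarith) with
        hh | ⟨hh | hh, h5⟩ | ⟨hh | hh, -⟩
      · exfalso; linarith
      · exfalso; linarith [hh.2]
      · exact ⟨hh.1, hh.2, h5.1, h5.2⟩
      · exfalso; linarith [hh.1]
      · exfalso; linarith [hh.1]
    refine ⟨_, Or.inr (VM_vset hM (n, 0) (-90) (90 * n + 28) (by norm_num) ?_ ?_)⟩
    · intro z hz
      obtain ⟨g1, g2, g3, g4⟩ := hall z hz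
      rw [VM_th z.1 n, bb_hi g3.le g4, th_r2 g1.le g2.le]
      simp only [Int.cast_zero]
      ring
    · intro z hz
      obtain ⟨g1, g2, g3, g4⟩ := hall z hz
      rw [th_r2 g1.le g2.le] at g3 g4
      simp only
      refine ⟨by linarith, by linarith, by linarith, by linarith⟩
  · have l0 := dn _ s3 (by linarith [hh.1])
    have u0 := up _ s4 (by linarith [hh.2])
    have hall : ∀ z ∈ D, 6/10 < z.1 - n ∧ z.1 - n < 7/10 ∧ -(1/10) < z.2 - th (z.1 - n) ∧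
        z.2 - th (z.1 - n) ≤ 0 := by
      intro z hz
      have hl := l0 z hz
      have hu := u0 z hz
      rcases VM_class h2 h3 hz n (by linarith) (by linarith) with
        hh | ⟨hh | hh, -⟩ | ⟨hh | hh, h5⟩
      · exfalso; linarith
      · exfalso; linarith [hh.2]
      · exfalso; linarith [hh.2]
      · exact ⟨hh.1, hh.2, h5.1, h5.2⟩
      · exfalso; linarith [hh.1]
    refine ⟨_, Or.inr (VM_vset hM (n, -1) (-90) (90 * n + 55) (by norm_num) ?_ ?_)⟩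
    · intro z hz
      obtain ⟨g1, g2, g3, g4⟩ := hall z hz
      rw [VM_th z.1 n, bb_neg g3.le g4, th_r3 g1.le g2.le]
      push_cast
      ring
    · intro z hz
      obtain ⟨g1, g2, g3, g4⟩ := hall z hz
      rw [th_r3 g1.le g2.le] at g3 g4
      simp only
      refine ⟨by linarith, by linarith, by linarith, by linarith⟩
  · have l0 := dn _ s4 (by linarith [hh.1])
    have u0 := up _ s5 (by linarith [hh.2])
    have hall : ∀ z ∈ D, 7/10 < z.1 - n ∧ z.1 - n < 8/10 ∧ -(1/10) < z.2 - th (z.1 - n) ∧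
        z.2 - th (z.1 - n) ≤ 0 := by
      intro z hz
      have hl := l0 z hz
      have hu := u0 z hz
      rcases VM_class h2 h3 hz n (by linarith) (by linarith) with
        hh | ⟨hh | hh, -⟩ | ⟨hh | hh, h5⟩
      · exfalso; linarith
      · exfalso; linarith [hh.2]
      · exfalso; linarith [hh.2]
      · exfalso; linarith [hh.2]
      · exact ⟨hh.1, hh.2, h5.1, h5.2⟩
    refine ⟨_, Or.inr (VM_vset hM (n, -1) 90 (-90 * n - 71) (by norm_num) ?_ ?_)⟩
    · intro z hz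
      obtain ⟨g1, g2, g3, g4⟩ := hall z hz
      rw [VM_th z.1 n, bb_neg g3.le g4, th_r4 g1.le g2.le]
      push_cast
      ring
    · intro z hz
      obtain ⟨g1, g2, g3, g4⟩ := hall z hz
      rw [th_r4 g1.le g2.le] at g3 g4
      simp only
      refine ⟨by linarith, by linarith, by linarith, by linarith⟩

end H45T
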