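import Pool.Agent.Lib.H45Torus.HN
import Pool.Agent.Lib.H45Torus.HV
import Pool.Agent.Lib.H45Torus.VM
import Pool.Agent.Lib.H45Torus.REA

/-!
# Chunk DEN: `Us` and `Uu` are dense
-/

namespace H45T

open Filter Topology Set

/-- One step: the width is multiplied by at least `9`. -/
lemma width_step {l : ℝ} {C : Set Pl} (h : NSet l C ∨ VSet l C) :
    ∃ C' : Set Pl, NSet (9 * l) C' ∨ VSet (9 * l) C' := by
  rcases h with h | h
  · exact MSet_step (NSet_step h)
  · rcases VSet_step h with h' | h'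
    · exact ⟨_, Or.inr h'⟩
    · exact MSet_step h'

lemma width_pow {l : ℝ} {C : Set Pl} (h : NSet l C ∨ VSet l C) (n : ℕ) :
    ∃ C' : Set Pl, NSet (9 ^ n * l) C' ∨ VSet (9 ^ n * l) C' := by
  induction n with
  | zero => exact ⟨C, by simpa using h⟩
  | succ n ih =>
    obtain ⟨C', h'⟩ := ih
    obtain ⟨C'', h''⟩ := width_step h'
    exact ⟨C'', by rw [pow_succ]; convert h'' using 2 <;> ring⟩

lemma width_le {l : ℝ} {C : Set Pl} (h : NSet l C ∨ VSet l C) : l ≤ 1 := by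
  rcases h with ⟨_, _, hb, _, z, hz, z', hz', hl⟩ | ⟨_, _, hb, _, z, hz, z', hz', hl⟩
  · have h1 := hb z hz
    have h2 := hb z' hz'
    refine hl.trans ?_
    rw [abs_le]; constructor <;> linarith [h1.1, h1.2.1, h2.1, h2.2.1]
  · have h1 := hb z hz
    have h2 := hb z' hz'
    refine hl.trans ?_
    rw [abs_le]; constructor <;> linarith [h1.2.2.1, h1.2.2.2, h2.2.2.1, h2.2.2.2]

theorem dense_Us : Dense Us := by
  rw [dense_iff_inter_open]
  intro W hW hne
  by_contra hcon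
  have hd : ∀ z ∈ W, z ∉ Us := fun z hz hz' => hcon ⟨z, hz, hz'⟩
  obtain ⟨l, C, hl, h⟩ := reach hW hne hd
  obtain ⟨n, hn⟩ := pow_unbounded_of_one_lt (1 / l) (by norm_num : (1:ℝ) < 9)
  obtain ⟨C', h'⟩ := width_pow h n
  have h1 := width_le h'
  rw [div_lt_iff₀ hl] at hn
  linarith

theorem dense_Uu : Dense Uu := by
  have h : Uu = (Homeomorph.prodComm ℝ ℝ) ⁻¹' Us := rfl
  rw [h]
  exact dense_Us.preimage (Homeomorph.prodComm ℝ ℝ).isOpenMap

end H45T
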