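import Mathlib

/-!
# MP_03212a_an : the definitions of the question

The plane is `ℝ × ℝ`, the two-torus is `T2 = UnitAddCircle × UnitAddCircle` (each factor is
`ℝ / ℤ`), with covering projection `proj`.  These are the definitions used in the final statement.
-/

namespace H45T

open Filter Topology Set

/-- The plane. -/
abbrev Pl : Type := ℝ × ℝ

/-- The two-torus `ℝ² / ℤ²`. -/
abbrev T2 : Type := UnitAddCircle × UnitAddCircle

/-- The covering projection. -/
def proj (z : Pl) : T2 := ((z.1 : UnitAddCircle), (z.2 : UnitAddCircle))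

/-- `f` is isotopic to the identity: there is a jointly continuous path of homeomorphisms from the
identity to `f`. -/
def IsotopicToId (f : T2 ≃ₜ T2) : Prop :=
  ∃ h : unitInterval → (T2 ≃ₜ T2), Continuous (fun p : unitInterval × T2 => h p.1 p.2) ∧
    h 0 = Homeomorph.refl T2 ∧ h 1 = f

/-- Topological transitivity. -/
def Transitive (f : T2 ≃ₜ T2) : Prop :=
  ∀ U V : Set T2, IsOpen U → IsOpen V → U.Nonempty → V.Nonempty →
    ∃ n : ℕ, 1 ≤ n ∧ ((f^[n] '' U) ∩ V).Nonempty

/-- `F` is a lift of `f`. -/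
def IsLift (F : Pl ≃ₜ Pl) (f : T2 ≃ₜ T2) : Prop := ∀ z, proj (F z) = f (proj z)

/-- The rotation set (Misiurewicz and Ziemian): all limits of `(F^{n_i}(z_i) - z_i)/n_i`,
`n_i → ∞`. -/
def rotationSet (F : Pl ≃ₜ Pl) : Set Pl :=
  {v | ∃ (n : ℕ → ℕ) (z : ℕ → Pl), Tendsto n atTop atTop ∧
    Tendsto (fun i => ((n i : ℝ))⁻¹ • (F^[n i] (z i) - z i)) atTop (𝓝 v)}

/-- The periodic points of `f`. -/
def periodicSet (f : T2 ≃ₜ T2) : Set T2 := {z | ∃ q : ℕ, 1 ≤ q ∧ f^[q] z = z}

end H45T
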