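import Pool.Agent.Lib.H45Torus.US

/-!
# Chunk EDG: the frontier edge of the sector is not in `Uu`
-/

namespace H45T

open Filter Topology Set

/-- On the horizontal axis near an integer from the left: the orbit stays on the axis.
`FF_sw` (`-9/10 ≤ x ≤ 0`) gives `FF (x, 0) = (x/9, 0)`: all iterates have second coordinate `0`, so
none is in a translate of `Tri` (`not_mem_Tri_of_int_snd`); with the translate by `iv w`. -/
lemma row_not_Us {x : ℝ} (h1 : -(9/10) ≤ x) (h2 : x ≤ 0) (w : ℤ × ℤ) :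
    ((x, 0) : Pl) + iv w ∉ Us := by
  rintro ⟨n, v, hn⟩
  have key : ∀ n : ℕ, ∃ y : ℝ, -(9/10) ≤ y ∧ y ≤ 0 ∧ FF ^ n • ((x, 0) : Pl) = (y, 0) := by
    intro n
    induction n with
    | zero => exact ⟨x, h1, h2, by simp⟩
    | succ n ih =>
      obtain ⟨y, hy1, hy2, hy⟩ := ih
      refine ⟨y / 9, by linarith, by linarith, ?_⟩
      rw [pow_succ', mul_smul, hy, FF_sw hy1 hy2 (by norm_num) le_rfl]
      simp
  obtain ⟨y, -, -, hy⟩ := key n
  rw [smul_add_iv, hy] at hn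
  refine not_mem_Tri_of_int_snd (n := w.2) ?_ hn
  simp

/-- By `FF_edge`, `FF • z = (x', 0)` with `x' = 1/5 - z.2/10 ∈ [1/5, 2/9]`, and
`(x', 0) = (x' - 1, 0) + iv (1, 0)` with `x' - 1 ∈ [-9/10, 0]`: `row_not_Us` and
`FF_smul_mem_Us`. -/
lemma edge_not_Us {z : Pl} (h1 : 0 ≤ z.1) (h2 : z.2 ≤ 0) (h3 : GG z.swap = 0) : z ∉ Us := by
  intro hz
  obtain ⟨h4, h5⟩ := FF_edge h1 h2 h3
  have h6 := FF_smul_mem_Us.2 hz
  rw [h4] at h6
  have h7 : ((1/5 - z.2/10, 0) : Pl) = ((1/5 - z.2/10 - 1, 0) : Pl) + iv (1, 0) := by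
    ext <;> simp
  rw [h7] at h6
  exact row_not_Us (by linarith) (by linarith) _ h6

/-- Mirror image of `edge_not_Us`. -/
lemma edge_not_Uu {z : Pl} (h1 : z.1 ≤ 0) (h2 : 0 ≤ z.2) (h3 : GG z = 0) : z ∉ Uu := by
  intro hz
  exact edge_not_Us (z := z.swap) h2 h1 (by rw [Prod.swap_swap]; exact h3) hz

/-- The level curves `GG (9^k z) = 0` in the (closed) upper left quadrant are not in `Uu`:
`u = 9^k • z` is on the edge, in the box of `FF_tri`, as well as all `9^j • z`, `j ≤ k` (box: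
from `GG u = 0`, `u.1 ≤ 0 ≤ u.2`: `u.1 ≥ -2/9`, `u.2 ≤ 2/81`), so `FF ^ k • u = z`;
`FF_smul_mem_Uu`. -/
lemma level_not_Uu {z : Pl} (k : ℕ) (h1 : z.1 ≤ 0) (h2 : 0 ≤ z.2)
    (h3 : GG (((9:ℝ) ^ k) • z) = 0) : z ∉ Uu := by
  induction k generalizing z with
  | zero =>
    rw [pow_zero, one_smul] at h3
    exact edge_not_Uu h1 h2 h3
  | succ k ih =>
    have h4 : (9:ℝ) ^ (k + 1) • z = (9:ℝ) ^ k • ((9:ℝ) • z) := by rw [smul_smul, pow_succ]
    have hz' : (9:ℝ) • z ∉ Uu := by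
      refine ih ?_ ?_ (by rw [← h4]; exact h3)
      · simp only [Prod.smul_fst, smul_eq_mul]; linarith
      · simp only [Prod.smul_snd, smul_eq_mul]; linarith
    have h5 : (1:ℝ) ≤ (9:ℝ) ^ k := one_le_pow₀ (by norm_num)
    have hA : GG (((9:ℝ) ^ (k + 1)) • z) ≤ 1/5 - ((9:ℝ) ^ (k + 1) * z.1)/10
        - 9 * ((9:ℝ) ^ (k + 1) * z.2) := min_le_left _ _
    have hB : GG (((9:ℝ) ^ (k + 1)) • z) ≤ 11/5 + 99/10 * ((9:ℝ) ^ (k + 1) * z.1)
        - 9 * ((9:ℝ) ^ (k + 1) * z.2) := min_le_right _ _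
    rw [h3] at hA hB
    have e1 : (9:ℝ) ^ (k + 1) * z.1 = (9:ℝ) ^ k * (9 * z.1) := by ring
    have e2 : (9:ℝ) ^ (k + 1) * z.2 = (9:ℝ) ^ k * (9 * z.2) := by ring
    rw [e1, e2] at hA hB
    have h6 : (9:ℝ) ^ k * (9 * z.1) ≤ 9 * z.1 := by nlinarith
    have h7 : 9 * z.2 ≤ (9:ℝ) ^ k * (9 * z.2) := by nlinarith
    have h8 : FF • ((9:ℝ) • z) = z := by
      rw [FF_tri, smul_smul]
      · norm_num
      · simp only [Prod.smul_fst, smul_eq_mul]; linarith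
      · simp only [Prod.smul_fst, smul_eq_mul]; linarith
      · simp only [Prod.smul_snd, smul_eq_mul]; linarith
      · simp only [Prod.smul_snd, smul_eq_mul]; linarith
    intro hz
    apply hz'
    rw [← FF_smul_mem_Uu, h8]
    exact hz

/-- The origin (and its translates) are not in `Uu`: all iterates are integer points. -/
lemma zero_not_Uu : (0 : Pl) ∉ Uu := by
  intro h
  have h1 : ((0 : Pl)).swap ∈ Us := h
  have h2 := row_not_Us (x := 0) (by norm_num) le_rfl 0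
  apply h2
  have h3 : (((0:ℝ), 0) : Pl) + iv 0 = (0 : Pl).swap := by simp
  rw [h3]
  exact h1

end H45T
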