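import Pool.Agent.Lib.H45Torus.Basic

/-!
# Chunk EV: joint continuity of the action
-/

namespace H45T

open Filter Topology Set

/-- The action `EE × Pl → Pl` is jointly continuous: `dist (f' • z') (f • z) ≤
dist (f' • z') (f • z') + dist (f • z') (f • z) ≤ dist f' f + dist (f • z') (f • z)`. -/
theorem continuousSMul_EE : ContinuousSMul EE Pl := by
  refine ⟨continuous_iff_continuousAt.2 ?_⟩
  rintro ⟨f, z⟩
  rw [ContinuousAt, tendsto_iff_dist_tendsto_zero]
  have h1 : Tendsto (fun p : EE × Pl => dist p.1 f + dist (f • p.2) (f • z)) (𝓝 (f, z)) (𝓝 0) := by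
    have h2 : Continuous (fun p : EE × Pl => dist p.1 f + dist (f • p.2) (f • z)) :=
      (continuous_fst.dist continuous_const).add
        (((continuous_smul_pl f).comp continuous_snd).dist continuous_const)
    have h3 := h2.tendsto (f, z)
    simpa using h3
  refine squeeze_zero (fun _ => dist_nonneg) (fun p => ?_) h1
  exact (dist_triangle _ (f • p.2) _).trans (add_le_add (dist_smul_le _ _ _) le_rfl)

instance : ContinuousSMul EE Pl := continuousSMul_EE

end H45T
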