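import Pool.Agent.Lib.H45Torus.Maps

/-!
# Chunk FO: explicit formulas for `FF` near the fixed point `0` and on the frontier of the sector
-/

namespace H45T

open Filter Topology Set

/-- Near the (closed) sector `FF` is the homothety of ratio `1/9`: here `aa x = x/9` (`aa_neg`),
`th y = 0` (`th_near`), `th (x/9) = 0`, `bb y = y/9` (`bb_lo`). -/
lemma FF_tri {z : Pl} (h1 : -(2/9) ≤ z.1) (h2 : z.1 ≤ 0) (h3 : 0 ≤ z.2) (h4 : z.2 ≤ 1/10) :
    FF • z = ((1/9 : ℝ)) • z := by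
  obtain ⟨x, y⟩ := z
  simp only at h1 h2 h3 h4
  have e1 : aa x = x / 9 := aa_neg (by linarith) h2
  have e2 : th y = 0 := th_zero1 h3 (by linarith)
  have e3 : th (x / 9) = 0 := th_near (by linarith) (by linarith)
  have e4 : bb y = y / 9 := bb_lo h3 (by linarith)
  rw [FF_smul, e1, e2, add_zero, e3, sub_zero, e4]
  ext
  · simp; ring
  · simp; ring

/-- Upper right quadrant. -/
lemma FF_ne {x y : ℝ} (h1 : 0 ≤ x) (h2 : x ≤ 1/45) (h3 : 0 ≤ y) (h4 : y ≤ 1/10) :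
    FF • ((x, y) : Pl) = (9 * x, y / 9) := by
  have e1 : aa x = 9 * x := aa_lo h1 (by linarith)
  have e2 : th y = 0 := th_zero1 h3 (by linarith)
  have e3 : th (9 * x) = 0 := th_zero1 (by linarith) (by linarith)
  have e4 : bb y = y / 9 := bb_lo h3 (by linarith)
  rw [FF_smul, e1, e2, add_zero, e3, sub_zero, e4]

/-- Lower left quadrant. -/
lemma FF_sw {x y : ℝ} (h1 : -(9/10) ≤ x) (h2 : x ≤ 0) (h3 : -(1/10) ≤ y) (h4 : y ≤ 0) :
    FF • ((x, y) : Pl) = (x / 9, 9 * y) := by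
  have e1 : aa x = x / 9 := aa_neg h1 h2
  have e2 : th y = 0 := th_near (by linarith) (by linarith)
  have e3 : th (x / 9) = 0 := th_near (by linarith) (by linarith)
  have e4 : bb y = 9 * y := bb_neg h3 h4
  rw [FF_smul, e1, e2, add_zero, e3, sub_zero, e4]

/-- The window used to pass from the upper right quadrant to the lower left one: if
`x' = 9 x ∈ [6/10, 62/100]`, `0 ≤ y` and `v = (10 x' - 6) - y ∈ [0, 1/10]` then
`FF (x, y) = (x', -9 v)`.  Indeed `th y = 0`, `aa x = 9 x`, `th x' = 10 x' - 6 = y + v` and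
`bb (y - (y + v)) = bb (-v) = -9 v` (`bb_neg`). -/
lemma FF_window {x y v : ℝ} (h1 : 6/10 ≤ 9 * x) (h2 : 9 * x ≤ 62/100) (h3 : 0 ≤ y)
    (h4 : y ≤ 1/10) (h5 : 0 ≤ v) (h6 : v ≤ 1/10) (h7 : 10 * (9 * x) - 6 = y + v) :
    FF • ((x, y) : Pl) = (9 * x, -(9 * v)) := by
  have e1 : aa x = 9 * x := aa_lo (by linarith) (by linarith)
  have e2 : th y = 0 := th_zero1 h3 (by linarith)
  have e3 : th (9 * x) = 10 * (9 * x) - 6 := th_r3 (by linarith) (by linarith)
  have e4 : bb (-v) = 9 * (-v) := bb_neg (by linarith) (by linarith)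
  rw [FF_smul, e1, e2, add_zero, e3, h7, show y - (y + v) = -v by ring, e4]
  ext
  · rfl
  · simp

/-- `x ∈ [1/10,1]`, `y ∈ [-1/10, 0]`: `FF (x, y) = ((8+x)/9, 9 y)` (translate of `FF_sw`). -/
lemma FF_sw1 {x y : ℝ} (h1 : 1/10 ≤ x) (h2 : x ≤ 1) (h3 : -(1/10) ≤ y) (h4 : y ≤ 0) :
    FF • ((x, y) : Pl) = ((8 + x) / 9, 9 * y) := by
  have e1 : aa x = (8 + x) / 9 := aa_hi h1 h2
  have e2 : th y = 0 := th_near (by linarith) (by linarith)
  have e3 : th ((8 + x) / 9) = 0 := th_zero3 (by linarith) (by linarith)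
  have e4 : bb y = 9 * y := bb_neg h3 h4
  rw [FF_smul, e1, e2, add_zero, e3, sub_zero, e4]

/-- The frontier edge of the mirror sector is sent into the horizontal axis.
Proof: `z = (x, y)`, `0 ≤ x`, `y ≤ 0`, `GG (y, x) = min (1/5 - y/10 - 9x) (11/5 + 99/10 y - 9x) = 0`.
So `11/5 + 99/10 y ≥ 9 x ≥ 0` gives `y ≥ -2/9`, and `9 x ≤ 1/5 - y/10 ≤ 2/9` gives `x ≤ 1/10`, so
`aa x = 9x`, and `th y = max 0 (-2 - 10 y)` (`th_neg`).  If `y ≥ -1/5` the minimum is the first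
term, `9 x = 1/5 - y/10`, `th y = 0`; otherwise `9 x = 11/5 + 99/10 y`, `th y = -2 - 10 y`: in both
cases `x' = aa x + th y = 1/5 - y/10 ∈ [2/10, 3/10]`, `th x' = 2 - 10 x' = y` (`th_r1`) and
`bb (y - y) = 0`. -/
lemma FF_edge {z : Pl} (h1 : 0 ≤ z.1) (h2 : z.2 ≤ 0) (h3 : GG z.swap = 0) :
    FF • z = (1/5 - z.2/10, 0) ∧ 1/5 - z.2/10 ≤ 2/9 := by
  obtain ⟨x, y⟩ := z
  simp only [Prod.swap_prod_mk, GG] at h1 h2 h3 ⊢
  have a1 : 0 ≤ 1/5 - y/10 - 9*x := h3 ▸ min_le_left _ _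
  have a2 : 0 ≤ 11/5 + 99/10*y - 9*x := h3 ▸ min_le_right _ _
  have hy : -(2/9) ≤ y := by linarith
  have hx : x ≤ 1/10 := by linarith
  have e1 : aa x = 9 * x := aa_lo h1 hx
  have e2 : th y = max 0 (-2 - 10 * y) := th_neg (by linarith) h2
  have e5 : aa x + th y = 1/5 - y/10 := by
    rw [e1, e2]
    rcases le_total (-(1/5)) y with h | h
    · rw [max_eq_left (by linarith)]
      rw [min_eq_left (by linarith)] at h3
      linarith
    · rw [max_eq_right (by linarith)]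
      rw [min_eq_right (by linarith)] at h3
      linarith
  have e3 : th (1/5 - y/10) = y := by
    rw [th_r1 (by linarith) (by linarith)]
    ring
  have e4 : bb 0 = 0 := by
    rw [bb_lo le_rfl (by norm_num)]
    simp
  rw [FF_smul, e5, e3, sub_self, e4]
  exact ⟨rfl, by linarith⟩

end H45T
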