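import Pool.Agent.Lib.H45Torus.EDG

/-!
# Chunk FRE: a continuum of `Uu` in the closed sector is disjoint from its iterates
-/

namespace H45T

open Filter Topology Set

lemma FRE_continuous (k : ℕ) : Continuous (fun z : Pl => GG (((9:ℝ) ^ k) • z)) := by
  unfold GG
  fun_prop

/-- No zero on a preconnected set, one positive value: positive everywhere. -/
lemma FRE_pos {S : Set Pl} {x : Pl} (hS : IsPreconnected S) (hx : x ∈ S)
    {f : Pl → ℝ} (hf : Continuous f) (h0 : ∀ z ∈ S, f z ≠ 0) (hpos : 0 < f x) :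
    ∀ z ∈ S, 0 < f z := by
  intro z hz
  by_contra hneg
  have hneg' : f z ≤ 0 := not_lt.1 hneg
  obtain ⟨y, hy, hy0⟩ := hS.intermediate_value hz hx hf.continuousOn ⟨hneg', hpos.le⟩
  exact h0 y hy hy0

/-- Proof.  As `x.1 < 0`, `GG (9^k x) ≤ 11/5 + 9^k (99/10 x.1 - 9 x.2) → -∞`, and `GG (9^0 x) > 0`:
let `k` be such that `GG (9^k x) > 0` and `GG (9^(k+1) x) ≤ 0` (`Nat.find`).  By `level_not_Uu`
the continuous functions `GG (9^k z)` and `GG (9^(k+1) z)` have no zero on the preconnected set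
`S ⊆ Uu`, so they have constant signs: `GG (9^k z) > 0` and `GG (9^(k+1) z) < 0` for all `z ∈ S`
(`IsPreconnected.image`, `IsPreconnected.intermediate_value` or `isPreconnected_iff...`).
If `z ∈ S` and `z' = (1/9)^i z ∈ S`, `i ≥ 1`: `9^(k+1) z' = c • (9^k z)` with
`c = 9^(k+1) (1/9)^i / 9^k = 9 (1/9)^i ∈ [0,1]`, so `GG (9^(k+1) z') > 0` by `GG_smul_pos`, a
contradiction. -/
theorem free_of_preconnected {S : Set Pl} {x : Pl} (hS : IsPreconnected S) (hx : x ∈ S)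
    (hxT : x ∈ Tri) (hSb : ∀ z ∈ S, z.1 ≤ 0 ∧ 0 ≤ z.2) (hSU : S ⊆ Uu) :
    ∀ i : ℕ, 1 ≤ i → ∀ z ∈ S, ((1/9 : ℝ) ^ i) • z ∉ S := by
  classical
  have h00 : ∀ k : ℕ, ∀ z ∈ S, GG (((9:ℝ) ^ k) • z) ≠ 0 := fun k z hz h =>
    level_not_Uu k (hSb z hz).1 (hSb z hz).2 h (hSU hz)
  have hex : ∃ k : ℕ, GG (((9:ℝ) ^ k) • x) ≤ 0 := by
    obtain ⟨h1, h2, -⟩ := hxT
    obtain ⟨k, hk⟩ := pow_unbounded_of_one_lt ((11/5 : ℝ) / (-(99/10 * x.1))) (by norm_num : (1:ℝ) < 9)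
    refine ⟨k, ?_⟩
    have hneg : 0 < -(99/10 * x.1) := by linarith
    rw [div_lt_iff₀ hneg] at hk
    have h9 : (0:ℝ) < 9 ^ k := by positivity
    unfold GG
    refine (min_le_right _ _).trans ?_
    simp only [Prod.smul_fst, Prod.smul_snd, smul_eq_mul]
    nlinarith [mul_pos h9 h2]
  have hk0 : Nat.find hex ≠ 0 := by
    intro h
    have := Nat.find_spec hex
    rw [h, pow_zero, one_smul] at this
    exact absurd hxT.2.2 (not_lt.2 this)
  obtain ⟨k, hk⟩ := Nat.exists_eq_succ_of_ne_zero hk0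
  have hkpos : 0 < GG (((9:ℝ) ^ k) • x) := by
    have := Nat.find_min hex (m := k) (by omega)
    exact not_le.1 this
  have hk1 : GG (((9:ℝ) ^ (k + 1)) • x) < 0 := by
    have h := Nat.find_spec hex
    rw [hk, Nat.succ_eq_add_one] at h
    exact lt_of_le_of_ne h (h00 (k + 1) x hx)
  have hp := FRE_pos hS hx (FRE_continuous k) (h00 k) hkpos
  have hn := FRE_pos hS hx (FRE_continuous (k + 1)).neg
    (fun z hz h => h00 (k + 1) z hz (neg_eq_zero.1 h)) (neg_pos.2 hk1)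
  intro i hi z hz hz'
  have h1 := hp z hz
  have h2 := hn _ hz'
  obtain ⟨j, rfl⟩ : ∃ j, i = j + 1 := ⟨i - 1, by omega⟩
  have h3 : ((9:ℝ) ^ (k + 1)) • (((1/9 : ℝ) ^ (j + 1)) • z) = ((1/9 : ℝ) ^ j) • (((9:ℝ) ^ k) • z) := by
    rw [smul_smul, smul_smul]
    congr 1
    rw [pow_succ, pow_succ]
    ring
  have h4 : 0 < GG (((1/9 : ℝ) ^ j) • (((9:ℝ) ^ k) • z)) :=
    GG_smul_pos h1 (by positivity) (pow_le_one₀ (by norm_num) (by norm_num))
  rw [← h3] at h4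
  have h5 : 0 < -GG (((9:ℝ) ^ (k + 1)) • (((1/9 : ℝ) ^ (j + 1)) • z)) := h2
  linarith

end H45T
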