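import Pool.Agent.Lib.H45Torus.CAP

/-!
# Chunk HN: the step `NSet → MSet`
-/

namespace H45T

open Filter Topology Set

/-- The image of an `NSet l` under `Hm` is an `MSet (9 l)`.
On `[0,1/10] × (0,1/10)`, `Hm (x, y) = (9 x, y)` (`aa_lo`, `th_near`).  So horizontal distances are
multiplied by `9` and `|Δy| ≤ |Δx|/10 = |Δx'|/90 ≤ |Δx'|/9`.  `(rc Hm)⁻¹ • Hm • z = FF • z ∉ Us`
(`FF` is by definition `(rc Hm)⁻¹ * Hm`; `FF_smul_mem_Us`). -/
theorem NSet_step {l : ℝ} {C : Set Pl} (h : NSet l C) :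
    MSet (9 * l) ((fun z : Pl => Hm • z) '' C) := by
  obtain ⟨hC, hU, hB, hS, z0, hz0, z1, hz1, hl⟩ := h
  have hf : ∀ z ∈ C, Hm • z = (9 * z.1, z.2) := by
    intro z hz
    obtain ⟨h1, h2, h3, h4⟩ := hB z hz
    rw [Hm_smul, aa_lo h1 h2, th_near (by linarith) (by linarith), add_zero]
  refine ⟨hC.image _ (continuous_smul_pl Hm).continuousOn, ?_, ?_, ?_, ?_⟩
  · rintro _ ⟨z, hz, rfl⟩
    show (rc Hm)⁻¹ • (Hm • z) ∉ Us
    rw [← mul_smul]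
    intro hh
    exact hU z hz (FF_smul_mem_Us.1 hh)
  · rintro _ ⟨z, hz, rfl⟩
    obtain ⟨h1, h2, h3, h4⟩ := hB z hz
    simp only [hf z hz]
    constructor <;> linarith
  · rintro _ ⟨z, hz, rfl⟩ _ ⟨z', hz', rfl⟩
    simp only [hf z hz, hf z' hz']
    have h1 := hS z hz z' hz'
    have h2 : |9 * z.1 - 9 * z'.1| = 9 * |z.1 - z'.1| := by
      rw [← mul_sub, abs_mul, abs_of_pos (by norm_num : (0:ℝ) < 9)]
    rw [h2]
    have h3 := abs_nonneg (z.1 - z'.1)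
    linarith
  · refine ⟨_, ⟨z0, hz0, rfl⟩, _, ⟨z1, hz1, rfl⟩, ?_⟩
    simp only [hf z0 hz0, hf z1 hz1]
    rw [← mul_sub, abs_mul, abs_of_pos (by norm_num : (0:ℝ) < 9)]
    linarith

end H45T
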