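import Pool.Agent.Lib.H45Torus.TG

/-!
# Chunk HOM2: supported paths preserve the components
-/

namespace H45T

open Filter Topology Set

/-- A path of `EE` starting at `1` supported in the disjoint translates of `O` preserves `O`.
Proof: fix `t`, `z ∈ O`.  For `s ∈ [0,t]` the point `Ψ s • z` is in `⋃ w, O + iv w`: otherwise
`Ψ s • (Ψ s • z) = Ψ s • z` so `Ψ s • z = z ∈ O`.  The set `{Ψ s • z | s ≤ t}` is preconnected
(image of an interval under a continuous map: `s ↦ Ψ s • z` is continuous since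
`dist (Ψ s • z) (Ψ s' • z) ≤ dist (Ψ s) (Ψ s')`), meets `O` (at `s = 0`), and is covered by the two
disjoint open sets `O` and `⋃ w ≠ 0, O + iv w`; so it is contained in `O`. -/
theorem homog_stay (O : Set Pl) (hO : IsOpen O)
    (hd : ∀ z ∈ O, ∀ w : ℤ × ℤ, z - iv w ∈ O → w = 0) (Ψ : C(unitInterval, EE)) (h0 : Ψ 0 = 1)
    (hs : ∀ (t : unitInterval) (z : Pl), (∀ w : ℤ × ℤ, z - iv w ∉ O) → Ψ t • z = z)
    (t : unitInterval) (z : Pl) (hz : z ∈ O) : Ψ t • z ∈ O := by
  set V : Set Pl := ⋃ w : {w : ℤ × ℤ // w ≠ 0}, {p | p - iv w.1 ∈ O} with hV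
  have oV : IsOpen V := isOpen_iUnion fun w => hO.preimage (continuous_id.sub continuous_const)
  have hdis : Disjoint O V := by
    rw [Set.disjoint_left]
    intro p hp hp'
    obtain ⟨⟨w, hw⟩, hpw⟩ := mem_iUnion.1 hp'
    exact hw (hd p hp w hpw)
  have hcont : Continuous fun s : unitInterval => Ψ s • z :=
    (LipschitzWith.mk_one fun f g : EE => dist_smul_le f g z).continuous.comp Ψ.continuous
  have hpre : IsPreconnected (range fun s : unitInterval => Ψ s • z) :=
    isPreconnected_range hcont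
  have hsub : (range fun s : unitInterval => Ψ s • z) ⊆ O ∪ V := by
    rintro _ ⟨s, rfl⟩
    by_contra hcon
    have h1 : ∀ w : ℤ × ℤ, Ψ s • z - iv w ∉ O := by
      intro w hw
      apply hcon
      by_cases h0' : w = 0
      · left
        rwa [h0', iv_zero, sub_zero] at hw
      · right
        exact mem_iUnion.2 ⟨⟨w, h0'⟩, hw⟩
    have h2 := hs s (Ψ s • z) h1
    have h3 : Ψ s • z = z := by
      have h4 := congrArg (fun p : Pl => (Ψ s)⁻¹ • p) h2
      simpa using h4
    have h5 := h1 0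
    rw [h3, iv_zero, sub_zero] at h5
    exact h5 hz
  have hne : ((range fun s : unitInterval => Ψ s • z) ∩ O).Nonempty :=
    ⟨z, ⟨0, by simp [h0]⟩, hz⟩
  exact hpre.subset_left_of_subset_union hO oV hdis hsub hne ⟨t, rfl⟩

end H45T
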