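import Pool.Agent.Lib.H45Torus.HOM1
import Pool.Agent.Lib.H45Torus.HOM2

/-!
# Chunk HOM: homogeneity with small isotopies
-/

namespace H45T

open Filter Topology Set

/-- Homogeneity with a small isotopy: if moreover `O` has diameter `≤ ε` then `dist Ψ 1 ≤ ε`.
Proof: `Ψ` from `homog0`; by `homog_stay` applied to `Ψ` and to the path of the inverses, `Ψ t • z`
and `(Ψ t)⁻¹ • z` are in `O` for `z ∈ O`, so at distance `≤ ε` from `z`; the same for `z ∈ O + iv w`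
(`smul_add_iv`), and for the other points `Ψ t • z = z`.  Conclude with `dist_le_iff` and
`ContinuousMap.dist_le`. -/
theorem homog (O : Set Pl) (hO : IsOpen O) (hc : IsPreconnected O) {p q : Pl} (hp : p ∈ O)
    (hq : q ∈ O) (hd : ∀ z ∈ O, ∀ w : ℤ × ℤ, z - iv w ∈ O → w = 0) {ε : ℝ} (hε : 0 ≤ ε)
    (hdiam : ∀ z ∈ O, ∀ z' ∈ O, dist z z' ≤ ε) :
    ∃ Ψ : C(unitInterval, EE), Ψ 0 = 1 ∧ Ψ 1 • p = q ∧ dist Ψ 1 ≤ ε ∧
      (∀ (t : unitInterval) (z : Pl), (∀ w : ℤ × ℤ, z - iv w ∉ O) → Ψ t • z = z) ∧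
      ∀ (t : unitInterval) (z : Pl), z ∈ O → Ψ t • z ∈ O := by
  obtain ⟨Ψ, h0, h1, hs⟩ := homog0 O hO hc hp hq
  have hstay : ∀ (t : unitInterval) (z : Pl), z ∈ O → Ψ t • z ∈ O := fun t z hz =>
    homog_stay O hO hd Ψ h0 hs t z hz
  set Φ : C(unitInterval, EE) := ⟨fun t => (Ψ t)⁻¹, Ψ.continuous.inv⟩ with hΦ
  have hΦt : ∀ t, Φ t = (Ψ t)⁻¹ := fun t => rfl
  have hΦ0 : Φ 0 = 1 := by rw [hΦt, h0, inv_one]
  have hΦs : ∀ (t : unitInterval) (z : Pl), (∀ w : ℤ × ℤ, z - iv w ∉ O) → Φ t • z = z := by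
    intro t z hz
    rw [hΦt, inv_smul_eq_iff, hs t z hz]
  have hstay' : ∀ (t : unitInterval) (z : Pl), z ∈ O → Φ t • z ∈ O := fun t z hz =>
    homog_stay O hO hd Φ hΦ0 hΦs t z hz
  refine ⟨Ψ, h0, h1, ?_, hs, hstay⟩
  rw [ContinuousMap.dist_le hε]
  intro t
  have key : ∀ g : EE, (∀ z : Pl, (∀ w : ℤ × ℤ, z - iv w ∉ O) → g • z = z) →
      (∀ z ∈ O, g • z ∈ O) → ∀ z : Pl, dist (g • z) z ≤ ε := by
    intro g hg1 hg2 z
    by_cases h : ∀ w : ℤ × ℤ, z - iv w ∉ O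
    · rw [hg1 z h, dist_self]
      exact hε
    · push Not at h
      obtain ⟨w, hw⟩ := h
      have h3 := hdiam _ (hg2 _ hw) _ hw
      rwa [smul_sub_iv, dist_sub_right] at h3
  rw [show (1 : C(unitInterval, EE)) t = 1 from rfl, dist_le_iff hε]
  refine ⟨fun z => ?_, fun z => ?_⟩
  · rw [one_smul]
    exact key (Ψ t) (hs t) (hstay t) z
  · rw [inv_one, one_smul]
    exact key (Φ t) (hΦs t) (hstay' t) z

end H45T
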