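import Pool.Agent.Lib.H45Torus.BMP
import Pool.Agent.Lib.H45Torus.TG

/-!
# Chunk HOM1: homogeneity
-/

namespace H45T

open Filter Topology Set

/-- The relation used in the proof of `homog0`. -/
private def HOM1_P (O : Set Pl) (p q : Pl) : Prop :=
  ∃ Ψ : C(unitInterval, EE), Ψ 0 = 1 ∧ Ψ 1 • p = q ∧
    ∀ (t : unitInterval) (z : Pl), (∀ w : ℤ × ℤ, z - iv w ∉ O) → Ψ t • z = z

private theorem HOM1_trans {O : Set Pl} {p q r : Pl} (h1 : HOM1_P O p q) (h2 : HOM1_P O q r) :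
    HOM1_P O p r := by
  obtain ⟨Ψ, a1, a2, a3⟩ := h1
  obtain ⟨Ψ', b1, b2, b3⟩ := h2
  refine ⟨⟨fun t => Ψ' t * Ψ t, (map_continuous Ψ').mul (map_continuous Ψ)⟩, ?_, ?_, ?_⟩
  · change Ψ' 0 * Ψ 0 = 1
    rw [a1, b1, mul_one]
  · change (Ψ' 1 * Ψ 1) • p = r
    rw [mul_smul, a2, b2]
  · intro t z hz
    change (Ψ' t * Ψ t) • z = z
    rw [mul_smul, a3 t z hz, b3 t z hz]

private theorem HOM1_symm {O : Set Pl} {p q : Pl} (h1 : HOM1_P O p q) : HOM1_P O q p := by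
  obtain ⟨Ψ, a1, a2, a3⟩ := h1
  refine ⟨⟨fun t => (Ψ t)⁻¹, (map_continuous Ψ).inv⟩, ?_, ?_, ?_⟩
  · change (Ψ 0)⁻¹ = 1
    rw [a1, inv_one]
  · change (Ψ 1)⁻¹ • q = p
    rw [← a2, inv_smul_smul]
  · intro t z hz
    change (Ψ t)⁻¹ • z = z
    rw [inv_smul_eq_iff, a3 t z hz]

/-- Homogeneity.  Let `P a b` mean: there is `Ψ` as in the statement with `Ψ 1 • a = b`.
`P` is transitive on `O` (pointwise product `Ψ₂ * Ψ₁`, a continuous map by `ContinuousMap.mul` as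
`EE` is a topological group; or build the continuous map by hand) and by `bump` for `a ∈ O`,
`P a b` holds for `b` near `a`; and `P b a` holds also (inverse path `Ψ⁻¹`: if `Ψ 1 • a = b` then
`(Ψ 1)⁻¹ • b = a`, and if `Ψ t • z = z` then `(Ψ t)⁻¹ • z = z`).  Conclude with
`IsPreconnected.induction₂'`. -/
theorem homog0 (O : Set Pl) (hO : IsOpen O) (hc : IsPreconnected O) {p q : Pl} (hp : p ∈ O)
    (hq : q ∈ O) :
    ∃ Ψ : C(unitInterval, EE), Ψ 0 = 1 ∧ Ψ 1 • p = q ∧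
      ∀ (t : unitInterval) (z : Pl), (∀ w : ℤ × ℤ, z - iv w ∉ O) → Ψ t • z = z := by
  have key : HOM1_P O p q := by
    refine hc.induction₂' (HOM1_P O) (fun x hx => ?_) (fun x y z _ _ _ hxy hyz => HOM1_trans hxy hyz)
      hp hq
    obtain ⟨r, hr, hrO⟩ := Metric.isOpen_iff.mp hO x hx
    have hev : ∀ᶠ y in 𝓝[O] x, dist y x < r / 2 :=
      mem_nhdsWithin_of_mem_nhds (Metric.ball_mem_nhds x (half_pos hr))
    filter_upwards [hev] with y hy
    have h1 : HOM1_P O x y := bump O x y r hr hy hrO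
    exact ⟨h1, HOM1_symm h1⟩
  exact key

end H45T
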