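import Pool.Agent.Lib.H45Torus.HS4

/-!
# Chunk HS: the rotation set
-/

namespace H45T

open Filter Topology Set

lemma HS_lim (u : ℕ → ℝ) (c C : ℝ) (hu : ∀ i, |u i - c * (2 * i)| ≤ C) :
    Tendsto (fun i : ℕ => (((2 * i : ℕ) : ℝ))⁻¹ * u i) atTop (𝓝 c) := by
  have hinv : Tendsto (fun i : ℕ => (((2 * i : ℕ) : ℝ))⁻¹) atTop (𝓝 0) := by
    refine tendsto_inv_atTop_zero.comp (tendsto_natCast_atTop_atTop.comp ?_)
    exact Filter.tendsto_atTop_mono (fun n => by omega : ∀ n : ℕ, n ≤ 2 * n) tendsto_id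
  have h1 : Tendsto (fun i : ℕ => (((2 * i : ℕ) : ℝ))⁻¹ * (u i - c * (2 * i))) atTop (𝓝 0) := by
    have h2 : Tendsto (fun i : ℕ => (((2 * i : ℕ) : ℝ))⁻¹ * C) atTop (𝓝 0) := by
      simpa using hinv.mul_const C
    refine squeeze_zero_norm (fun i => ?_) h2
    rw [norm_mul, Real.norm_eq_abs, Real.norm_eq_abs, abs_of_nonneg (by positivity)]
    exact mul_le_mul_of_nonneg_left (hu i) (by positivity)
  have h3 := h1.add_const c
  rw [zero_add] at h3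
  refine h3.congr' ?_
  filter_upwards [eventually_ge_atTop 1] with i hi
  have hi' : (i : ℝ) ≠ 0 := by
    have : (1 : ℝ) ≤ i := by exact_mod_cast hi
    linarith
  push_cast
  field_simp
  ring

lemma HS_floor {a : ℝ} (ha : 0 < a) (ha' : a < 1/2) (k : ℤ) :
    ⌊2 * a * ((k + 1 : ℤ) : ℝ)⌋ - ⌊2 * a * (k : ℝ)⌋ = 0 ∨
      ⌊2 * a * ((k + 1 : ℤ) : ℝ)⌋ - ⌊2 * a * (k : ℝ)⌋ = 1 := by
  have h1 := Int.floor_le (2 * a * (k : ℝ))
  have h2 := Int.lt_floor_add_one (2 * a * (k : ℝ))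
  have h3 := Int.floor_le (2 * a * ((k + 1 : ℤ) : ℝ))
  have h4 := Int.lt_floor_add_one (2 * a * ((k + 1 : ℤ) : ℝ))
  set A := ⌊2 * a * (k : ℝ)⌋
  set B := ⌊2 * a * ((k + 1 : ℤ) : ℝ)⌋
  push_cast at h3 h4
  have h5 : (A : ℝ) < (B : ℝ) + 1 := by nlinarith
  have h6 : (B : ℝ) < (A : ℝ) + 2 := by nlinarith
  have h7 : A < B + 1 := by exact_mod_cast h5
  have h8 : B < A + 2 := by exact_mod_cast h6
  omega

/-- HS5.  For `g ∈ EE` equal to `FF` on `KK` the rotation set of `g` contains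
`(0,1/2) × (-1/2,0)`.  Let `0 < a, b < 1/2`.  Take `i k = true` iff `⌊2a(k+1)⌋ - ⌊2ak⌋ = 1`, and
`j (k+1) = true` iff `⌊2b(k+1)⌋ - ⌊2bk⌋ = 1` (these differences are `0` or `1`), so that
`∑_{k<n} bi (i k) = ⌊2an⌋`, `∑_{k<n} bi (j (k+1)) = ⌊2bn⌋`.  `p` from `horseshoe`: by induction
`g ^ (2n) • p 0 = FF ^ (2n) • p 0 = p n + iv (⌊2an⌋, -⌊2bn⌋)` (`p k ∈ KK` and `KK` is invariant by `FF`
and translations), so `(g ^ (2n) • p 0 - p 0)/(2n) → (a, -b)`.  Use `n_i = 2 i`, `z_i = p 0` in the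
definition of `rotationSet` (`pow_smul_eq`). -/
theorem rotation_contains (g : EE) (hg : ∀ z ∈ KK, g • z = FF • z) {a b : ℝ} (ha : 0 < a)
    (ha' : a < 1/2) (hb : 0 < b) (hb' : b < 1/2) : ((a, -b) : Pl) ∈ rotationSet g.hom := by
  classical
  set ii : ℤ → Bool := fun k => decide (⌊2 * a * ((k + 1 : ℤ) : ℝ)⌋ - ⌊2 * a * (k : ℝ)⌋ = 1) with hii
  set jj : ℤ → Bool := fun k =>
    decide (⌊2 * b * ((k - 1 + 1 : ℤ) : ℝ)⌋ - ⌊2 * b * ((k - 1 : ℤ) : ℝ)⌋ = 1) with hjj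
  have hbi : ∀ k : ℤ, bi (ii k) = ⌊2 * a * ((k + 1 : ℤ) : ℝ)⌋ - ⌊2 * a * (k : ℝ)⌋ := by
    intro k
    rcases HS_floor ha ha' k with h | h
    · have : ii k = false := by
        rw [hii]; simp only [decide_eq_false_iff_not]; omega
      rw [this, h]; simp [bi]
    · have : ii k = true := by
        rw [hii]; simp only [decide_eq_true_eq]; exact h
      rw [this, h]; simp [bi]
  have hbj : ∀ k : ℤ, bi (jj (k + 1)) = ⌊2 * b * ((k + 1 : ℤ) : ℝ)⌋ - ⌊2 * b * (k : ℝ)⌋ := by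
    intro k
    have e1 : jj (k + 1) =
        decide (⌊2 * b * ((k + 1 : ℤ) : ℝ)⌋ - ⌊2 * b * (k : ℝ)⌋ = 1) := by
      rw [hjj]; simp only [add_sub_cancel_right]
    rcases HS_floor hb hb' k with h | h
    · have : jj (k + 1) = false := by
        rw [e1]; simp only [decide_eq_false_iff_not]; omega
      rw [this, h]; simp [bi]
    · have : jj (k + 1) = true := by
        rw [e1]; simp only [decide_eq_true_eq]; exact h
      rw [this, h]; simp [bi]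
  obtain ⟨p, hp⟩ := horseshoe ii jj
  have hg2 : ∀ z ∈ KK, g ^ 2 • z = FF ^ 2 • z := by
    intro z hz
    rw [pow_two, pow_two, mul_smul, mul_smul, hg z hz, hg _ (FF_smul_mem_KK.2 hz)]
  have hind : ∀ n : ℕ, g ^ (2 * n) • p 0 = p n +
      iv (⌊2 * a * (n : ℝ)⌋, -⌊2 * b * (n : ℝ)⌋) := by
    intro n
    induction n with
    | zero => ext <;> simp
    | succ n ih =>
      rw [show 2 * (n + 1) = 2 + 2 * n by ring, pow_add, mul_smul, ih, smul_add_iv,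
        hg2 _ (hp n).1, (hp n).2.1, add_assoc, ← iv_add, hbi, hbj]
      push_cast
      congr 2
      ext
      · simp
      · simp only [Prod.mk_add_mk]
        ring
  refine ⟨fun i => 2 * i, fun _ => p 0, ?_, ?_⟩
  · exact Filter.tendsto_atTop_mono (fun n => by omega : ∀ n : ℕ, n ≤ 2 * n) tendsto_id
  · have e1 : ∀ i : ℕ, (g.hom)^[2 * i] (p 0) = p i +
        iv (⌊2 * a * (i : ℝ)⌋, -⌊2 * b * (i : ℝ)⌋) := by
      intro i
      rw [← pow_smul_eq, hind]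
    have h1 : Tendsto (fun i : ℕ => (((2 * i : ℕ) : ℝ))⁻¹ *
        (((p i).1 + (⌊2 * a * (i : ℝ)⌋ : ℝ)) - (p 0).1)) atTop (𝓝 a) := by
      refine HS_lim _ a 3 (fun i => ?_)
      have h2 := Int.floor_le (2 * a * (i : ℝ))
      have h3 := Int.lt_floor_add_one (2 * a * (i : ℝ))
      obtain ⟨-, -, h4, h5, -, -⟩ := hp i
      obtain ⟨-, -, h6, h7, -, -⟩ := hp 0
      rw [abs_le]
      constructor <;> linarith
    have h2 : Tendsto (fun i : ℕ => (((2 * i : ℕ) : ℝ))⁻¹ *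
        (((p i).2 - (⌊2 * b * (i : ℝ)⌋ : ℝ)) - (p 0).2)) atTop (𝓝 (-b)) := by
      refine HS_lim _ (-b) 3 (fun i => ?_)
      have h2 := Int.floor_le (2 * b * (i : ℝ))
      have h3 := Int.lt_floor_add_one (2 * b * (i : ℝ))
      obtain ⟨-, -, -, -, h4, h5⟩ := hp i
      obtain ⟨-, -, -, -, h6, h7⟩ := hp 0
      rw [abs_le]
      constructor <;> linarith
    refine (h1.prodMk_nhds h2).congr (fun i => ?_)
    rw [e1]
    ext
    · simp
    · simp [sub_eq_add_neg]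
      ring

theorem rotation_interior (g : EE) (hg : ∀ z ∈ KK, g • z = FF • z) :
    (interior (rotationSet g.hom)).Nonempty := by
  have h : Ioo (0:ℝ) (1/2) ×ˢ Ioo (-(1/2):ℝ) 0 ⊆ rotationSet g.hom := by
    rintro ⟨x, y⟩ ⟨⟨hx, hx'⟩, ⟨hy, hy'⟩⟩
    have := rotation_contains g hg (a := x) (b := -y) hx hx' (by simpa using hy')
      (by simp only at hy ⊢; linarith)
    simpa using this
  refine ⟨(1/4, -(1/4)), ?_⟩
  refine mem_interior.2 ⟨_, h, isOpen_Ioo.prod isOpen_Ioo, ?_⟩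
  constructor <;> constructor <;> norm_num

end H45T
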