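import Pool.Agent.Lib.H45Torus.US

/-!
# The horseshoe: definitions
-/

namespace H45T

open Filter Topology Set

/-- The coding function. -/
noncomputable def Ph (c : Bool) (d : ℝ) : ℝ := if c then 6/10 + (1 + d)/90 else 2/10 + (8 - d)/90

/-- `0` or `1` as an integer. -/
def bi (c : Bool) : ℤ := if c then 1 else 0

end H45T
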