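import Pool.Agent.Lib.H45Torus.HS0

/-!
# Chunk HS1: existence of the codes (Banach fixed point)
-/

namespace H45T

open Filter Topology Set

lemma HS1_Ph_abs (c : Bool) (d M : ℝ) (hM : 0 ≤ M) (hd : |d| ≤ 2 * M) :
    |Ph c d| ≤ 6/10 + (1 + 2 * M)/90 := by
  obtain ⟨h1, h2⟩ := abs_le.1 hd
  rw [abs_le]
  cases c
  · simp only [Ph, Bool.false_eq_true, if_false]
    constructor <;> linarith
  · simp only [Ph, if_true]
    constructor <;> linarith

lemma HS1_Ph_dist (c : Bool) (d d' : ℝ) : |Ph c d - Ph c d'| = |d - d'| / 90 := by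
  cases c
  · have : Ph false d - Ph false d' = -((d - d') / 90) := by
      simp only [Ph, Bool.false_eq_true, if_false]; ring
    rw [this, abs_neg, abs_div]
    norm_num
  · have : Ph true d - Ph true d' = (d - d') / 90 := by
      simp only [Ph, if_true]; ring
    rw [this, abs_div]
    norm_num

lemma HS1_Ph_mem (c : Bool) (d : ℝ) (hd : |d| ≤ 5/4) : 2/10 ≤ Ph c d ∧ Ph c d ≤ 8/10 := by
  obtain ⟨h1, h2⟩ := abs_le.1 hd
  cases c
  · simp only [Ph, Bool.false_eq_true, if_false]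
    constructor <;> linarith
  · simp only [Ph, if_true]
    constructor <;> linarith

/-- HS1.  Existence of the codes.  Proof: Banach fixed point theorem in the complete metric space of
the bounded functions `(X, Y) : ℤ → ℝ × ℝ` (bounded continuous functions on the discrete space `ℤ`
with values in `ℝ × ℝ`; it is convenient to use `BoundedContinuousFunction ℤ (ℝ × ℝ)`) for the map
`(X, Y) ↦ (k ↦ (Ph (j k) (Y (k-1) - Y k), Ph (i k) (X (k+1) - X k)))`, which is a contraction of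
constant `2/90` (`|Ph c d - Ph c d'| = |d - d'|/90`).  Bounds: let `M = sup |X k|, |Y k|` for the
fixed point; `|Ph c d| ≤ 6/10 + (1 + 2M)/90 …` gives `M ≤ 7/10 + 2M/90`, so `M ≤ 8/10`, and then
(all `X k, Y k ≥ 0`, since `d ≤ 2M ≤ 16/10`) `d ∈ [-8/10, 8/10]` so `Ph c d ∈ [2/10, 8/10]`.
(Alternatively work in the complete space of functions with values in `[2/10, 8/10]²`: for
`X, Y ∈ [2/10,8/10]`, `d ∈ [-6/10,6/10]`, `Ph c d ∈ [2/10,3/10] ∪ [6/10,7/10]`.) -/
lemma hs_codes (i j : ℤ → Bool) : ∃ X Y : ℤ → ℝ, ∀ k : ℤ,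
    X (k + 1) = Ph (j (k + 1)) (Y k - Y (k + 1)) ∧ Y k = Ph (i k) (X (k + 1) - X k) ∧
      2/10 ≤ X k ∧ X k ≤ 8/10 ∧ 2/10 ≤ Y k ∧ Y k ≤ 8/10 := by
  classical
  have hn1 : ∀ (f : BoundedContinuousFunction ℤ (ℝ × ℝ)) (k : ℤ), |(f k).1| ≤ ‖f‖ := fun f k =>
    (norm_fst_le (f k)).trans (f.norm_coe_le_norm k)
  have hn2 : ∀ (f : BoundedContinuousFunction ℤ (ℝ × ℝ)) (k : ℤ), |(f k).2| ≤ ‖f‖ := fun f k =>
    (norm_snd_le (f k)).trans (f.norm_coe_le_norm k)
  have hd : ∀ (x y M : ℝ), |x| ≤ M → |y| ≤ M → |x - y| ≤ 2 * M := by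
    intro x y M hx hy
    calc |x - y| ≤ |x| + |y| := abs_sub x y
      _ ≤ 2 * M := by linarith
  let Ψ : BoundedContinuousFunction ℤ (ℝ × ℝ) → ℤ → ℝ × ℝ := fun f k =>
    (Ph (j k) ((f (k - 1)).2 - (f k).2), Ph (i k) ((f (k + 1)).1 - (f k).1))
  have hΨ : ∀ f k, ‖Ψ f k‖ ≤ 6/10 + (1 + 2 * ‖f‖)/90 := by
    intro f k
    rw [Prod.norm_def]
    exact max_le (HS1_Ph_abs _ _ _ (norm_nonneg f) (hd _ _ _ (hn2 f _) (hn2 f _)))
      (HS1_Ph_abs _ _ _ (norm_nonneg f) (hd _ _ _ (hn1 f _) (hn1 f _)))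
  let Φ : BoundedContinuousFunction ℤ (ℝ × ℝ) → BoundedContinuousFunction ℤ (ℝ × ℝ) := fun f =>
    BoundedContinuousFunction.ofNormedAddCommGroupDiscrete (Ψ f) _ (hΨ f)
  have hΦ : ∀ f k, Φ f k = Ψ f k := fun f k => rfl
  have hlip : LipschitzWith (1/45) Φ := by
    refine LipschitzWith.of_dist_le_mul fun f g => ?_
    rw [BoundedContinuousFunction.dist_le (by positivity)]
    intro k
    rw [hΦ, hΦ, Prod.dist_eq]
    have h1 : ∀ m : ℤ, |(f m).1 - (g m).1| ≤ dist f g := fun m => by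
      have h2 := BoundedContinuousFunction.dist_coe_le_dist (f := f) (g := g) m
      rw [Prod.dist_eq] at h2
      exact (le_max_left _ _).trans h2
    have h2 : ∀ m : ℤ, |(f m).2 - (g m).2| ≤ dist f g := fun m => by
      have h2 := BoundedContinuousFunction.dist_coe_le_dist (f := f) (g := g) m
      rw [Prod.dist_eq] at h2
      exact (le_max_right _ _).trans h2
    refine max_le ?_ ?_
    · change |Ph _ _ - Ph _ _| ≤ _
      rw [HS1_Ph_dist]
      have h3 : |(f (k - 1)).2 - (f k).2 - ((g (k - 1)).2 - (g k).2)| ≤ 2 * dist f g := by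
        have h4 : (f (k - 1)).2 - (f k).2 - ((g (k - 1)).2 - (g k).2) =
            ((f (k - 1)).2 - (g (k - 1)).2) - ((f k).2 - (g k).2) := by ring
        rw [h4]
        exact hd _ _ _ (h2 _) (h2 _)
      push_cast
      linarith
    · change |Ph _ _ - Ph _ _| ≤ _
      rw [HS1_Ph_dist]
      have h3 : |(f (k + 1)).1 - (f k).1 - ((g (k + 1)).1 - (g k).1)| ≤ 2 * dist f g := by
        have h4 : (f (k + 1)).1 - (f k).1 - ((g (k + 1)).1 - (g k).1) =
            ((f (k + 1)).1 - (g (k + 1)).1) - ((f k).1 - (g k).1) := by ring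
        rw [h4]
        exact hd _ _ _ (h1 _) (h1 _)
      push_cast
      linarith
  have hcon : ContractingWith (1/45) Φ := ⟨by norm_num, hlip⟩
  set F := ContractingWith.fixedPoint Φ hcon with hF
  have hfix : Φ F = F := hcon.fixedPoint_isFixedPt
  have hval : ∀ k, F k = Ψ F k := fun k => by
    have := congrArg (fun f : BoundedContinuousFunction ℤ (ℝ × ℝ) => f k) hfix
    simpa only [hΦ] using this.symm
  have hM : ‖F‖ ≤ 5/8 := by
    have h1 : ‖F‖ ≤ 6/10 + (1 + 2 * ‖F‖)/90 := by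
      rw [BoundedContinuousFunction.norm_le (by positivity)]
      intro k
      rw [hval k]
      exact hΨ F k
    linarith
  refine ⟨fun k => (F k).1, fun k => (F k).2, fun k => ?_⟩
  have hX : ∀ k, (F k).1 = Ph (j k) ((F (k - 1)).2 - (F k).2) := fun k => by
    have := congrArg Prod.fst (hval k)
    exact this
  have hY : ∀ k, (F k).2 = Ph (i k) ((F (k + 1)).1 - (F k).1) := fun k => by
    have := congrArg Prod.snd (hval k)
    exact this
  have b1 : ∀ k, 2/10 ≤ (F k).1 ∧ (F k).1 ≤ 8/10 := fun k => by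
    have h1 := HS1_Ph_mem (j k) ((F (k - 1)).2 - (F k).2)
      ((hd _ _ _ (hn2 F _) (hn2 F _)).trans (by linarith))
    rw [← hX k] at h1
    exact h1
  have b2 : ∀ k, 2/10 ≤ (F k).2 ∧ (F k).2 ≤ 8/10 := fun k => by
    have h1 := HS1_Ph_mem (i k) ((F (k + 1)).1 - (F k).1)
      ((hd _ _ _ (hn1 F _) (hn1 F _)).trans (by linarith))
    rw [← hY k] at h1
    exact h1
  refine ⟨?_, hY k, (b1 k).1, (b1 k).2, (b2 k).1, (b2 k).2⟩
  have := hX (k + 1)
  rw [add_sub_cancel_right] at this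
  exact this

end H45T
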