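import Pool.Agent.Lib.H45Torus.HS0

/-!
# Chunk HS2: two steps of `FF`
-/

namespace H45T

open Filter Topology Set

/-- HS2.  Two steps of `FF`.  `aa X = (8 + X)/9` (`aa_hi`).  If `i = true`,
`Y = 6/10 + (1 + X' - X)/90 ∈ [6/10, 7/10]`, `th Y = 10 Y - 6 = (1 + X' - X)/9` and
`aa X + th Y = 1 + X'/9`; if `i = false`, `Y = 2/10 + (8 - X' + X)/90 ∈ [2/10,3/10]`,
`th Y = 2 - 10 Y = -(8 - X' + X)/9`, `aa X + th Y = X'/9`.  So `FF • (X, Y) = (i + X'/9, Y/9)`
(`th (i + X'/9) = 0`, `bb Y = Y/9`).  Then `aa (i + X'/9) = i + X'`, `th (Y/9) = 0`, and the second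
coordinate of `FF • (i + X'/9, Y/9)` is `bb (Y/9 - th X')`.  If `j' = true`,
`X' = 6/10 + (1 + Y - Y')/90`, `th X' = (1 + Y - Y')/9`, `Y/9 - th X' = (Y' - 1)/9 =
aa Y' - 1 = aa (Y' - 1)` (`aa_hi`); if `j' = false`, `th X' = -(8 - Y + Y')/9`,
`Y/9 - th X' = (8 + Y')/9 = aa Y'`.  Apply `bb_aa`. -/
lemma hs_step {X X' Y Y' : ℝ} {i j' : Bool} (hX : 2/10 ≤ X ∧ X ≤ 8/10)
    (hX' : 2/10 ≤ X' ∧ X' ≤ 8/10) (hY : 2/10 ≤ Y ∧ Y ≤ 8/10) (hY' : 2/10 ≤ Y' ∧ Y' ≤ 8/10)
    (h1 : X' = Ph j' (Y - Y')) (h2 : Y = Ph i (X' - X)) :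
    FF ^ 2 • ((X, Y) : Pl) = (X', Y') + iv (bi i, - bi j') := by
  obtain ⟨hX1, hX2⟩ := hX
  obtain ⟨hX'1, hX'2⟩ := hX'
  obtain ⟨hY1, hY2⟩ := hY
  obtain ⟨hY'1, hY'2⟩ := hY'
  have hthX9 : th (X' / 9) = 0 := th_zero1 (by linarith) (by linarith)
  have hthY9 : th (Y / 9) = 0 := th_zero1 (by linarith) (by linarith)
  have hx' : aa X + th Y = X' / 9 + (bi i : ℤ) := by
    rw [aa_hi (by linarith) (by linarith)]
    cases i with
    | true =>
      have hP : Ph true (X' - X) = 6/10 + (1 + (X' - X))/90 := by simp [Ph]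
      rw [hP] at h2
      rw [th_r3 (by linarith) (by linarith), h2]
      simp only [bi, if_true]
      push_cast
      ring
    | false =>
      have hP : Ph false (X' - X) = 2/10 + (8 - (X' - X))/90 := by simp [Ph]
      rw [hP] at h2
      rw [th_r1 (by linarith) (by linarith), h2]
      simp only [bi, Bool.false_eq_true, if_false]
      push_cast
      ring
  have hstep1 : FF • ((X, Y) : Pl) = ((X' / 9, Y / 9) : Pl) + iv (bi i, 0) := by
    rw [FF_smul, hx', th_add_int, hthX9, sub_zero, bb_lo (by linarith) (by linarith)]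
    ext <;> simp
  have hstep2 : FF • ((X' / 9, Y / 9) : Pl) = (X', Y' + (-(bi j') : ℤ)) := by
    rw [FF_smul, hthY9, add_zero, aa_lo (by linarith) (by linarith)]
    have e1 : 9 * (X' / 9) = X' := by ring
    rw [e1]
    have e2 : bb (Y / 9 - th X') = Y' + (-(bi j') : ℤ) := by
      cases j' with
      | true =>
        have hP : Ph true (Y - Y') = 6/10 + (1 + (Y - Y'))/90 := by simp [Ph]
        rw [hP] at h1
        rw [th_r3 (by linarith) (by linarith), h1]
        have e3 : Y / 9 - (10 * (6/10 + (1 + (Y - Y'))/90) - 6) = aa (Y' + ((-1 : ℤ) : ℝ)) := by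
          rw [aa_add_int, aa_hi (by linarith) (by linarith)]
          push_cast
          ring
        rw [e3, bb_aa]
        simp [bi]
      | false =>
        have hP : Ph false (Y - Y') = 2/10 + (8 - (Y - Y'))/90 := by simp [Ph]
        rw [hP] at h1
        rw [th_r1 (by linarith) (by linarith), h1]
        have e3 : Y / 9 - (2 - 10 * (2/10 + (8 - (Y - Y'))/90)) = aa Y' := by
          rw [aa_hi (by linarith) (by linarith)]
          ring
        rw [e3, bb_aa]
        simp [bi]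
    rw [e2]
  rw [pow_two, mul_smul, hstep1, smul_add_iv, hstep2]
  ext <;> simp

end H45T
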