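import Pool.Agent.Lib.H45Torus.HS0

/-!
# Chunk HS3: points not in `Us`
-/

namespace H45T

open Filter Topology Set

/-- HS3.  If the second coordinates (mod 1) of the even iterates stay in `[2/10, 8/10]` the point is
not in `Us` (by `Tri_mono` late iterates of a point of `Us` are in a translate of `Tri`, whose
second coordinates are (mod 1) in `(0, 2/81)`: `Tri_box`). -/
lemma hs_not_Us {z : Pl} (h : ∀ n : ℕ, ∃ w : ℤ × ℤ, 2/10 ≤ (FF ^ (2 * n) • z - iv w).2 ∧
    (FF ^ (2 * n) • z - iv w).2 ≤ 8/10) : z ∉ Us := by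
  rintro ⟨n, w, hn⟩
  obtain ⟨w', h1, h2⟩ := h n
  have h3 := Tri_mono hn (by omega : n ≤ 2 * n)
  obtain ⟨-, -, h4, h5⟩ := Tri_box h3
  simp only [Prod.snd_sub, iv_snd] at h1 h2 h4 h5
  have h6 : (0 : ℝ) < ((w.2 - w'.2 : ℤ) : ℝ) := by push_cast; linarith
  have h7 : ((w.2 - w'.2 : ℤ) : ℝ) < 1 := by push_cast; linarith
  have h8 : 0 < w.2 - w'.2 := by exact_mod_cast h6
  have h9 : w.2 - w'.2 < 1 := by exact_mod_cast h7
  omega

end H45T
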