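import Pool.Agent.Lib.H45Torus.HS1
import Pool.Agent.Lib.H45Torus.HS2
import Pool.Agent.Lib.H45Torus.HS3

/-!
# Chunk HS4: the orbits of the horseshoe
-/

namespace H45T

open Filter Topology Set

lemma HS4_fwd (p : ℤ → Pl) (W : ℤ → ℤ × ℤ) (hp : ∀ k, FF ^ 2 • p k = p (k + 1) + iv (W k))
    (n : ℕ) : ∀ k : ℤ, ∃ w : ℤ × ℤ, FF ^ (2 * n) • p k = p (k + n) + iv w := by
  induction n with
  | zero => intro k; exact ⟨0, by simp⟩
  | succ n ih =>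
    intro k
    obtain ⟨w, hw⟩ := ih (k + 1)
    refine ⟨w + W k, ?_⟩
    rw [show 2 * (n + 1) = 2 * n + 2 by ring, pow_add, mul_smul, hp, smul_add_iv, hw,
      show k + ((n + 1 : ℕ) : ℤ) = k + 1 + (n : ℤ) by push_cast; ring, iv_add, add_assoc]

lemma HS4_bwd (p : ℤ → Pl) (W : ℤ → ℤ × ℤ) (hp : ∀ k, FF ^ 2 • p k = p (k + 1) + iv (W k))
    (n : ℕ) (k : ℤ) : ∃ w : ℤ × ℤ, (FF ^ (2 * n))⁻¹ • p k = p (k - n) + iv w := by
  obtain ⟨w, hw⟩ := HS4_fwd p W hp n (k - n)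
  refine ⟨-w, ?_⟩
  rw [sub_add_cancel] at hw
  rw [inv_smul_eq_iff, iv_neg, ← sub_eq_add_neg, smul_sub_iv, hw, add_sub_cancel_right]

/-- HS4.  The orbits.  With `X`, `Y` from `hs_codes`, `p k = (X k, Y k)`; by `hs_step` and
induction, `FF ^ (2 n) • p k` is a translate of `p (k + n)`, and `(FF ^ (2 n))⁻¹ • p k` a translate
of `p (k - n)`.  So `p k ∉ Us` by `hs_not_Us`, and `p k ∉ Uu` because
`FF ^ (2n) • (p k).swap = ((FF ^ (2n))⁻¹ • p k).swap` (`FF_pow_inv_smul`) has a second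
coordinate equal (mod 1) to `X (k - n) ∈ [2/10, 8/10]`. -/
theorem horseshoe (i j : ℤ → Bool) : ∃ p : ℤ → Pl, ∀ k : ℤ, p k ∈ KK ∧
    FF ^ 2 • p k = p (k + 1) + iv (bi (i k), - bi (j (k + 1))) ∧
    0 ≤ (p k).1 ∧ (p k).1 ≤ 1 ∧ 0 ≤ (p k).2 ∧ (p k).2 ≤ 1 := by
  obtain ⟨X, Y, hXY⟩ := hs_codes i j
  set p : ℤ → Pl := fun k => (X k, Y k) with hpdef
  set W : ℤ → ℤ × ℤ := fun k => (bi (i k), - bi (j (k + 1))) with hW
  have hp : ∀ k, FF ^ 2 • p k = p (k + 1) + iv (W k) := by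
    intro k
    obtain ⟨h1, h2, h3, h4, h5, h6⟩ := hXY k
    obtain ⟨-, -, h3', h4', h5', h6'⟩ := hXY (k + 1)
    exact hs_step ⟨h3, h4⟩ ⟨h3', h4'⟩ ⟨h5, h6⟩ ⟨h5', h6'⟩ h1 h2
  refine ⟨p, fun k => ⟨?_, hp k, ?_, ?_, ?_, ?_⟩⟩
  · intro hmem
    rcases hmem with hmem | hmem
    · refine hs_not_Us (fun n => ?_) hmem
      obtain ⟨w, hw⟩ := HS4_fwd p W hp n k
      refine ⟨w, ?_⟩
      rw [hw, add_sub_cancel_right]
      exact ⟨(hXY _).2.2.2.2.1, (hXY _).2.2.2.2.2⟩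
    · have hmem' : (p k).swap ∈ Us := hmem
      refine hs_not_Us (fun n => ?_) hmem'
      obtain ⟨w, hw⟩ := HS4_bwd p W hp n k
      refine ⟨w.swap, ?_⟩
      have h1 : FF ^ (2 * n) • (p k).swap = ((FF ^ (2 * n))⁻¹ • p k).swap := by
        rw [FF_pow_inv_smul, Prod.swap_swap]
      have h2 : FF ^ (2 * n) • (p k).swap - iv w.swap = (p (k - n)).swap := by
        rw [h1, hw, swap_add_iv, add_sub_cancel_right]
      rw [h2]
      exact ⟨(hXY _).2.2.1, (hXY _).2.2.2.1⟩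
  · have := (hXY k).2.2.1
    show 0 ≤ X k
    linarith
  · have := (hXY k).2.2.2.1
    show X k ≤ 1
    linarith
  · have := (hXY k).2.2.2.2.1
    show 0 ≤ Y k
    linarith
  · have := (hXY k).2.2.2.2.2
    show Y k ≤ 1
    linarith

end H45T
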