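import Pool.Agent.Lib.H45Torus.PER2

/-!
# Chunk PER: the perturbation lemma
-/

namespace H45T

open Filter Topology Set

/-- The perturbation lemma.  If `ψ` is supported in `O`, `O` is disjoint from its iterates, and the
backward iterates of `ψ` shrink exponentially, the infinite product
`h = ψ (F⁻¹ ψ F) (F⁻² ψ F²) ⋯` conjugates `F` to `F ψ⁻¹`.
Proof: `hseq` is a Cauchy sequence (`hseq_dist`, `cauchySeq_of_le_geometric`); let `h` be its limit
(`completeSpace_EE`).  Passing to the limit in `hseq (n+1) = ψ * (F⁻¹ * hseq n * F)` (topological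
group) `h = ψ * (F⁻¹ * h * F)`, so `h * F * h⁻¹ = F * ψ⁻¹` (from `ψ⁻¹ h = F⁻¹ h F`,
`F ψ⁻¹ h = h F`).  The values of `h` follow from `hseq_values` and the continuity of evaluation.
(If `C < 0` then `O` is empty and `ψ = 1`, or replace `C` by `max C 0`.) -/
theorem perturb (F ψ : EE) (O : Set Pl) (C : ℝ) (hψ : ∀ z ∉ O, ψ • z = z)
    (free : ∀ i : ℕ, 1 ≤ i → ∀ z ∈ O, F ^ i • z ∉ O)
    (small : ∀ i : ℕ, ∀ z ∈ O, dist ((F ^ i)⁻¹ • ψ • z) ((F ^ i)⁻¹ • z) ≤ C * (1/9 : ℝ) ^ i) :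
    ∃ h : EE, h * F * h⁻¹ = F * ψ⁻¹ ∧ (∀ z : Pl, (∀ i : ℕ, F ^ i • z ∉ O) → h • z = z) ∧
      ∀ m : ℕ, ∀ z ∈ O, h • (F ^ m)⁻¹ • z = (F ^ m)⁻¹ • ψ • z := by
  have hC : (0:ℝ) ≤ max C 0 := le_max_right _ _
  have small' : ∀ i : ℕ, ∀ z ∈ O,
      dist ((F ^ i)⁻¹ • ψ • z) ((F ^ i)⁻¹ • z) ≤ max C 0 * (1/9 : ℝ) ^ i := fun i z hz =>
    (small i z hz).trans (mul_le_mul_of_nonneg_right (le_max_left _ _) (by positivity))
  have hcau : CauchySeq (hseq F ψ) := by
    apply cauchySeq_of_le_geometric (1/9 : ℝ) (max C 0) (by norm_num)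
    intro n
    rw [dist_comm]
    refine (hseq_dist F ψ O (max C 0) hC hψ free small' n).trans ?_
    apply mul_le_mul_of_nonneg_left _ hC
    exact pow_le_pow_of_le_one (by norm_num) (by norm_num) (Nat.le_succ n)
  obtain ⟨h, hh⟩ := cauchySeq_tendsto_of_complete hcau
  have hfix : h = ψ * (F⁻¹ * h * F) := by
    have t1 : Tendsto (fun n => hseq F ψ (n + 1)) atTop (𝓝 h) := (tendsto_add_atTop_iff_nat 1).2 hh
    have t2 : Tendsto (fun n => hseq F ψ (n + 1)) atTop (𝓝 (ψ * (F⁻¹ * h * F))) := by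
      have : (fun n => hseq F ψ (n + 1)) = fun n => ψ * (F⁻¹ * hseq F ψ n * F) := by
        funext n; rfl
      rw [this]
      exact tendsto_const_nhds.mul ((tendsto_const_nhds.mul hh).mul tendsto_const_nhds)
    exact tendsto_nhds_unique t1 t2
  have hev : ∀ z : Pl, Tendsto (fun n => hseq F ψ n • z) atTop (𝓝 (h • z)) := fun z =>
    hh.smul_const z
  refine ⟨h, ?_, ?_, ?_⟩
  · have h1 : ψ⁻¹ * h = F⁻¹ * h * F := by
      rw [inv_mul_eq_iff_eq_mul]; exact hfix
    have h2 : F * ψ⁻¹ * h = h * F := by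
      rw [mul_assoc, h1]; group
    rw [← h2]; group
  · intro z hz
    refine tendsto_nhds_unique (hev z) ?_
    have : (fun n => hseq F ψ n • z) = fun _ => z := by
      funext n
      exact (hseq_values F ψ O hψ free n z).2 (fun m _ => hz m)
    rw [this]
    exact tendsto_const_nhds
  · intro m z hz
    refine tendsto_nhds_unique (hev _) ?_
    apply tendsto_const_nhds.congr'
    filter_upwards [eventually_ge_atTop m] with n hn
    have h1 : F ^ m • (F ^ m)⁻¹ • z ∈ O := by rw [smul_inv_smul]; exact hz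
    rw [(hseq_values F ψ O hψ free n _).1 m hn h1, smul_inv_smul]

end H45T
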