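import Pool.Agent.Lib.H45Torus.SR
import Pool.Agent.Lib.H45Torus.PER
import Pool.Agent.Lib.H45Torus.HOM
import Pool.Agent.Lib.H45Torus.DEN

/-!
# Chunk LS: Lemma S
-/

namespace H45T

open Filter Topology Set

/-- Lemma S.
Proof.  Let `ε > 0` with `closedBall 1 ε ⊆ N`.  `U` open nonempty meets the open dense sets `Us` and
`Uu`: let `x ∈ U ∩ Us ∩ Uu`, and `m, w, v, O, s, C` from `side_region`.  Distinct translates of `O`
are disjoint: if `z ∈ O`, `z - iv w' ∈ O` then `z ∈ Cu v` and `z ∈ Cu (v + w')` (`sub_iv_mem_Cu`) so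
`w' = 0` (`Cu_unique`).  Let `Ψ` be given by `homog` with `p = s`, `q = FF ^ m • x - iv w`,
`ψ = Ψ 1`, and `O' = {z | ∃ w', z - iv w' ∈ O}`.  Hypotheses of `perturb FF ψ O' C`: support: clear.
Freeness: if `z₀ = z - iv w' ∈ O` and `FF ^ i • z - iv w'' ∈ O` then `FF ^ i • z₀ ∈ Cu v`
(`FF_pow_smul_mem_Cu`) and `FF ^ i • z₀ - iv (w'' - w') ∈ O ⊆ Cu v`, so `w'' = w'` and
`FF ^ i • z₀ ∈ O`, impossible for `i ≥ 1`.  Smallness: `ψ • z = ψ • z₀ + iv w'`, `ψ • z₀ ∈ O`.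
`h` fixes the points outside `Uu`: `O' ⊆ Uu` (`mem_Uu_iff_Cu`, `Uu_add_iv`) and
`FF ^ i • z ∉ Uu` (`FF_smul_mem_Uu`).  Finally let `z = (FF ^ m)⁻¹ • (s + iv w)`:
`FF ^ m • z - iv w = s ∈ Side`, so `z ∈ Ws`, and `h • z = (FF ^ m)⁻¹ • ψ • (s + iv w) =
(FF ^ m)⁻¹ • (q + iv w) = x ∈ U`. -/
theorem lemS {U : Set Pl} (hU : IsOpen U) (hne : U.Nonempty) {N : Set C(unitInterval, EE)}
    (hN : N ∈ 𝓝 (1 : C(unitInterval, EE))) :
    ∃ (h : EE) (Ψ : C(unitInterval, EE)), Ψ ∈ N ∧ Ψ 0 = 1 ∧ (∀ z, z ∉ Uu → h • z = z) ∧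
      h * FF * h⁻¹ = FF * (Ψ 1)⁻¹ ∧ ∃ z ∈ Ws, h • z ∈ U := by
  obtain ⟨ε, hε, hball⟩ := Metric.nhds_basis_closedBall.mem_iff.1 hN
  obtain ⟨x0, hx0U, hx0s⟩ := dense_Us.inter_open_nonempty U hU hne
  obtain ⟨x, ⟨hxU, hxs⟩, hxu⟩ :=
    dense_Uu.inter_open_nonempty (U ∩ Us) (hU.inter isOpen_Us) ⟨x0, hx0U, hx0s⟩
  obtain ⟨m, w, v, O, s, C, hOo, hOc, hOd, hqO, hsO, hsS, hOv, hfree, hshr⟩ :=
    side_region hxs hxu hε
  have hd : ∀ z ∈ O, ∀ w' : ℤ × ℤ, z - iv w' ∈ O → w' = 0 := by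
    intro z hz w' hz'
    have h1 : z ∈ Cu (v + w') := sub_iv_mem_Cu.1 (hOv hz')
    have h2 := Cu_unique (hOv hz) h1
    simpa using h2
  obtain ⟨Ψ, hΨ0, hΨ1, hΨd, hΨout, hΨin⟩ := homog O hOo hOc hsO hqO hd hε.le hOd
  have hOCu : ∀ (i : ℕ) (z : Pl) (w' : ℤ × ℤ), FF ^ i • z - iv w' ∈ O → z ∈ Cu (v + w') := by
    intro i z w' hz
    have h1 : FF ^ i • z ∈ Cu (v + w') := sub_iv_mem_Cu.1 (hOv hz)
    exact (FF_pow_smul_mem_Cu i).1 h1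
  have hadd : ∀ (f : EE) (z : Pl) (w' : ℤ × ℤ), f • z = f • (z - iv w') + iv w' := by
    intro f z w'
    rw [smul_sub_iv, sub_add_cancel]
  obtain ⟨h, hh1, hh2, hh3⟩ := perturb FF (Ψ 1) {z : Pl | ∃ w' : ℤ × ℤ, z - iv w' ∈ O} C
    (by
      intro z hz
      refine hΨout 1 z fun w' hw' => hz ⟨w', hw'⟩)
    (by
      rintro i hi z ⟨w', hz⟩ ⟨w'', hz'⟩
      have h1 : z ∈ Cu (v + w'') := hOCu i z w'' hz'
      have h2 : z ∈ Cu (v + w') := sub_iv_mem_Cu.1 (hOv hz)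
      have h3 : w' = w'' := by
        have := Cu_unique h2 h1
        simpa using this
      subst h3
      apply hfree i hi _ hz
      rw [smul_sub_iv]
      exact hz')
    (by
      rintro i z ⟨w', hz⟩
      rw [hadd (Ψ 1) z w', smul_add_iv, hadd (FF ^ i)⁻¹ z w', dist_add_right]
      exact hshr i _ (hΨin 1 _ hz) _ hz)
  refine ⟨h, Ψ, hball ?_, hΨ0, ?_, hh1, (FF ^ m)⁻¹ • (s + iv w), ?_, ?_⟩
  · rw [Metric.mem_closedBall]; exact hΨd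
  · intro z hz
    refine hh2 z fun i => ?_
    rintro ⟨w', hz'⟩
    exact hz (mem_Uu_iff_Cu.2 ⟨_, hOCu i z w' hz'⟩)
  · refine ⟨m, w, ?_⟩
    rw [smul_inv_smul, add_sub_cancel_right]
    exact hsS
  · have h4 := hh3 m (s + iv w) ⟨w, by rw [add_sub_cancel_right]; exact hsO⟩
    rw [h4, smul_add_iv, hΨ1, sub_add_cancel, inv_smul_smul]
    exact hxU

end H45T
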