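import Pool.Agent.Lib.H45Torus.LS

/-!
# Chunk LU: Lemma U
-/

namespace H45T

open Filter Topology Set

/-- The mirror map used for Lemma U. -/
private noncomputable def LU_g : C(EE, EE) :=
  ⟨fun x => FF⁻¹ * (rc x)⁻¹ * FF, by
    have h := continuous_rc
    fun_prop⟩

private lemma LU_g_apply (x : EE) : LU_g x = FF⁻¹ * (rc x)⁻¹ * FF := rfl

/-- Lemma U, the mirror image of Lemma S.
Proof.  The map `T : Ψ ↦ (t ↦ FF⁻¹ * (rc (Ψ t))⁻¹ * FF)` of `C(unitInterval, EE)` into itself is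
well defined and continuous, `T 1 = 1` (compose with the continuous map `g ↦ FF⁻¹ * (rc g)⁻¹ * FF`
of `EE`: `ContinuousMap.continuous_postcomp`).  Apply `lemS` to `Prod.swap ⁻¹' W` and the
neighbourhood `T ⁻¹' N`: `h₀`, `Ψ₀`.  Put `h = rc h₀`, `Ψ = T Ψ₀`.  `h • z = z` for `z ∉ Us`
(`z.swap ∉ Uu`).  From `h₀ FF h₀⁻¹ = FF ψ₀⁻¹`, applying `rc` and `rc FF = FF⁻¹`:
`h FF⁻¹ h⁻¹ = FF⁻¹ (rc ψ₀)⁻¹`; inverting, `h FF h⁻¹ = (rc ψ₀) FF = FF (FF⁻¹ (rc ψ₀) FF) = FF (Ψ 1)⁻¹`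
since `(Ψ 1)⁻¹ = FF⁻¹ (rc ψ₀) FF`.  And `z₀ ∈ Ws`, `h₀ • z₀ ∈ swap⁻¹ W` give `z₀.swap ∈ Wu` and
`h • z₀.swap = (h₀ • z₀).swap ∈ W`. -/
theorem lemU {W : Set Pl} (hW : IsOpen W) (hne : W.Nonempty) {N : Set C(unitInterval, EE)}
    (hN : N ∈ 𝓝 (1 : C(unitInterval, EE))) :
    ∃ (h : EE) (Ψ : C(unitInterval, EE)), Ψ ∈ N ∧ Ψ 0 = 1 ∧ (∀ z, z ∉ Us → h • z = z) ∧
      h * FF * h⁻¹ = FF * (Ψ 1)⁻¹ ∧ ∃ z ∈ Wu, h • z ∈ W := by
  have hT : Continuous (fun Ψ : C(unitInterval, EE) => LU_g.comp Ψ) :=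
    ContinuousMap.continuous_postcomp LU_g
  have hT1 : LU_g.comp (1 : C(unitInterval, EE)) = 1 := by
    ext t
    show LU_g ((1 : C(unitInterval, EE)) t) = _
    rw [LU_g_apply]
    simp
  have hN' : (fun Ψ : C(unitInterval, EE) => LU_g.comp Ψ) ⁻¹' N ∈
      𝓝 (1 : C(unitInterval, EE)) := by
    apply hT.continuousAt
    show N ∈ 𝓝 (LU_g.comp (1 : C(unitInterval, EE)))
    rw [hT1]
    exact hN
  obtain ⟨h₀, Ψ₀, hΨN, hΨ0, hfix, hconj, z₀, hz₀, hz₀U⟩ :=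
    lemS (U := (Prod.swap : Pl → Pl) ⁻¹' W) (hW.preimage continuous_swap)
      (by obtain ⟨y, hy⟩ := hne; exact ⟨y.swap, by simpa using hy⟩) hN'
  refine ⟨rc h₀, LU_g.comp Ψ₀, hΨN, ?_, ?_, ?_, z₀.swap, ?_, ?_⟩
  · show LU_g (Ψ₀ 0) = 1
    rw [hΨ0, LU_g_apply]
    simp
  · intro z hz
    rw [rc_smul, hfix z.swap ?_, Prod.swap_swap]
    intro h
    apply hz
    have h' : z.swap.swap ∈ Us := h
    rwa [Prod.swap_swap] at h'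
  · show rc h₀ * FF * (rc h₀)⁻¹ = FF * (LU_g (Ψ₀ 1))⁻¹
    rw [LU_g_apply]
    have h1 := congrArg rc hconj
    simp only [rc_mul, rc_inv, rc_FF] at h1
    have h2 := congrArg (fun x : EE => x⁻¹) h1
    simp only [mul_inv_rev, inv_inv] at h2
    rw [← mul_assoc] at h2
    rw [h2]
    group
  · show z₀.swap.swap ∈ Ws
    rw [Prod.swap_swap]
    exact hz₀
  · rw [rc_smul, Prod.swap_swap]
    exact hz₀U

end H45T
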