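import Pool.Agent.Lib.H45Torus.Basic

/-!
# Chunk MA: the piecewise linear circle maps `aa`, `bb = aa⁻¹`
-/

namespace H45T

open Filter Topology Set

/-- The map `a`: slope `9` on `[n, n + 1/10]`, slope `1/9` on `[n + 1/10, n + 1]`. -/
noncomputable def aa (x : ℝ) : ℝ := ⌊x⌋ + min (9 * Int.fract x) ((8 + Int.fract x) / 9)

/-- The inverse `b` of `a`: slope `1/9` on `[n, n + 9/10]`, slope `9` on `[n + 9/10, n + 1]`. -/
noncomputable def bb (y : ℝ) : ℝ := ⌊y⌋ + max (Int.fract y / 9) (9 * Int.fract y - 8)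

/-- Direct from the definition (`Int.floor_add_intCast`, `Int.fract_add_intCast`). -/
lemma aa_add_int (x : ℝ) (n : ℤ) : aa (x + n) = aa x + n := by
  simp only [aa, Int.floor_add_intCast, Int.fract_add_intCast, Int.cast_add]
  ring

lemma bb_add_int (x : ℝ) (n : ℤ) : bb (x + n) = bb x + n := by
  simp only [bb, Int.floor_add_intCast, Int.fract_add_intCast, Int.cast_add]
  ring

/-- For `x < 1`: floor `0`, fract `x`, and `9 x ≤ (8 + x)/9` iff `x ≤ 1/10`. -/
lemma aa_lo {x : ℝ} (h0 : 0 ≤ x) (h1 : x ≤ 1/10) : aa x = 9 * x := by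
  have hf : ⌊x⌋ = 0 := Int.floor_eq_zero_iff.2 ⟨h0, by linarith⟩
  have hr : Int.fract x = x := Int.fract_eq_self.2 ⟨h0, by linarith⟩
  rw [aa, hf, hr, min_eq_left (by linarith)]
  simp

/-- Case `x = 1` apart (both sides are `1`). -/
lemma aa_hi {x : ℝ} (h0 : 1/10 ≤ x) (h1 : x ≤ 1) : aa x = (8 + x) / 9 := by
  rcases h1.lt_or_eq with h | h
  · have hf : ⌊x⌋ = 0 := Int.floor_eq_zero_iff.2 ⟨by linarith, h⟩
    have hr : Int.fract x = x := Int.fract_eq_self.2 ⟨by linarith, h⟩
    rw [aa, hf, hr, min_eq_right (by linarith)]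
    simp
  · subst h
    simp only [aa, Int.floor_one, Int.fract_one, Int.cast_one]
    norm_num

/-- From `aa_hi` at `x + 1`. -/
lemma aa_neg {x : ℝ} (h0 : -(9/10) ≤ x) (h1 : x ≤ 0) : aa x = x / 9 := by
  have h2 := aa_add_int x 1
  have h3 := aa_hi (x := x + 1) (by linarith) (by linarith)
  push_cast at h2
  linarith

/-- From `aa_lo` at `x + 1`. -/
lemma aa_neg' {x : ℝ} (h0 : -1 ≤ x) (h1 : x ≤ -(9/10)) : aa x = 9 * x + 8 := by
  have h2 := aa_add_int x 1
  have h3 := aa_lo (x := x + 1) (by linarith) (by linarith)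
  push_cast at h2
  linarith

lemma bb_lo {y : ℝ} (h0 : 0 ≤ y) (h1 : y ≤ 9/10) : bb y = y / 9 := by
  have hf : ⌊y⌋ = 0 := Int.floor_eq_zero_iff.2 ⟨h0, by linarith⟩
  have hr : Int.fract y = y := Int.fract_eq_self.2 ⟨h0, by linarith⟩
  rw [bb, hf, hr, max_eq_left (by linarith)]
  simp

lemma bb_hi {y : ℝ} (h0 : 9/10 ≤ y) (h1 : y ≤ 1) : bb y = 9 * y - 8 := by
  rcases h1.lt_or_eq with h | h
  · have hf : ⌊y⌋ = 0 := Int.floor_eq_zero_iff.2 ⟨by linarith, h⟩
    have hr : Int.fract y = y := Int.fract_eq_self.2 ⟨by linarith, h⟩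
    rw [bb, hf, hr, max_eq_right (by linarith)]
    simp
  · subst h
    simp only [bb, Int.floor_one, Int.fract_one, Int.cast_one]
    norm_num

lemma bb_neg {y : ℝ} (h0 : -(1/10) ≤ y) (h1 : y ≤ 0) : bb y = 9 * y := by
  have h2 := bb_add_int y 1
  have h3 := bb_hi (y := y + 1) (by linarith) (by linarith)
  push_cast at h2
  linarith

lemma bb_neg' {y : ℝ} (h0 : -1 ≤ y) (h1 : y ≤ -(1/10)) : bb y = (y - 8) / 9 := by
  have h2 := bb_add_int y 1
  have h3 := bb_lo (y := y + 1) (by linarith) (by linarith)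
  push_cast at h2
  linarith

/-- `aa (bb y) = y`: reduce to `y ∈ [0,1)` by `bb_add_int`, `aa_add_int`; if `y ≤ 9/10`,
`bb y = y/9 ≤ 1/10` and `aa (y/9) = y`; otherwise `bb y = 9 y - 8 ∈ [1/10, 1]` and
`aa (9y-8) = y`. -/
lemma aa_bb (y : ℝ) : aa (bb y) = y := by
  have key : ∀ r : ℝ, 0 ≤ r → r < 1 → aa (bb r) = r := by
    intro r h0 h1
    rcases le_total r (9/10) with h | h
    · rw [bb_lo h0 h, aa_lo (by linarith) (by linarith)]
      ring
    · rw [bb_hi h h1.le, aa_hi (by linarith) (by linarith)]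
      ring
  have h1 := bb_add_int (Int.fract y) ⌊y⌋
  rw [Int.fract_add_floor] at h1
  rw [h1, aa_add_int, key _ (Int.fract_nonneg y) (Int.fract_lt_one y), Int.fract_add_floor]

lemma bb_aa (x : ℝ) : bb (aa x) = x := by
  have key : ∀ r : ℝ, 0 ≤ r → r < 1 → bb (aa r) = r := by
    intro r h0 h1
    rcases le_total r (1/10) with h | h
    · rw [aa_lo h0 h, bb_lo (by linarith) (by linarith)]
      ring
    · rw [aa_hi h h1.le, bb_hi (by linarith) (by linarith)]
      ring
  have h1 := aa_add_int (Int.fract x) ⌊x⌋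
  rw [Int.fract_add_floor] at h1
  rw [h1, bb_add_int, key _ (Int.fract_nonneg x) (Int.fract_lt_one x), Int.fract_add_floor]

/-- Strong monotonicity: `(x' - x)/9 ≤ aa x' - aa x` for `x ≤ x'` (all slopes of `aa` are at least
`1/9`).  Proof: let `x = n + r`, `x' = n' + r'`.  If `n = n'`: `min` of two functions of slopes
`9`, `1/9`.  If `n < n'`: `aa x ≤ (8 + r)/9 + n` and `aa x' ≥ n' + r'/9` (as `min (9r') ((8+r')/9) ≥
r'/9`), so `aa x' - aa x ≥ n' - n + (r' - r)/9 - 8/9 ≥ (n' - n + r' - r)/9` because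
`(8/9)(n' - n) ≥ 8/9`. -/
lemma aa_lower {x x' : ℝ} (h : x ≤ x') : (x' - x) / 9 ≤ aa x' - aa x := by
  have hx := Int.floor_add_fract x
  have hx' := Int.floor_add_fract x'
  have r0 := Int.fract_nonneg x
  have r1 := Int.fract_lt_one x
  have r0' := Int.fract_nonneg x'
  have r1' := Int.fract_lt_one x'
  have hn : ⌊x⌋ ≤ ⌊x'⌋ := Int.floor_le_floor h
  simp only [aa]
  generalize Int.fract x = r at *
  generalize Int.fract x' = r' at *
  generalize ⌊x⌋ = n at *
  generalize ⌊x'⌋ = n' at *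
  subst hx
  subst hx'
  rcases hn.eq_or_lt with h1 | h1
  · subst h1
    rcases le_total (9 * r) ((8 + r) / 9) with h2 | h2 <;>
      rcases le_total (9 * r') ((8 + r') / 9) with h3 | h3
    · rw [min_eq_left h2, min_eq_left h3]; linarith
    · rw [min_eq_left h2, min_eq_right h3]; linarith
    · rw [min_eq_right h2, min_eq_left h3]; linarith
    · rw [min_eq_right h2, min_eq_right h3]; linarith
  · have h2 : (n : ℝ) + 1 ≤ n' := by exact_mod_cast h1
    have h3 : min (9 * r) ((8 + r) / 9) ≤ (8 + r) / 9 := min_le_right _ _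
    have h4 : r' / 9 ≤ min (9 * r') ((8 + r') / 9) := le_min (by linarith) (by linarith)
    linarith

lemma aa_strictMono : StrictMono aa := by
  intro x x' h
  have := aa_lower h.le
  linarith

/-- `|aa x - x| ≤ 8/10`. -/
lemma aa_sub_le (x : ℝ) : |aa x - x| ≤ 8/10 := by
  have hx := Int.floor_add_fract x
  have r0 := Int.fract_nonneg x
  have r1 := Int.fract_lt_one x
  simp only [aa]
  generalize Int.fract x = r at *
  generalize ⌊x⌋ = n at *
  subst hx
  rw [abs_le]
  rcases le_total (9 * r) ((8 + r) / 9) with h2 | h2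
  · rw [min_eq_left h2]; constructor <;> linarith
  · rw [min_eq_right h2]; constructor <;> linarith

/-- `aa` as an order isomorphism with inverse `bb`. -/
noncomputable def aaIso : ℝ ≃o ℝ := aa_strictMono.orderIsoOfRightInverse aa bb aa_bb

lemma continuous_aa : Continuous aa := aaIso.continuous

lemma continuous_bb : Continuous bb := aaIso.symm.continuous

end H45T
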