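import Pool.Agent.Lib.H45Torus.Basic

/-!
# Chunk MT: the function `th`
-/

namespace H45T

open Filter Topology Set

/-- The function `θ`, of period `1`: a bump of height `1` on `(6/10, 8/10)` and a bump of height
`-1` on `(2/10, 4/10)`, piecewise linear with slopes `0`, `10`, `-10`. -/
noncomputable def th (t : ℝ) : ℝ :=
  max 0 (1 - 10 * |Int.fract t - 7/10|) - max 0 (1 - 10 * |Int.fract t - 3/10|)

lemma th_add_int (x : ℝ) (n : ℤ) : th (x + n) = th x := by
  simp [th]

/-- The function `θ` on the fundamental domain. -/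
noncomputable def MT_ph (r : ℝ) : ℝ :=
  max 0 (1 - 10 * |r - 7/10|) - max 0 (1 - 10 * |r - 3/10|)

lemma MT_th_eq (t : ℝ) : th t = MT_ph (Int.fract t) := rfl

lemma MT_bump_lip (c u v : ℝ) :
    |max 0 (1 - 10 * |u - c|) - max 0 (1 - 10 * |v - c|)| ≤ 10 * |u - v| := by
  have h1 : |max 0 (1 - 10 * |u - c|) - max 0 (1 - 10 * |v - c|)| ≤
      |(1 - 10 * |u - c|) - (1 - 10 * |v - c|)| := by
    rw [max_comm 0 (1 - 10 * |u - c|), max_comm 0 (1 - 10 * |v - c|)]
    exact abs_max_sub_max_le_abs _ _ _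
  have h2 : |(1 - 10 * |u - c|) - (1 - 10 * |v - c|)| = 10 * |(|u - c| - |v - c|)| := by
    rw [show (1 - 10 * |u - c|) - (1 - 10 * |v - c|) = -(10 * (|u - c| - |v - c|)) by ring, abs_neg,
      abs_mul, abs_of_pos (by norm_num : (0:ℝ) < 10)]
  have h3 : |(|u - c| - |v - c|)| ≤ |(u - c) - (v - c)| := abs_abs_sub_abs_le_abs_sub _ _
  rw [sub_sub_sub_cancel_right] at h3
  linarith

lemma MT_ph_left {r : ℝ} (h : r ≤ 1/2) : MT_ph r = - max 0 (1 - 10 * |r - 3/10|) := by
  have h1 : 1/5 ≤ |r - 7/10| := by rw [abs_of_neg (by linarith)]; linarith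
  rw [MT_ph, max_eq_left (b := 1 - 10 * |r - 7/10|) (by linarith)]
  ring

lemma MT_ph_right {r : ℝ} (h : 1/2 ≤ r) : MT_ph r = max 0 (1 - 10 * |r - 7/10|) := by
  have h1 : 1/5 ≤ |r - 3/10| := by rw [abs_of_pos (by linarith)]; linarith
  rw [MT_ph, max_eq_left (b := 1 - 10 * |r - 3/10|) (by linarith)]
  ring

lemma MT_ph_lip_left {s t : ℝ} (hs : s ≤ 1/2) (ht : t ≤ 1/2) :
    |MT_ph t - MT_ph s| ≤ 10 * |t - s| := by
  rw [MT_ph_left hs, MT_ph_left ht]
  have := MT_bump_lip (3/10) s t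
  rw [abs_sub_comm t s]
  rwa [neg_sub_neg]

lemma MT_ph_lip_right {s t : ℝ} (hs : 1/2 ≤ s) (ht : 1/2 ≤ t) :
    |MT_ph t - MT_ph s| ≤ 10 * |t - s| := by
  rw [MT_ph_right hs, MT_ph_right ht]
  exact MT_bump_lip (7/10) t s

lemma MT_ph_lip {s t : ℝ} (h : s ≤ t) : |MT_ph t - MT_ph s| ≤ 10 * (t - s) := by
  have e : |t - s| = t - s := abs_of_nonneg (by linarith)
  rcases le_total t (1/2) with h1 | h1
  · have := MT_ph_lip_left (h.trans h1) h1
    rwa [e] at this
  · rcases le_total s (1/2) with h2 | h2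
    · have h3 := MT_ph_lip_left h2 le_rfl
      have h4 := MT_ph_lip_right le_rfl h1
      rw [abs_of_nonneg (by linarith : (0:ℝ) ≤ 1/2 - s)] at h3
      rw [abs_of_nonneg (by linarith : (0:ℝ) ≤ t - 1/2)] at h4
      have h5 := abs_sub_le (MT_ph t) (MT_ph (1/2)) (MT_ph s)
      linarith
    · have := MT_ph_lip_right h2 h1
      rwa [e] at this

lemma MT_ph_zero : MT_ph 0 = 0 := by
  rw [MT_ph_left (by norm_num), show |(0:ℝ) - 3/10| = 3/10 by norm_num, max_eq_left (by norm_num)]
  norm_num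

lemma MT_ph_one : MT_ph 1 = 0 := by
  rw [MT_ph_right (by norm_num), show |(1:ℝ) - 7/10| = 3/10 by norm_num, max_eq_left (by norm_num)]

lemma MT_th_of_mem {t : ℝ} (h0 : 0 ≤ t) (h1 : t ≤ 1) : th t = MT_ph t := by
  rcases h1.lt_or_eq with h | h
  · rw [MT_th_eq, Int.fract_eq_self.2 ⟨h0, h⟩]
  · subst h
    rw [MT_th_eq, Int.fract_one, MT_ph_zero, MT_ph_one]

lemma MT_continuous_ph : Continuous MT_ph := by
  unfold MT_ph
  fun_prop

/-- Composition of a continuous function with equal values at `0` and `1` with `Int.fract`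
(`ContinuousOn.comp_fract''`). -/
lemma continuous_th : Continuous th := by
  have h := ContinuousOn.comp_fract'' (f := MT_ph) MT_continuous_ph.continuousOn
    (MT_ph_zero.trans MT_ph_one.symm)
  exact h

lemma th_zero1 {t : ℝ} (h0 : 0 ≤ t) (h1 : t ≤ 2/10) : th t = 0 := by
  rw [MT_th_of_mem h0 (by linarith), MT_ph_left (by linarith), abs_of_neg (by linarith),
    max_eq_left (by linarith)]
  norm_num

lemma th_zero2 {t : ℝ} (h0 : 4/10 ≤ t) (h1 : t ≤ 6/10) : th t = 0 := by
  rw [MT_th_of_mem (by linarith) (by linarith)]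
  rcases le_total t (1/2) with h | h
  · rw [MT_ph_left h, abs_of_pos (by linarith), max_eq_left (by linarith)]
    norm_num
  · rw [MT_ph_right h, abs_of_neg (by linarith), max_eq_left (by linarith)]

lemma th_zero3 {t : ℝ} (h0 : 8/10 ≤ t) (h1 : t ≤ 1) : th t = 0 := by
  rw [MT_th_of_mem (by linarith) h1, MT_ph_right (by linarith), abs_of_pos (by linarith),
    max_eq_left (by linarith)]

lemma th_r1 {t : ℝ} (h0 : 2/10 ≤ t) (h1 : t ≤ 3/10) : th t = 2 - 10 * t := by
  rw [MT_th_of_mem (by linarith) (by linarith), MT_ph_left (by linarith),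
    abs_of_nonpos (by linarith), max_eq_right (by linarith)]
  ring

lemma th_r2 {t : ℝ} (h0 : 3/10 ≤ t) (h1 : t ≤ 4/10) : th t = 10 * t - 4 := by
  rw [MT_th_of_mem (by linarith) (by linarith), MT_ph_left (by linarith),
    abs_of_nonneg (by linarith), max_eq_right (by linarith)]
  ring

lemma th_r3 {t : ℝ} (h0 : 6/10 ≤ t) (h1 : t ≤ 7/10) : th t = 10 * t - 6 := by
  rw [MT_th_of_mem (by linarith) (by linarith), MT_ph_right (by linarith),
    abs_of_nonpos (by linarith), max_eq_right (by linarith)]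
  ring

lemma th_r4 {t : ℝ} (h0 : 7/10 ≤ t) (h1 : t ≤ 8/10) : th t = 8 - 10 * t := by
  rw [MT_th_of_mem (by linarith) (by linarith), MT_ph_right (by linarith),
    abs_of_nonneg (by linarith), max_eq_right (by linarith)]
  ring

/-- `θ` vanishes near the integers. -/
lemma th_near {t : ℝ} (h0 : -(2/10) ≤ t) (h1 : t ≤ 2/10) : th t = 0 := by
  rcases le_total 0 t with h | h
  · exact th_zero1 h h1
  · have h2 := th_add_int t 1
    have h3 := th_zero3 (t := t + 1) (by linarith) (by linarith)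
    push_cast at h2
    linarith

/-- On `[-3/10, 0]`, `θ t = max 0 (-2 - 10 t)` (this is the ramp `th_r4` seen at `t + 1`). -/
lemma th_neg {t : ℝ} (h0 : -(3/10) ≤ t) (h1 : t ≤ 0) : th t = max 0 (-2 - 10 * t) := by
  have h2 := th_add_int t 1
  push_cast at h2
  rcases le_total t (-(2/10)) with h | h
  · have h3 := th_r4 (t := t + 1) (by linarith) (by linarith)
    rw [max_eq_right (by linarith)]
    linarith
  · rw [max_eq_left (by linarith)]
    exact th_near h (by linarith)

/-- `|θ| ≤ 1`. -/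
lemma th_abs_le (t : ℝ) : |th t| ≤ 1 := by
  rw [MT_th_eq]
  have h1 : 0 ≤ |Int.fract t - 7/10| := abs_nonneg _
  have h2 : 0 ≤ |Int.fract t - 3/10| := abs_nonneg _
  have h3 : max 0 (1 - 10 * |Int.fract t - 7/10|) ≤ 1 := max_le (by norm_num) (by linarith)
  have h4 : max 0 (1 - 10 * |Int.fract t - 3/10|) ≤ 1 := max_le (by norm_num) (by linarith)
  have h5 : 0 ≤ max 0 (1 - 10 * |Int.fract t - 7/10|) := le_max_left _ _
  have h6 : 0 ≤ max 0 (1 - 10 * |Int.fract t - 3/10|) := le_max_left _ _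
  rw [abs_le, MT_ph]
  constructor <;> linarith

/-- `θ` is `10`-Lipschitz.  Proof idea: the bump `u ↦ max 0 (1 - 10 dist(u, c + ℤ))` is
`10`-Lipschitz; or: for `s ≤ t` with the same floor it follows from `abs_max_sub_max_le_abs`-type
inequalities; if the floors differ, compare through the integer `⌊t⌋` (where `θ = 0`):
`|θ t - θ s| ≤ |θ t - θ ⌊t⌋| + |θ (⌊s⌋+1) - θ s|` with `⌊s⌋ + 1 ≤ ⌊t⌋`. -/
lemma th_lip (s t : ℝ) : |th t - th s| ≤ 10 * |t - s| := by
  have key : ∀ s t : ℝ, s ≤ t → |th t - th s| ≤ 10 * (t - s) := by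
    intro s t h
    have hs := Int.floor_add_fract s
    have ht := Int.floor_add_fract t
    have r0 := Int.fract_nonneg s
    have r1 := Int.fract_lt_one s
    have r0' := Int.fract_nonneg t
    have r1' := Int.fract_lt_one t
    have hn : ⌊s⌋ ≤ ⌊t⌋ := Int.floor_le_floor h
    rw [MT_th_eq, MT_th_eq]
    generalize Int.fract s = r at *
    generalize Int.fract t = r' at *
    generalize ⌊s⌋ = n at *
    generalize ⌊t⌋ = n' at *
    subst hs
    subst ht
    rcases hn.eq_or_lt with h1 | h1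
    · subst h1
      have := MT_ph_lip (s := r) (t := r') (by linarith)
      linarith
    · have h2 : (n : ℝ) + 1 ≤ n' := by exact_mod_cast h1
      have h3 := MT_ph_lip (s := r) (t := 1) r1.le
      have h4 := MT_ph_lip (s := 0) (t := r') r0'
      rw [MT_ph_one] at h3
      rw [MT_ph_zero] at h4
      have h5 := abs_sub_le (MT_ph r') 0 (MT_ph r)
      linarith
  rcases le_total s t with h | h
  · rw [abs_of_nonneg (by linarith : 0 ≤ t - s)]
    exact key s t h
  · rw [abs_sub_comm (th t), abs_sub_comm t, abs_of_nonneg (by linarith : 0 ≤ s - t)]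
    exact key t s h

end H45T
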