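import Pool.Agent.Lib.H45Torus.EV

/-!
# Chunk TO: the homeomorphism of the torus induced by an element of `EE`
-/

namespace H45T

open Filter Topology Set

/-- `proj` is an open quotient map (`QuotientAddGroup.isOpenQuotientMap_mk` and
`IsOpenQuotientMap.prodMap`). -/
lemma isOpenQuotientMap_proj : IsOpenQuotientMap proj := by
  have h : IsOpenQuotientMap (fun x : ℝ => (x : UnitAddCircle)) :=
    QuotientAddGroup.isOpenQuotientMap_mk
  exact h.prodMap h

lemma continuous_proj : Continuous proj := isOpenQuotientMap_proj.continuous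

lemma surjective_proj : Function.Surjective proj := isOpenQuotientMap_proj.surjective

/-- Two points with the same projection differ by an integer vector
(`QuotientAddGroup.eq`, `AddSubgroup.mem_zmultiples_iff`). -/
lemma proj_eq_iff {z z' : Pl} : proj z = proj z' ↔ ∃ w : ℤ × ℤ, z' = z + iv w := by
  have key : ∀ x y : ℝ, (x : UnitAddCircle) = (y : UnitAddCircle) ↔ ∃ m : ℤ, y = x + m := by
    intro x y
    have h1 : (x : UnitAddCircle) = (y : UnitAddCircle) ↔
        -x + y ∈ AddSubgroup.zmultiples (1 : ℝ) := QuotientAddGroup.eq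
    rw [h1, AddSubgroup.mem_zmultiples_iff]
    constructor
    · rintro ⟨m, hm⟩
      refine ⟨m, ?_⟩
      rw [zsmul_eq_mul, mul_one] at hm
      linarith
    · rintro ⟨m, hm⟩
      refine ⟨m, ?_⟩
      rw [zsmul_eq_mul, mul_one]
      linarith
  constructor
  · intro h
    obtain ⟨m, hm⟩ := (key _ _).1 (congrArg Prod.fst h)
    obtain ⟨n, hn⟩ := (key _ _).1 (congrArg Prod.snd h)
    exact ⟨(m, n), Prod.ext hm hn⟩
  · rintro ⟨w, rfl⟩
    exact Prod.ext ((key _ _).2 ⟨w.1, rfl⟩) ((key _ _).2 ⟨w.2, rfl⟩)

@[simp] lemma proj_add_iv (z : Pl) (w : ℤ × ℤ) : proj (z + iv w) = proj z :=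
  (proj_eq_iff.2 ⟨w, rfl⟩).symm

@[simp] lemma proj_sub_iv (z : Pl) (w : ℤ × ℤ) : proj (z - iv w) = proj z := by
  have := proj_add_iv z (-w)
  simpa [sub_eq_add_neg] using this

/-- A lift of a point of the torus. -/
noncomputable def lf (x : T2) : Pl := (surjective_proj x).choose

@[simp] lemma proj_lf (x : T2) : proj (lf x) = x := (surjective_proj x).choose_spec

/-- The induced map of the torus. -/
noncomputable def dmap (g : EE) (x : T2) : T2 := proj (g • lf x)

lemma dmap_proj (g : EE) (z : Pl) : dmap g (proj z) = proj (g • z) := by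
  obtain ⟨w, hw⟩ := proj_eq_iff.1 (proj_lf (proj z))
  have h : proj (g • z) = proj (g • (lf (proj z) + iv w)) := by rw [← hw]
  rw [h, smul_add_iv, proj_add_iv]
  rfl

/-- Joint continuity: `IsOpenQuotientMap` is stable by product with the identity of the parameter
space (`IsOpenQuotientMap.prodMap`), and `(t, z) ↦ proj (γ t • z)` is continuous (`EV`). -/
lemma continuous_dmap {X : Type*} [TopologicalSpace X] {γ : X → EE} (hγ : Continuous γ) :
    Continuous fun p : X × T2 => dmap (γ p.1) p.2 := by
  have hq : IsOpenQuotientMap (Prod.map (id : X → X) proj) :=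
    IsOpenQuotientMap.id.prodMap isOpenQuotientMap_proj
  rw [← hq.continuous_comp_iff]
  have h1 : ((fun p : X × T2 => dmap (γ p.1) p.2) ∘ Prod.map (id : X → X) proj) =
      fun p : X × Pl => proj (γ p.1 • p.2) := by
    funext p
    exact dmap_proj _ _
  rw [h1]
  exact continuous_proj.comp ((hγ.comp continuous_fst).smul continuous_snd)

lemma continuous_dmap' (g : EE) : Continuous (dmap g) := by
  have := continuous_dmap (X := Unit) (γ := fun _ => g) continuous_const
  exact this.comp (Continuous.prodMk_right ())

/-- The induced homeomorphism of the torus. -/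
noncomputable def desc (g : EE) : T2 ≃ₜ T2 where
  toFun := dmap g
  invFun := dmap g⁻¹
  left_inv x := by
    obtain ⟨z, rfl⟩ := surjective_proj x
    rw [dmap_proj, dmap_proj, inv_smul_smul]
  right_inv x := by
    obtain ⟨z, rfl⟩ := surjective_proj x
    rw [dmap_proj, dmap_proj, smul_inv_smul]
  continuous_toFun := continuous_dmap' g
  continuous_invFun := continuous_dmap' g⁻¹

lemma desc_apply (g : EE) (x : T2) : desc g x = dmap g x := rfl

lemma desc_proj (g : EE) (z : Pl) : desc g (proj z) = proj (g • z) := dmap_proj g z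

lemma desc_one : desc 1 = Homeomorph.refl T2 := by
  ext x
  all_goals
    obtain ⟨z, rfl⟩ := surjective_proj x
    rw [desc_proj, one_smul]; rfl

lemma desc_iterate (g : EE) (n : ℕ) (z : Pl) : (desc g)^[n] (proj z) = proj (g ^ n • z) := by
  induction n generalizing z with
  | zero => simp
  | succ n ih => rw [Function.iterate_succ_apply, desc_proj, ih, pow_succ, mul_smul]

lemma isLift_desc (g : EE) : IsLift g.hom (desc g) := fun z => by
  rw [desc_proj, smul_eq_hom]

/-- The end point of a path of `EE` starting at `1` induces a homeomorphism isotopic to the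
identity. -/
lemma isotopicToId_desc (γ : C(unitInterval, EE)) (h0 : γ 0 = 1) : IsotopicToId (desc (γ 1)) := by
  refine ⟨fun t => desc (γ t), ?_, ?_, rfl⟩
  · exact continuous_dmap γ.continuous
  · show desc (γ 0) = _
    rw [h0, desc_one]

end H45T
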