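import Pool.Agent.Lib.H45Torus.BA
import Pool.Agent.Lib.H45Torus.HS
import Pool.Agent.Lib.H45Torus.TO

/-!
# The final theorem
-/

namespace H45T

open Filter Topology Set

lemma interior_KK : interior KK = ∅ := by
  have h : KK ⊆ Usᶜ := by
    intro z hz hz'
    exact hz (Or.inl hz')
  have h2 : interior (Usᶜ) = ∅ := interior_eq_empty_iff_dense_compl.2 (by simpa using dense_Us)
  exact subset_empty_iff.1 ((interior_mono h).trans h2.le)

/-- The image of `KK` in the torus is closed with empty interior. -/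
lemma proj_KK : IsClosed (proj '' KK) ∧ interior (proj '' KK) = ∅ := by
  have hpre : proj ⁻¹' (proj '' KK) = KK := by
    ext z
    constructor
    · rintro ⟨z', hz', h⟩
      obtain ⟨w, rfl⟩ := proj_eq_iff.1 h
      exact add_iv_mem_KK.2 hz'
    · intro hz
      exact ⟨z, hz, rfl⟩
  refine ⟨?_, ?_⟩
  · rw [← isOpenQuotientMap_proj.isQuotientMap.isClosed_preimage, hpre]
    exact isClosed_KK
  · rw [eq_empty_iff_forall_notMem]
    intro x hx
    obtain ⟨z, rfl⟩ := surjective_proj x
    have h1 : z ∈ interior (proj ⁻¹' (proj '' KK)) :=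
      preimage_interior_subset_interior_preimage continuous_proj hx
    rw [hpre, interior_KK] at h1
    exact h1

theorem main : ∃ f : T2 ≃ₜ T2, IsotopicToId f ∧ Transitive f ∧
    (∃ F : Pl ≃ₜ Pl, IsLift F f ∧ (interior (rotationSet F)).Nonempty) ∧
    interior (closure (periodicSet f)) = ∅ := by
  obtain ⟨γ, h0, hK, hT, hP⟩ := exists_generic
  refine ⟨desc (γ 1), isotopicToId_desc γ h0, ?_, ⟨(γ 1).hom, isLift_desc _,
    rotation_interior _ hK⟩, ?_⟩
  · intro U V hU hV hU' hV'
    obtain ⟨n, hn, w, z, hz, hzW⟩ := hT (proj ⁻¹' U) (proj ⁻¹' V) (hU.preimage continuous_proj)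
      (hV.preimage continuous_proj) (hU'.preimage surjective_proj) (hV'.preimage surjective_proj)
    refine ⟨n, hn, proj (γ 1 ^ n • z), ⟨proj z, hz, desc_iterate _ _ _⟩, ?_⟩
    have : proj (γ 1 ^ n • z - iv w) ∈ V := hzW
    rwa [proj_sub_iv] at this
  · have hsub : periodicSet (desc (γ 1)) ⊆ proj '' KK := by
      rintro x ⟨q, hq, hx⟩
      obtain ⟨z, rfl⟩ := surjective_proj x
      rw [desc_iterate] at hx
      obtain ⟨w, hw⟩ := proj_eq_iff.1 hx
      have h1 : γ 1 ^ q • z = z + iv (-w) := by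
        rw [iv_neg, ← sub_eq_add_neg, eq_sub_iff_add_eq]; exact hw.symm
      exact ⟨z, hP q hq z _ h1, rfl⟩
    have h2 : closure (periodicSet (desc (γ 1))) ⊆ proj '' KK :=
      closure_minimal hsub proj_KK.1
    exact subset_empty_iff.1 ((interior_mono h2).trans proj_KK.2.le)

end H45T
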