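import Pool.Agent.Lib.H45Torus.Basic

/-!
# Conjugation by the exchange of the coordinates
-/

namespace H45T

open Filter Topology Set

lemma swap_add_iv (z : Pl) (w : ℤ × ℤ) : (z + iv w).swap = z.swap + iv w.swap := by
  ext <;> simp

lemma swap_sub_iv (z : Pl) (w : ℤ × ℤ) : (z - iv w).swap = z.swap - iv w.swap := by
  ext <;> simp

/-- Conjugation of `f` by `(x, y) ↦ (y, x)`. -/
noncomputable def rc (f : EE) : EE :=
  EE.mk' (((Homeomorph.prodComm ℝ ℝ).trans f.hom).trans (Homeomorph.prodComm ℝ ℝ)) (by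
    intro z w
    show (f • (z + iv w).swap).swap = (f • z.swap).swap + iv w
    rw [swap_add_iv, smul_add_iv, swap_add_iv, Prod.swap_swap])

lemma rc_smul (f : EE) (z : Pl) : rc f • z = (f • z.swap).swap := rfl

lemma rc_inv_smul (f : EE) (z : Pl) : (rc f)⁻¹ • z = (f⁻¹ • z.swap).swap := rfl

@[simp] lemma rc_rc (f : EE) : rc (rc f) = f := EE.ext' fun z => by simp [rc_smul]

@[simp] lemma rc_one : rc 1 = 1 := EE.ext' fun z => by simp [rc_smul]

@[simp] lemma rc_mul (f g : EE) : rc (f * g) = rc f * rc g :=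
  EE.ext' fun z => by simp [rc_smul, mul_smul]

@[simp] lemma rc_inv (f : EE) : rc f⁻¹ = (rc f)⁻¹ := EE.ext' fun z => by
  rw [rc_smul, rc_inv_smul]

@[simp] lemma rc_pow (f : EE) (n : ℕ) : rc (f ^ n) = rc f ^ n := by
  induction n with
  | zero => simp
  | succ n ih => rw [pow_succ, pow_succ, rc_mul, ih]

lemma dist_swap (z z' : Pl) : dist z.swap z'.swap = dist z z' := by
  rw [Prod.dist_eq, Prod.dist_eq]; simp [max_comm]

lemma dist_rc (f g : EE) : dist (rc f) (rc g) = dist f g := by
  have key : ∀ f g : EE, dist (rc f) (rc g) ≤ dist f g := by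
    intro f g
    rw [dist_le_iff dist_nonneg]
    refine ⟨fun z => ?_, fun z => ?_⟩
    · rw [rc_smul, rc_smul, dist_swap]; exact dist_smul_le f g _
    · rw [rc_inv_smul, rc_inv_smul, dist_swap]; exact dist_inv_smul_le f g _
  exact le_antisymm (key f g) (by simpa using key (rc f) (rc g))

lemma isometry_rc : Isometry rc := Isometry.of_dist_eq dist_rc

lemma continuous_rc : Continuous rc := isometry_rc.continuous

end H45T
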