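import Pool.Agent.Lib.H45Torus.MA
import Pool.Agent.Lib.H45Torus.MT
import Pool.Agent.Lib.H45Torus.Swap

/-!
# The map `FF`, the sectors `Tri`, the open sets `Us`, `Uu`, the closed set `KK`
-/

namespace H45T

open Filter Topology Set

/-- `H (x, y) = (a x + θ y, y)` as a homeomorphism of the plane. -/
noncomputable def HH : Pl ≃ₜ Pl where
  toFun z := (aa z.1 + th z.2, z.2)
  invFun z := (bb (z.1 - th z.2), z.2)
  left_inv z := by simp [bb_aa]
  right_inv z := by simp [aa_bb]
  continuous_toFun := by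
    have h1 := continuous_aa
    have h2 := continuous_th
    fun_prop
  continuous_invFun := by
    have h1 := continuous_bb
    have h2 := continuous_th
    fun_prop

/-- `H` as an element of `EE`. -/
noncomputable def Hm : EE := EE.mk' HH (by
  intro z w
  show (aa (z.1 + w.1) + th (z.2 + w.2), z.2 + w.2) = (aa z.1 + th z.2, z.2) + iv w
  ext
  · simp [aa_add_int, th_add_int]; ring
  · simp)

lemma Hm_smul (z : Pl) : Hm • z = (aa z.1 + th z.2, z.2) := rfl

lemma Hm_inv_smul (z : Pl) : Hm⁻¹ • z = (bb (z.1 - th z.2), z.2) := rfl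

/-- The map of the construction: `F = V ∘ H` with `V = (R H R)⁻¹`, `V (x, y) = (x, b (y - θ x))`. -/
noncomputable def FF : EE := (rc Hm)⁻¹ * Hm

lemma FF_smul (x y : ℝ) :
    FF • ((x, y) : Pl) = (aa x + th y, bb (y - th (aa x + th y))) := by
  rw [FF, mul_smul, Hm_smul, rc_inv_smul]
  simp [Hm_inv_smul]

lemma FF_smul_fst (z : Pl) : (FF • z).1 = aa z.1 + th z.2 := by
  rw [show z = (z.1, z.2) from rfl, FF_smul]

lemma FF_smul_snd (z : Pl) : (FF • z).2 = bb (z.2 - th (aa z.1 + th z.2)) := by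
  rw [show z = (z.1, z.2) from rfl, FF_smul]

/-- The reversing symmetry. -/
lemma rc_FF : rc FF = FF⁻¹ := by
  rw [FF, rc_mul, rc_inv, rc_rc, mul_inv_rev, inv_inv]

lemma rc_FF_pow (n : ℕ) : rc (FF ^ n) = (FF ^ n)⁻¹ := by
  rw [rc_pow, rc_FF, inv_pow]

/-- `(FF ^ n)⁻¹` on `z` is the mirror image of `FF ^ n` on the mirror image of `z`. -/
lemma FF_pow_inv_smul (n : ℕ) (z : Pl) : (FF ^ n)⁻¹ • z = (FF ^ n • z.swap).swap := by
  rw [← rc_FF_pow, rc_smul]

/-- The concave function defining the sector. -/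
noncomputable def GG (z : Pl) : ℝ := min (1/5 - z.1/10 - 9*z.2) (11/5 + 99/10*z.1 - 9*z.2)

/-- The attracting sector at `0` (in the quadrant `x < 0 < y`). -/
def Tri : Set Pl := {z | z.1 < 0 ∧ 0 < z.2 ∧ 0 < GG z}

/-- The stable open set. -/
def Us : Set Pl := {z | ∃ (n : ℕ) (w : ℤ × ℤ), FF ^ n • z - iv w ∈ Tri}

/-- The unstable open set, mirror image of `Us`. -/
def Uu : Set Pl := {z | z.swap ∈ Us}

/-- The closed invariant set carrying the periodic points. -/
def KK : Set Pl := (Us ∪ Uu)ᶜ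

/-- The two open sides of the sector `Tri` (on the two axes). -/
def Side : Set Pl := {z | (z.1 = 0 ∧ 0 < z.2 ∧ z.2 < 1/45) ∨ (z.2 = 0 ∧ -(2/9) < z.1 ∧ z.1 < 0)}

/-- The points whose forward orbit reaches the sides of the (translates of the) sector. -/
def Ws : Set Pl := {z | ∃ (n : ℕ) (w : ℤ × ℤ), FF ^ n • z - iv w ∈ Side}

/-- Mirror image of `Ws`. -/
def Wu : Set Pl := {z | z.swap ∈ Ws}

/-- The component of `Uu` attached to the integer point `v`. -/
def Cu (v : ℤ × ℤ) : Set Pl := {z | ∃ n : ℕ, ((FF ^ n)⁻¹ • z - iv v).swap ∈ Tri}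

end H45T
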