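import Pool.Agent.Lib.H45Torus.TG
import Pool.Agent.Lib.H45Torus.CSp
import Pool.Agent.Lib.H45Torus.EV

/-!
# Chunk PER1: values of the partial products of the perturbation lemma
-/

namespace H45T

open Filter Topology Set

/-- The partial products: `h_0 = ψ`, `h_{n+1} = ψ * (F⁻¹ * h_n * F)`. -/
noncomputable def hseq (F ψ : EE) : ℕ → EE
  | 0 => ψ
  | n + 1 => ψ * (F⁻¹ * hseq F ψ n * F)

lemma PER1_mem (ψ : EE) (O : Set Pl) (hψ : ∀ z ∉ O, ψ • z = z) {z : Pl} (hz : z ∈ O) :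
    ψ • z ∈ O := by
  by_contra h
  have h1 := hψ _ h
  have h2 : ψ • z = z := smul_left_cancel ψ h1
  rw [h2] at h
  exact h hz

lemma PER1_step (F ψ : EE) (n : ℕ) (z : Pl) :
    hseq F ψ (n + 1) • z = ψ • F⁻¹ • hseq F ψ n • F • z := by
  show (ψ * (F⁻¹ * hseq F ψ n * F)) • z = _
  simp only [mul_smul]

/-- Values of the partial products.  By induction on `n` (for all `z`):
(a) if `F ^ m • z ∈ O` with `m ≤ n` then `hseq n • z = (F ^ m)⁻¹ • ψ • F ^ m • z`;
(b) if `F ^ m • z ∉ O` for all `m ≤ n` then `hseq n • z = z`.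
Note that `ψ • z ∈ O` for `z ∈ O` (otherwise `ψ • ψ • z = ψ • z`, so `ψ • z = z ∈ O`).
Step: if `z ∈ O` then `F ^ m • (F • z) ∉ O` for all `m` by freeness so (b) gives
`hseq n • F • z = F • z` and `hseq (n+1) • z = ψ • z`.  If `F ^ (m+1) • z ∈ O`, `m ≤ n`, then
`hseq n • F • z = (F ^ m)⁻¹ • ψ • F ^ (m+1) • z` so `F⁻¹ • hseq n • F • z =
(F ^ (m+1))⁻¹ • ψ • F ^ (m+1) • z =: z'`, with `F ^ (m+1) • z' = ψ • F ^ (m+1) • z ∈ O` so `z' ∉ O`
by freeness, and `ψ • z' = z'`.  Otherwise `hseq n • F • z = F • z`, `ψ • z = z`. -/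
lemma hseq_values (F ψ : EE) (O : Set Pl) (hψ : ∀ z ∉ O, ψ • z = z)
    (free : ∀ i : ℕ, 1 ≤ i → ∀ z ∈ O, F ^ i • z ∉ O) (n : ℕ) (z : Pl) :
    (∀ m ≤ n, F ^ m • z ∈ O → hseq F ψ n • z = (F ^ m)⁻¹ • ψ • F ^ m • z) ∧
      ((∀ m ≤ n, F ^ m • z ∉ O) → hseq F ψ n • z = z) := by
  induction n generalizing z with
  | zero =>
    refine ⟨fun m hm hz => ?_, fun h => ?_⟩
    · obtain rfl : m = 0 := by omega
      simp [hseq]
    · have := h 0 le_rfl
      rw [pow_zero, one_smul] at this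
      exact hψ z this
  | succ n ih =>
    have hF : ∀ k : ℕ, F ^ k • F • z = F ^ (k + 1) • z := fun k => by
      rw [pow_succ, mul_smul]
    refine ⟨fun m hm hz => ?_, fun h => ?_⟩
    · rcases m with _ | m
      · rw [pow_zero, one_smul] at hz
        rw [PER1_step, (ih (F • z)).2 (fun k hk => by
          rw [hF]; exact free (k + 1) (by omega) z hz)]
        simp
      · have h1 := (ih (F • z)).1 m (by omega) (by rw [hF]; exact hz)
        rw [PER1_step, h1, hF]
        have h2 : F⁻¹ • (F ^ m)⁻¹ • ψ • F ^ (m + 1) • z = (F ^ (m + 1))⁻¹ • ψ • F ^ (m + 1) • z := by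
          rw [← mul_smul F⁻¹, ← mul_inv_rev, ← pow_succ]
        rw [h2]
        apply hψ
        intro hmem
        have h3 := free (m + 1) (by omega) _ hmem
        rw [smul_inv_smul] at h3
        exact h3 (PER1_mem ψ O hψ hz)
    · rw [PER1_step, (ih (F • z)).2 (fun k hk => by rw [hF]; exact h (k + 1) (by omega)),
        inv_smul_smul]
      have := h 0 (by omega)
      rw [pow_zero, one_smul] at this
      exact hψ z this

end H45T
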