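import Pool.Agent.Lib.H45Torus.PER1

/-!
# Chunk PER2: the partial products form a Cauchy sequence
-/

namespace H45T

open Filter Topology Set

lemma PER2_mem_inv (ψ : EE) (O : Set Pl) (hψ : ∀ z ∉ O, ψ • z = z) {z : Pl} (hz : z ∈ O) :
    ψ⁻¹ • z ∈ O := by
  by_contra h
  have h1 := hψ _ h
  rw [smul_inv_smul] at h1
  rw [← h1] at h
  exact h hz

lemma PER2_inv_values (F ψ : EE) (O : Set Pl) (hψ : ∀ z ∉ O, ψ • z = z)
    (free : ∀ i : ℕ, 1 ≤ i → ∀ z ∈ O, F ^ i • z ∉ O) (n : ℕ) (y : Pl) :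
    (∀ m ≤ n, F ^ m • y ∈ O → (hseq F ψ n)⁻¹ • y = (F ^ m)⁻¹ • ψ⁻¹ • F ^ m • y) ∧
      ((∀ m ≤ n, F ^ m • y ∉ O) → (hseq F ψ n)⁻¹ • y = y) := by
  refine ⟨fun m hm hy => ?_, fun h => ?_⟩
  · rw [inv_smul_eq_iff]
    have h1 : F ^ m • (F ^ m)⁻¹ • ψ⁻¹ • F ^ m • y ∈ O := by
      rw [smul_inv_smul]
      exact PER2_mem_inv ψ O hψ hy
    rw [(hseq_values F ψ O hψ free n _).1 m hm h1, smul_inv_smul, smul_inv_smul, inv_smul_smul]
  · rw [inv_smul_eq_iff, (hseq_values F ψ O hψ free n y).2 h]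

/-- Consequence of `hseq_values`: `dist (hseq (n+1)) (hseq n) ≤ C (1/9)^(n+1)`.
For `z` with `F ^ m • z ∈ O`, `m ≤ n`, both values agree; if `F ^ (n+1) • z ∈ O` (then
`F ^ m • z ∉ O` for `m ≤ n` by freeness), the values are `(F ^ (n+1))⁻¹ • ψ • F ^ (n+1) • z` and
`z = (F ^ (n+1))⁻¹ • F ^ (n+1) • z`, at distance `≤ C (1/9)^(n+1)` by `small`; otherwise both are
`z`.  For the inverses: for every `y` put `z = (hseq (n+1))⁻¹ • y`, and use that
`hseq n` has the same structure: `(hseq n)⁻¹ • y` is `(F ^ m)⁻¹ • ψ⁻¹ • F ^ m • y` if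
`F ^ m • y ∈ O`, `m ≤ n`, and `y` if there is no such `m` (from `hseq_values` and
`ψ • z ∈ O ↔ z ∈ O`).  At the level `n+1`, `dist ((F ^ (n+1))⁻¹ • ψ⁻¹ • u) ((F ^ (n+1))⁻¹ • u)`,
`u ∈ O`, is bounded by `small` for `z = ψ⁻¹ • u ∈ O`. -/
lemma hseq_dist (F ψ : EE) (O : Set Pl) (C : ℝ) (hC : 0 ≤ C) (hψ : ∀ z ∉ O, ψ • z = z)
    (free : ∀ i : ℕ, 1 ≤ i → ∀ z ∈ O, F ^ i • z ∉ O)
    (small : ∀ i : ℕ, ∀ z ∈ O, dist ((F ^ i)⁻¹ • ψ • z) ((F ^ i)⁻¹ • z) ≤ C * (1/9 : ℝ) ^ i)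
    (n : ℕ) : dist (hseq F ψ (n + 1)) (hseq F ψ n) ≤ C * (1/9 : ℝ) ^ (n + 1) := by
  have hpos : 0 ≤ C * (1/9 : ℝ) ^ (n + 1) := by positivity
  rw [dist_le_iff hpos]
  constructor
  · intro z
    by_cases h1 : ∃ m ≤ n, F ^ m • z ∈ O
    · obtain ⟨m, hm, hz⟩ := h1
      rw [(hseq_values F ψ O hψ free (n + 1) z).1 m (by omega) hz,
        (hseq_values F ψ O hψ free n z).1 m hm hz, dist_self]
      exact hpos
    · push Not at h1
      rw [(hseq_values F ψ O hψ free n z).2 h1]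
      by_cases h2 : F ^ (n + 1) • z ∈ O
      · rw [(hseq_values F ψ O hψ free (n + 1) z).1 (n + 1) le_rfl h2]
        have h3 := small (n + 1) _ h2
        rwa [inv_smul_smul] at h3
      · rw [(hseq_values F ψ O hψ free (n + 1) z).2 (fun m hm => ?_), dist_self]
        · exact hpos
        · rcases Nat.lt_or_ge m (n + 1) with h | h
          · exact h1 m (by omega)
          · obtain rfl : m = n + 1 := by omega
            exact h2
  · intro z
    by_cases h1 : ∃ m ≤ n, F ^ m • z ∈ O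
    · obtain ⟨m, hm, hz⟩ := h1
      rw [(PER2_inv_values F ψ O hψ free (n + 1) z).1 m (by omega) hz,
        (PER2_inv_values F ψ O hψ free n z).1 m hm hz, dist_self]
      exact hpos
    · push Not at h1
      rw [(PER2_inv_values F ψ O hψ free n z).2 h1]
      by_cases h2 : F ^ (n + 1) • z ∈ O
      · rw [(PER2_inv_values F ψ O hψ free (n + 1) z).1 (n + 1) le_rfl h2]
        have h3 := small (n + 1) _ (PER2_mem_inv ψ O hψ h2)
        rw [smul_inv_smul, inv_smul_smul, dist_comm] at h3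
        exact h3
      · rw [(PER2_inv_values F ψ O hψ free (n + 1) z).2 (fun m hm => ?_), dist_self]
        · exact hpos
        · rcases Nat.lt_or_ge m (n + 1) with h | h
          · exact h1 m (by omega)
          · obtain rfl : m = n + 1 := by omega
            exact h2

end H45T
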