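import Pool.Agent.Lib.H45Torus.EDG
import Pool.Agent.Lib.H45Torus.COB

/-!
# Chunk PTA: frontier points of the sector in `Uu`
-/

namespace H45T

open Filter Topology Set

/-- A point of the closure of `Tri`, outside `Tri`, and in `Uu`, is on a side.
Proof: the closure is contained in `{z.1 ≤ 0, 0 ≤ z.2, 0 ≤ GG z}` (closed set).  By `edge_not_Uu`,
`GG z ≠ 0` so `GG z > 0`.  As `z ∉ Tri`, `z.1 = 0` or `z.2 = 0`; not both by `zero_not_Uu`.  If
`z.1 = 0`: `0 < z.2` and `1/5 - 9 z.2 > 0`; if `z.2 = 0`: `z.1 < 0` and `11/5 + 99/10 z.1 > 0`. -/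
lemma side_of_closure {z : Pl} (h : z ∈ closure Tri) (h' : z ∉ Tri) (hu : z ∈ Uu) : z ∈ Side := by
  have hcl : closure Tri ⊆ {z : Pl | z.1 ≤ 0 ∧ 0 ≤ z.2 ∧ 0 ≤ GG z} := by
    apply closure_minimal
    · rintro w ⟨h1, h2, h3⟩
      exact ⟨h1.le, h2.le, h3.le⟩
    · have hc : Continuous GG := by
        unfold GG
        fun_prop
      exact (isClosed_le continuous_fst continuous_const).inter
        ((isClosed_le continuous_const continuous_snd).inter (isClosed_le continuous_const hc))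
  obtain ⟨h1, h2, h3⟩ := hcl h
  have h4 : GG z ≠ 0 := fun he => edge_not_Uu h1 h2 he hu
  have h5 : 0 < GG z := lt_of_le_of_ne h3 (Ne.symm h4)
  have hz0 : z ≠ 0 := by
    rintro rfl
    exact zero_not_Uu hu
  have h6 : z.1 = 0 ∨ z.2 = 0 := by
    by_contra hcon
    push Not at hcon
    exact h' ⟨lt_of_le_of_ne h1 hcon.1, lt_of_le_of_ne h2 (Ne.symm hcon.2), h5⟩
  unfold GG at h5
  rw [lt_min_iff] at h5
  rcases h6 with h7 | h7
  · left
    refine ⟨h7, lt_of_le_of_ne h2 ?_, ?_⟩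
    · intro he
      exact hz0 (Prod.ext h7 he.symm)
    · rw [h7] at h5
      linarith [h5.1]
  · right
    refine ⟨h7, ?_, lt_of_le_of_ne h1 ?_⟩
    · rw [h7] at h5
      linarith [h5.2]
    · intro he
      exact hz0 (Prod.ext he h7)

end H45T
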