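import Pool.Agent.Lib.H45Torus.PTA

/-!
# Chunk PTH: a path of `Cu v` from a point of the sector to a side
-/

namespace H45T

open Filter Topology Set

/-- From a point `x` of the sector in `Cu v` there is a continuum of `Cu v`, contained in the
sector except for one point `s` on a side.
Proof: `Cu v` is open and preconnected, nonempty, so path connected
(`IsOpen.isConnected_iff_isPathConnected`); take `γ` a path in `Cu v` from `x` to a point outside
`Tri` (`exists_Cu_not_Tri`); let `t = sInf {t | γ t ∉ Tri}` (a nonempty compact set of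
`[0,1]`; `t` belongs to it), `s = γ t`, `S = γ '' [0, t]`.  `s` is in the closure of `Tri`
because `γ u ∈ Tri` for `u < t` (`t > 0` as `x ∈ Tri`), so `s ∈ Side` by `side_of_closure` and
`mem_Uu_iff_Cu`. -/
theorem side_path {x : Pl} {v : ℤ × ℤ} (hx : x ∈ Tri) (hv : x ∈ Cu v) :
    ∃ (S : Set Pl) (s : Pl), IsCompact S ∧ IsPreconnected S ∧ x ∈ S ∧ s ∈ S ∧ s ∈ Side ∧
      S ⊆ Cu v ∧ S ⊆ Tri ∪ {s} := by
  obtain ⟨y, hy, hyT⟩ := exists_Cu_not_Tri v
  have hpc : IsPathConnected (Cu v) :=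
    (isOpen_Cu v).isConnected_iff_isPathConnected.1 ⟨⟨x, hv⟩, isPreconnected_Cu v⟩
  obtain ⟨γ, hγ⟩ := hpc.joinedIn x hv y hy
  -- extend the path to a continuous function on the real line
  let g : ℝ → Pl := fun t => γ.extend t
  have hgc : Continuous g := γ.extend.continuous
  have hg0 : g 0 = x := γ.extend_zero
  have hg1 : g 1 = y := γ.extend_one
  have hgC : ∀ t : ℝ, g t ∈ Cu v := by
    intro t
    have : g t ∈ range γ := by
      rw [← γ.extend_range]
      exact mem_range_self t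
    obtain ⟨u, hu⟩ := this
    rw [← hu]
    exact hγ u
  set A : Set ℝ := Icc 0 1 ∩ g ⁻¹' Triᶜ with hA
  have hAc : IsCompact A :=
    isCompact_Icc.inter_right (isOpen_Tri.isClosed_compl.preimage hgc)
  have hAne : A.Nonempty := ⟨1, ⟨by norm_num, by norm_num⟩, by
    show g 1 ∉ Tri
    rw [hg1]; exact hyT⟩
  obtain ⟨t, htA, htmin⟩ := hAc.exists_isLeast hAne
  have ht0 : 0 < t := by
    rcases htA.1.1.lt_or_eq with h | h
    · exact h
    · exfalso
      apply htA.2
      rw [← h, hg0]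
      exact hx
  have hlt : ∀ u : ℝ, 0 ≤ u → u < t → g u ∈ Tri := by
    intro u hu0 hut
    by_contra hn
    have := htmin ⟨⟨hu0, hut.le.trans htA.1.2⟩, hn⟩
    linarith
  have hcl : g t ∈ closure Tri := by
    have h1 : t ∈ closure (Ico 0 t) := by
      rw [closure_Ico ht0.ne]
      exact ⟨ht0.le, le_rfl⟩
    have h2 : g t ∈ closure (g '' Ico 0 t) :=
      image_closure_subset_closure_image hgc ⟨t, h1, rfl⟩
    refine closure_mono ?_ h2
    rintro _ ⟨u, hu, rfl⟩
    exact hlt u hu.1 hu.2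
  have hside : g t ∈ Side :=
    side_of_closure hcl htA.2 (mem_Uu_iff_Cu.2 ⟨v, hgC t⟩)
  refine ⟨g '' Icc 0 t, g t, isCompact_Icc.image hgc, isPreconnected_Icc.image _ hgc.continuousOn,
    ⟨0, ⟨le_rfl, ht0.le⟩, hg0⟩, ⟨t, ⟨ht0.le, le_rfl⟩, rfl⟩, hside, ?_, ?_⟩
  · rintro _ ⟨u, _, rfl⟩
    exact hgC u
  · rintro _ ⟨u, hu, rfl⟩
    rcases hu.2.lt_or_eq with h | h
    · exact Or.inl (hlt u hu.1 h)
    · right
      rw [h]
      exact mem_singleton _

end H45T
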