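import Pool.Agent.Lib.H45Torus.CAP

/-!
# Chunk REA1: generic orbits
-/

namespace H45T

open Filter Topology Set

/-- The generic points: no coordinate is in `ℤ` or `1/10 + ℤ`. -/
def Gen : Set Pl := {z | Int.fract z.1 ≠ 0 ∧ Int.fract z.1 ≠ 1/10 ∧ Int.fract z.2 ≠ 0 ∧
  Int.fract z.2 ≠ 1/10}

/-- The reals which are not in `(1/10) ℤ`. -/
private def REA1_D : Set ℝ := (fun t : ℝ => 10 * t) ⁻¹' (range ((↑) : ℤ → ℝ))ᶜ

private lemma REA1_open : IsOpen REA1_D := by
  refine IsOpen.preimage (by fun_prop) ?_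
  exact Int.isClosedEmbedding_coe_real.isClosed_range.isOpen_compl

private lemma REA1_dense : Dense REA1_D := by
  have hc : (REA1_Dᶜ).Countable := by
    have h1 : REA1_Dᶜ ⊆ range (fun k : ℤ => (k : ℝ) / 10) := by
      intro t ht
      simp only [REA1_D, mem_compl_iff, mem_preimage, not_not] at ht
      obtain ⟨k, hk⟩ := ht
      exact ⟨k, by simp only [hk]; ring⟩
    exact (countable_range _).mono h1
  have := Set.Countable.dense_compl ℝ hc
  rwa [compl_compl] at this

private lemma REA1_fract {t : ℝ} (ht : t ∈ REA1_D) : Int.fract t ≠ 0 ∧ Int.fract t ≠ 1/10 := by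
  simp only [REA1_D, mem_preimage, mem_compl_iff] at ht
  have h0 := Int.floor_add_fract t
  constructor
  · intro h
    apply ht
    refine ⟨10 * ⌊t⌋, ?_⟩
    rw [h] at h0
    push_cast
    linarith
  · intro h
    apply ht
    refine ⟨10 * ⌊t⌋ + 1, ?_⟩
    rw [h] at h0
    push_cast
    linarith

/-- There is a dense set of points whose whole forward orbit is in `Gen`: `Gen` contains the
open dense set `{z | z.1, z.2 ∉ (1/10) ℤ}`; its preimages by the homeomorphisms `FF ^ n` are open
dense; Baire (`dense_iInter_of_isOpen`). -/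
lemma dense_gen_orbit : Dense {z : Pl | ∀ n : ℕ, FF ^ n • z ∈ Gen} := by
  have h0 : Dense (REA1_D ×ˢ REA1_D : Set Pl) := REA1_dense.prod REA1_dense
  have h1 : IsOpen (REA1_D ×ˢ REA1_D : Set Pl) := REA1_open.prod REA1_open
  have h2 : Dense (⋂ n : ℕ, (fun z : Pl => FF ^ n • z) ⁻¹' (REA1_D ×ˢ REA1_D : Set Pl)) := by
    refine dense_iInter_of_isOpen (fun n => ?_) (fun n => ?_)
    · exact h1.preimage (continuous_smul_pl _)
    · exact h0.preimage (FF ^ n).hom.isOpenMap
  refine h2.mono ?_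
  intro z hz n
  rw [mem_iInter] at hz
  have h3 := hz n
  simp only [mem_preimage, mem_prod] at h3
  exact ⟨(REA1_fract h3.1).1, (REA1_fract h3.1).2, (REA1_fract h3.2).1, (REA1_fract h3.2).2⟩

end H45T
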