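import Pool.Agent.Lib.H45Torus.REA1

/-!
# Chunk REA2: generic orbits reach the expansion regions
-/

namespace H45T

open Filter Topology Set

private lemma REA2_fract_add {t : ℝ} {k : ℤ} {r : ℝ} (h : t = r + k) (h0 : 0 ≤ r) (h1 : r < 1) :
    Int.fract t = r := by
  rw [h, Int.fract_add_intCast, Int.fract_eq_self]
  exact ⟨h0, h1⟩

/-- If the orbit of `z` is in `Gen` and `z ∉ Us` then some iterate is, modulo translations, in
`(0,1/10) × (0,1/10)` or in `(1/10,1) × (1/10,1)`.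
Proof: otherwise, for every `n`, let `(x_n, y_n)` be the fractional parts of `FF ^ n • z`
(both in `(0,1)`, different from `1/10`).  Not `x_n > 1/10, y_n > 1/10` by assumption; not
`x_n > 1/10`, `y_n < 1/10` by `capture` (`th_zero1`; `Us_add_iv`, `FF_pow_smul_mem_Us`); not
`x_n < 1/10, y_n < 1/10` by assumption; so `x_n < 1/10 < y_n` for all `n`.  If `y_n ≤ 9/10`:
`x' = 9 x_n + th y_n` is (mod 1) the first coordinate of the next iterate, its
fractional part is `x_{n+1} < 1/10` so `th x' = 0` (`th_near`, `th_add_int`), and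
`bb y_n = y_n/9 ≤ 1/10` is the second coordinate `y_{n+1}`: contradiction.  So `y_n > 9/10` for all
`n`, `th y_n = 0` (`th_zero3`), `x' = 9 x_n < 9/10` so `x_{n+1} = 9 x_n`; then `x_n = 9^n x_0 → ∞`,
a contradiction. -/
lemma reach_point {z : Pl} (hz : ∀ n : ℕ, FF ^ n • z ∈ Gen) (hU : z ∉ Us) :
    ∃ (n : ℕ) (w : ℤ × ℤ), FF ^ n • z - iv w ∈ Ioo (0:ℝ) (1/10) ×ˢ Ioo (0:ℝ) (1/10) ∨
      FF ^ n • z - iv w ∈ Ioo (1/10:ℝ) 1 ×ˢ Ioo (1/10:ℝ) 1 := by
  by_contra hcon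
  push Not at hcon
  have hpos : ∀ n : ℕ, 0 < Int.fract (FF ^ n • z).1 := fun n =>
    lt_of_le_of_ne (Int.fract_nonneg _) (Ne.symm (hz n).1)
  have hpos2 : ∀ n : ℕ, 0 < Int.fract (FF ^ n • z).2 := fun n =>
    lt_of_le_of_ne (Int.fract_nonneg _) (Ne.symm (hz n).2.2.1)
  have hlt : ∀ n : ℕ, Int.fract (FF ^ n • z).1 < 1 := fun n => Int.fract_lt_one _
  have hlt2 : ∀ n : ℕ, Int.fract (FF ^ n • z).2 < 1 := fun n => Int.fract_lt_one _
  have hsub : ∀ n : ℕ, FF ^ n • z - iv (⌊(FF ^ n • z).1⌋, ⌊(FF ^ n • z).2⌋) =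
      (Int.fract (FF ^ n • z).1, Int.fract (FF ^ n • z).2) := by
    intro n
    ext
    · simp
    · simp
  -- Claim A
  have hA : ∀ n : ℕ, Int.fract (FF ^ n • z).1 < 1/10 ∧ 1/10 < Int.fract (FF ^ n • z).2 := by
    intro n
    obtain ⟨g1, g2, g3, g4⟩ := hz n
    obtain ⟨c1, c2⟩ := hcon n (⌊(FF ^ n • z).1⌋, ⌊(FF ^ n • z).2⌋)
    rw [hsub n] at c1 c2
    rcases lt_or_gt_of_ne g2 with hx | hx
    · rcases lt_or_gt_of_ne g4 with hy | hy
      · exact absurd ⟨⟨hpos n, hx⟩, ⟨hpos2 n, hy⟩⟩ c1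
      · exact ⟨hx, hy⟩
    · exfalso
      rcases lt_or_gt_of_ne g4 with hy | hy
      · have hU' : ((Int.fract (FF ^ n • z).1, Int.fract (FF ^ n • z).2) : Pl) ∈ Us :=
          capture hx (hlt n) (hpos2 n) (by linarith) (th_zero1 (hpos2 n).le (by linarith))
        rw [← hsub n, Us_sub_iv, FF_pow_smul_mem_Us] at hU'
        exact hU hU'
      · exact c2 ⟨⟨hx, hlt n⟩, ⟨hy, hlt2 n⟩⟩
  have hX : ∀ n : ℕ, (FF ^ (n+1) • z).1 =
      9 * Int.fract (FF ^ n • z).1 + ⌊(FF ^ n • z).1⌋ + th (Int.fract (FF ^ n • z).2) := by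
    intro n
    rw [pow_succ', mul_smul, FF_smul_fst]
    have e1 : aa (FF ^ n • z).1 = 9 * Int.fract (FF ^ n • z).1 + ⌊(FF ^ n • z).1⌋ := by
      rw [← aa_lo (hpos n).le (hA n).1.le, ← aa_add_int, Int.fract_add_floor]
    have e2 : th (FF ^ n • z).2 = th (Int.fract (FF ^ n • z).2) := by
      rw [← th_add_int (Int.fract (FF ^ n • z).2) ⌊(FF ^ n • z).2⌋, Int.fract_add_floor]
    rw [e1, e2]
  have hB : ∀ n : ℕ, 9/10 < Int.fract (FF ^ n • z).2 := by
    intro n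
    by_contra hn
    push Not at hn
    have e3 : th (FF ^ (n+1) • z).1 = 0 := by
      rw [← Int.fract_add_floor (FF ^ (n+1) • z).1, th_add_int]
      exact th_zero1 (hpos (n+1)).le (by linarith [(hA (n+1)).1])
    have e4 : (FF ^ (n+1) • z).2 = Int.fract (FF ^ n • z).2 / 9 + ⌊(FF ^ n • z).2⌋ := by
      have e5 : (FF ^ (n+1) • z).2 = bb ((FF ^ n • z).2 - th (FF ^ (n+1) • z).1) := by
        rw [pow_succ', mul_smul, FF_smul_snd, FF_smul_fst]
      rw [e5, e3, sub_zero, ← bb_lo (hpos2 n).le hn, ← bb_add_int, Int.fract_add_floor]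
    have e6 := REA2_fract_add e4 (by linarith [hpos2 n]) (by linarith [hpos2 n])
    have e7 := (hA (n+1)).2
    rw [e6] at e7
    linarith
  have hC : ∀ n : ℕ, Int.fract (FF ^ (n+1) • z).1 = 9 * Int.fract (FF ^ n • z).1 := by
    intro n
    have e8 := hX n
    rw [th_zero3 (by linarith [hB n]) (hlt2 n).le, add_zero] at e8
    exact REA2_fract_add e8 (by linarith [hpos n]) (by linarith [(hA n).1])
  have hD : ∀ n : ℕ, Int.fract (FF ^ n • z).1 = 9 ^ n * Int.fract z.1 := by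
    intro n
    induction n with
    | zero => simp
    | succ n ih => rw [hC n, ih, pow_succ]; ring
  have hz0 : 0 < Int.fract z.1 := by simpa using hpos 0
  obtain ⟨n, hn⟩ := pow_unbounded_of_one_lt (1 / Int.fract z.1) (by norm_num : (1:ℝ) < 9)
  rw [div_lt_iff₀ hz0] at hn
  have e9 := hlt n
  rw [hD n] at e9
  linarith

end H45T
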