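import Pool.Agent.Lib.H45Torus.Basic

/-!
# Chunk THK: connected thickenings of a continuum
-/

namespace H45T

open Filter Topology Set

theorem THK_max {S : Set Pl} (hS : IsCompact S) {ε : ℝ} (hε : 0 < ε)
    (hd : ∀ z ∈ S, ∀ z' ∈ S, dist z z' < ε) :
    ∃ d : ℝ, 0 ≤ d ∧ d < ε ∧ ∀ z ∈ S, ∀ z' ∈ S, dist z z' ≤ d := by
  rcases S.eq_empty_or_nonempty with h | h
  · subst h
    exact ⟨0, le_rfl, hε, fun z hz => absurd hz (Set.notMem_empty z)⟩
  · obtain ⟨p, hp, hm⟩ := (hS.prod hS).exists_isMaxOn (h.prod h)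
      (f := fun p : Pl × Pl => dist p.1 p.2) (by fun_prop)
    refine ⟨dist p.1 p.2, dist_nonneg, hd _ hp.1 _ hp.2, fun z hz z' hz' => ?_⟩
    exact hm (show (z, z') ∈ S ×ˢ S from ⟨hz, hz'⟩)

theorem THK_conn {S : Set Pl} (hc : IsPreconnected S) (δ : ℝ) :
    IsPreconnected (Metric.thickening δ S) := by
  rcases S.eq_empty_or_nonempty with h | ⟨x, hx⟩
  · subst h
    rw [Metric.thickening_empty]
    exact isPreconnected_empty
  · rcases le_or_gt δ 0 with hδ | hδ
    · rw [Metric.thickening_of_nonpos hδ]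
      exact isPreconnected_empty
    · refine isPreconnected_of_forall x fun y hy => ?_
      obtain ⟨z, hz, hyz⟩ := Metric.mem_thickening_iff.1 hy
      refine ⟨S ∪ Metric.ball z δ, ?_, Or.inl hx, Or.inr hyz, ?_⟩
      · refine union_subset (Metric.self_subset_thickening hδ S) fun w hw => ?_
        exact Metric.mem_thickening_iff.2 ⟨z, hz, hw⟩
      · exact IsPreconnected.union z hz (Metric.mem_ball_self hδ) hc
          (convex_ball z δ).isPreconnected

theorem THK_free {S : Set Pl} (hS : IsCompact S) (N : ℕ) (f : ℕ → Pl → Pl)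
    (hf : ∀ i, Continuous (f i)) (hfree : ∀ i < N, ∀ z ∈ S, f i z ∉ S) (i : ℕ) :
    ∃ V : Set Pl, IsOpen V ∧ S ⊆ V ∧ (i < N → ∀ O ⊆ V, ∀ z ∈ O, f i z ∉ O) := by
  by_cases hi : i < N
  · have hdis : Disjoint (f i '' S) S := by
      rw [Set.disjoint_left]
      rintro _ ⟨z, hz, rfl⟩ h
      exact hfree i hi z hz h
    obtain ⟨A, B, hA, hB, hfA, hSB, hAB⟩ :=
      SeparatedNhds.of_isCompact_isCompact (hS.image (hf i)) hS hdis
    refine ⟨B ∩ f i ⁻¹' A, hB.inter (hA.preimage (hf i)), fun z hz => ⟨hSB hz, hfA ⟨z, hz, rfl⟩⟩,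
      fun _ O hO z hz h => ?_⟩
    exact Set.disjoint_left.1 hAB (hO hz).2 (hO h).1
  · exact ⟨univ, isOpen_univ, subset_univ _, fun h => absurd h hi⟩

/-- Thickening of a compact connected set keeping finitely many freeness conditions.
Proof: take `O = Metric.thickening δ S`, `δ > 0` small.  It is open; preconnected because `S` is
preconnected and `O` is the union of `S` and of the balls `ball z δ`, `z ∈ S` (convex, so
connected, each one meets `S`); its closure is in `Metric.cthickening δ S`, which is compact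
(`IsCompact.cthickening`) and contained in `W` for `δ` small
(`IsCompact.exists_cthickening_subset_open`); distances: `S` compact so the distances in `S` are
bounded by some `d < ε` (or `S` empty) and `d + 2 δ ≤ ε` for `δ` small.  Freeness for one `i`: `S` and
`f i '' S` are disjoint compact sets, so there are disjoint open sets `A ⊇ f i '' S`, `B ⊇ S`
(`SeparatedNhds`), and for `δ` small the thickening is contained in the open set
`B ∩ (f i) ⁻¹' A ⊇ S`.  Finitely many conditions: do the induction on `N`, or take a finite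
intersection `W' = W ∩ ⋂ i < N, (B i ∩ (f i)⁻¹' A i)` first, then choose `δ` once. -/
theorem thick {S : Set Pl} (hS : IsCompact S) (hc : IsPreconnected S) {W : Set Pl}
    (hW : IsOpen W) (hSW : S ⊆ W) {ε : ℝ} (hε : 0 < ε) (hd : ∀ z ∈ S, ∀ z' ∈ S, dist z z' < ε)
    (N : ℕ) (f : ℕ → Pl → Pl) (hf : ∀ i, Continuous (f i))
    (hfree : ∀ i < N, ∀ z ∈ S, f i z ∉ S) :
    ∃ O : Set Pl, IsOpen O ∧ IsPreconnected O ∧ S ⊆ O ∧ IsCompact (closure O) ∧ closure O ⊆ W ∧
      (∀ z ∈ O, ∀ z' ∈ O, dist z z' ≤ ε) ∧ ∀ i < N, ∀ z ∈ O, f i z ∉ O := by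
  obtain ⟨d, hd0, hdε, hdS⟩ := THK_max hS hε hd
  choose V hVo hVS hVf using THK_free hS N f hf hfree
  have hW' : IsOpen (W ∩ ⋂ i ∈ Finset.range N, V i) :=
    hW.inter (isOpen_biInter_finset fun i _ => hVo i)
  have hSW' : S ⊆ W ∩ ⋂ i ∈ Finset.range N, V i :=
    subset_inter hSW (subset_iInter₂ fun i _ => hVS i)
  obtain ⟨δ₁, hδ₁, hsub⟩ := hS.exists_cthickening_subset_open hW' hSW'
  set δ : ℝ := min δ₁ ((ε - d) / 2) with hδdef
  have hδ : 0 < δ := lt_min hδ₁ (by linarith)
  have hδ1 : δ ≤ δ₁ := min_le_left _ _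
  have hδ2 : δ ≤ (ε - d) / 2 := min_le_right _ _
  have hcl : closure (Metric.thickening δ S) ⊆ Metric.cthickening δ S :=
    Metric.closure_thickening_subset_cthickening δ S
  have hcl2 : closure (Metric.thickening δ S) ⊆ W ∩ ⋂ i ∈ Finset.range N, V i :=
    hcl.trans ((Metric.cthickening_mono hδ1 S).trans hsub)
  refine ⟨Metric.thickening δ S, Metric.isOpen_thickening, THK_conn hc δ,
    Metric.self_subset_thickening hδ S, ?_, fun z hz => (hcl2 hz).1, ?_, ?_⟩
  · exact (hS.cthickening).of_isClosed_subset isClosed_closure hcl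
  · intro z hz z' hz'
    obtain ⟨w, hw, hzw⟩ := Metric.mem_thickening_iff.1 hz
    obtain ⟨w', hw', hzw'⟩ := Metric.mem_thickening_iff.1 hz'
    have h1 := dist_triangle4 z w w' z'
    have h2 := hdS w hw w' hw'
    rw [dist_comm w' z'] at h1
    linarith
  · intro i hi
    refine hVf i hi _ fun z hz => ?_
    have h3 := (hcl2 (subset_closure hz)).2
    simp only [mem_iInter, Finset.mem_range] at h3
    exact h3 i hi

end H45T
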