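import Pool.Agent.Lib.H45Torus.PTH
import Pool.Agent.Lib.H45Torus.FRE
import Pool.Agent.Lib.H45Torus.THK

/-!
# Chunk SR: free connected open sets joining a point to a side of the sector
-/

namespace H45T

open Filter Topology Set

/-- On the closed box of `FF_tri`, `FF ^ n` is the homothety of ratio `(1/9)^n`. -/
lemma FF_pow_tri {z : Pl} (h1 : -(2/9) ≤ z.1) (h2 : z.1 ≤ 0) (h3 : 0 ≤ z.2) (h4 : z.2 ≤ 1/10)
    (n : ℕ) : FF ^ n • z = ((1/9 : ℝ) ^ n) • z := by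
  induction n generalizing z with
  | zero => simp
  | succ n ih =>
    rw [pow_succ, mul_smul, FF_tri h1 h2 h3 h4, ih, smul_smul, ← pow_succ]
    · show -(2/9) ≤ (1/9 : ℝ) * z.1
      linarith
    · show (1/9 : ℝ) * z.1 ≤ 0
      linarith
    · show 0 ≤ (1/9 : ℝ) * z.2
      linarith
    · show (1/9 : ℝ) * z.2 ≤ 1/10
      linarith

/-- Assembly.  `x ∈ Us`: there are `m₀`, `w` with `x₀ = FF ^ m₀ • x - iv w ∈ Tri`; `x₀ ∈ Uu`
(`FF_smul_mem_Uu`, `Uu_add_iv`), so `x₀ ∈ Cu v` for some `v` (`mem_Uu_iff_Cu`).  `side_path` gives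
`S`, `s`; all points of `S` are in the closed box of `FF_pow_tri` (`Tri_box`, `Side`), and
`S` has diameter `< 1`.  Let `j` with `(1/9)^j < ε` and `S_j = (FF ^ j • ·) '' S =
((1/9)^j • ·) '' S`, `x_j = FF ^ j • x₀ = FF ^ (j + m₀) • x - iv w`, `s_j = (1/9)^j • s ∈ Side`
(`FF_pow_smul_Side`), `S_j` compact, preconnected, `S_j ⊆ Cu v` (`FF_pow_smul_mem_Cu`), with
distances `< ε`.  `free_of_preconnected` for `S` gives that `FF ^ i • z ∉ S_j` for `z ∈ S_j`,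
`i ≥ 1` (`FF ^ i • z = (1/9)^i • z`; divide by `(1/9)^j`; or apply the lemma to `S_j` itself:
`x_j ∈ Tri` by `Tri_smul`).  Apply `thick` with `W = Cu v`, `N = 0`: `O₀`; let `N` be given by
`escape_Cu` for `closure O₀`; apply `thick` with `W = O₀`, `N`, `f i = (FF ^ (i+1) • ·)`: `O`.
Freeness of `O`: for `i ≤ N` by `thick`, for `i ≥ N` by `escape_Cu` (`O ⊆ closure O₀`).  The
last item is `shrink_Cu` for `closure O` (or `closure O₀`). -/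
theorem side_region {x : Pl} (hx : x ∈ Us) (hx' : x ∈ Uu) {ε : ℝ} (hε : 0 < ε) :
    ∃ (m : ℕ) (w v : ℤ × ℤ) (O : Set Pl) (s : Pl) (C : ℝ),
      IsOpen O ∧ IsPreconnected O ∧ (∀ z ∈ O, ∀ z' ∈ O, dist z z' ≤ ε) ∧
      FF ^ m • x - iv w ∈ O ∧ s ∈ O ∧ s ∈ Side ∧ O ⊆ Cu v ∧
      (∀ i : ℕ, 1 ≤ i → ∀ z ∈ O, FF ^ i • z ∉ O) ∧
      ∀ i : ℕ, ∀ z ∈ O, ∀ z' ∈ O,
        dist ((FF ^ i)⁻¹ • z) ((FF ^ i)⁻¹ • z') ≤ C * (1/9 : ℝ) ^ i := by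
  obtain ⟨m₀, w, hT⟩ := hx
  have hU0 : FF ^ m₀ • x - iv w ∈ Uu := by
    rw [sub_eq_add_neg, ← iv_neg, Uu_add_iv]
    have h1 : ∀ n : ℕ, FF ^ n • x ∈ Uu := by
      intro n
      induction n with
      | zero => simpa using hx'
      | succ n ih => rw [pow_succ', mul_smul, FF_smul_mem_Uu]; exact ih
    exact h1 m₀
  obtain ⟨x₀, hx₀⟩ : ∃ x₀, x₀ = FF ^ m₀ • x - iv w := ⟨_, rfl⟩
  rw [← hx₀] at hT hU0
  obtain ⟨v, hv⟩ := mem_Uu_iff_Cu.1 hU0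
  obtain ⟨S, s, hSc, hSp, hxS, hsS, hsSide, hSC, hST⟩ := side_path hT hv
  have hbox : ∀ z ∈ S, -(2/9) ≤ z.1 ∧ z.1 ≤ 0 ∧ 0 ≤ z.2 ∧ z.2 ≤ 1/10 := by
    intro z hz
    rcases hST hz with h | h
    · obtain ⟨h1, h2, h3, h4⟩ := Tri_box h
      exact ⟨h1.le, h2.le, h3.le, by linarith⟩
    · rw [mem_singleton_iff] at h
      rw [h]
      rcases hsSide with ⟨h1, h2, h3⟩ | ⟨h1, h2, h3⟩
      · exact ⟨by rw [h1]; norm_num, h1.le, h2.le, by linarith⟩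
      · exact ⟨h2.le, h3.le, h1.ge, by rw [h1]; norm_num⟩
  have hpow : ∀ z ∈ S, ∀ n : ℕ, FF ^ n • z = ((1/9 : ℝ) ^ n) • z := fun z hz n =>
    FF_pow_tri (hbox z hz).1 (hbox z hz).2.1 (hbox z hz).2.2.1 (hbox z hz).2.2.2 n
  obtain ⟨j, hj⟩ := exists_pow_lt_of_lt_one hε (by norm_num : (1/9 : ℝ) < 1)
  have hj0 : (0 : ℝ) < (1/9 : ℝ) ^ j := by positivity
  obtain ⟨Sj, hSj⟩ : ∃ Sj : Set Pl, Sj = (fun z : Pl => FF ^ j • z) '' S := ⟨_, rfl⟩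
  have hSjc : IsCompact Sj := by
    rw [hSj]
    exact hSc.image (continuous_smul_pl _)
  have hSjp : IsPreconnected Sj := by
    rw [hSj]
    exact hSp.image _ (continuous_smul_pl _).continuousOn
  have hSjC : Sj ⊆ Cu v := by
    rw [hSj]
    rintro _ ⟨z, hz, rfl⟩
    exact (FF_pow_smul_mem_Cu j).2 (hSC hz)
  have hdist : ∀ z ∈ Sj, ∀ z' ∈ Sj, dist z z' < ε := by
    rw [hSj]
    rintro _ ⟨z, hz, rfl⟩ _ ⟨z', hz', rfl⟩
    show dist (FF ^ j • z) (FF ^ j • z') < ε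
    rw [hpow z hz, hpow z' hz', dist_smul₀, Real.norm_eq_abs, abs_of_pos hj0]
    have h1 : dist z z' ≤ 1 := by
      rw [Prod.dist_eq, Real.dist_eq, Real.dist_eq]
      obtain ⟨a1, a2, a3, a4⟩ := hbox z hz
      obtain ⟨b1, b2, b3, b4⟩ := hbox z' hz'
      apply max_le <;> rw [abs_le] <;> constructor <;> linarith
    calc (1/9 : ℝ) ^ j * dist z z' ≤ (1/9 : ℝ) ^ j * 1 := mul_le_mul_of_nonneg_left h1 hj0.le
      _ = (1/9 : ℝ) ^ j := mul_one _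
      _ < ε := hj
  have hSU : S ⊆ Uu := fun z hz => mem_Uu_iff_Cu.2 ⟨v, hSC hz⟩
  have hfreeS := free_of_preconnected hSp hxS hT
    (fun z hz => ⟨(hbox z hz).2.1, (hbox z hz).2.2.1⟩) hSU
  have hfree : ∀ i : ℕ, 1 ≤ i → ∀ z ∈ Sj, FF ^ i • z ∉ Sj := by
    intro i hi
    rw [hSj]
    rintro _ ⟨z, hz, rfl⟩ ⟨z', hz', he⟩
    have he' : FF ^ j • z' = FF ^ i • FF ^ j • z := he
    rw [hpow z' hz', ← mul_smul, ← pow_add, hpow z hz, add_comm i j, pow_add, mul_smul] at he'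
    have h2 : z' = ((1/9 : ℝ) ^ i) • z := smul_right_injective Pl hj0.ne' he'
    exact hfreeS i hi z hz (h2 ▸ hz')
  obtain ⟨O₀, hO₀o, hO₀p, hSO₀, hO₀c, hO₀C, hO₀d, -⟩ := thick hSjc hSjp (isOpen_Cu v) hSjC hε
    hdist 0 (fun _ z => z) (fun _ => continuous_id) (fun i hi => absurd hi (Nat.not_lt_zero i))
  obtain ⟨N, hN⟩ := escape_Cu hO₀c hO₀C
  obtain ⟨C, hC0, hC⟩ := shrink_Cu hO₀c hO₀C
  obtain ⟨O, hOo, hOp, hSO, hOc, hOO₀, hOd, hOf⟩ := thick hSjc hSjp hO₀o hSO₀ hε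
    hdist N (fun i z => FF ^ (i + 1) • z) (fun i => continuous_smul_pl _)
    (fun i _ z hz => hfree (i + 1) (Nat.le_add_left 1 i) z hz)
  have hsub : O ⊆ O₀ := subset_closure.trans hOO₀
  have hsub' : O ⊆ closure O₀ := hsub.trans subset_closure
  refine ⟨j + m₀, w, v, O, FF ^ j • s, C, hOo, hOp, hOd, ?_, ?_, FF_pow_smul_Side hsSide j,
    hsub'.trans hO₀C, ?_, ?_⟩
  · apply hSO
    rw [hSj]
    refine ⟨x₀, hxS, ?_⟩
    show FF ^ j • x₀ = FF ^ (j + m₀) • x - iv w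
    rw [hx₀, smul_sub_iv, ← mul_smul, ← pow_add]
  · apply hSO
    rw [hSj]
    exact ⟨s, hsS, rfl⟩
  · intro i hi z hz
    rcases Nat.lt_or_ge N i with h | h
    · intro hc
      exact hN i h.le z (hsub' hz) (hsub' hc)
    · obtain ⟨k, rfl⟩ : ∃ k, i = k + 1 := ⟨i - 1, by omega⟩
      exact hOf k (by omega) z hz
  · intro i z hz z' hz'
    exact hC i z (hsub' hz) z' (hsub' hz')

end H45T
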