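import Pool.Agent.Lib.H45Torus.US

/-!
# Transitions: definition
-/

namespace H45T

open Filter Topology Set

/-- Some point of `A` is sent to a translate of `B` by a positive iterate of `FF`. -/
def Conn (A B : Set Pl) : Prop :=
  ∃ n : ℕ, 1 ≤ n ∧ ∃ w : ℤ × ℤ, ∃ z ∈ A, FF ^ n • z - iv w ∈ B

end H45T
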