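import Pool.Agent.Lib.H45Torus.TR0

/-!
# Chunk TR1: upper right to upper right
-/

namespace H45T

open Filter Topology Set

lemma TR1_pow {x y : ℝ} (hy : 0 < y) (hy' : y < 1/45) (hx : 0 < x) (hx' : x < 1/45) (j k : ℕ) :
    FF ^ k • (((1/9 : ℝ) ^ (j + k) * x, y) : Pl) = ((1/9 : ℝ) ^ j * x, (1/9 : ℝ) ^ k * y) := by
  induction k generalizing j with
  | zero => rw [pow_zero, one_smul, pow_zero, one_mul, add_zero]
  | succ k ih =>
    have h1 := ih (j + 1)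
    rw [show j + 1 + k = j + (k + 1) by ring] at h1
    have p1 : (0 : ℝ) < (1/9 : ℝ) ^ (j + 1) := by positivity
    have p2 : (1/9 : ℝ) ^ (j + 1) ≤ 1 := pow_le_one₀ (by norm_num) (by norm_num)
    have p3 : (0 : ℝ) < (1/9 : ℝ) ^ k := by positivity
    have p4 : (1/9 : ℝ) ^ k ≤ 1 := pow_le_one₀ (by norm_num) (by norm_num)
    rw [pow_succ', mul_smul, h1, FF_ne (by positivity) (by nlinarith) (by positivity)
      (by nlinarith)]
    ext
    · show 9 * ((1/9 : ℝ) ^ (j + 1) * x) = (1/9 : ℝ) ^ j * x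
      rw [pow_succ]
      ring
    · show (1/9 : ℝ) ^ k * y / 9 = (1/9 : ℝ) ^ (k + 1) * y
      rw [pow_succ]
      ring

/-- Upper right quadrant: for `m` large the point `(9^(-m) x, y) ∈ A` is sent by `FF ^ m` to
`(x, 9^(-m) y) ∈ B` (induction with `FF_ne`: `FF ^ k • (9^(-m) x, y) = (9^(k-m) x, 9^(-k) y)` for
`k ≤ m`, because `9^(k-m) x ≤ 1/45` and `FF_ne` is used for `k < m`). -/
lemma tr_ne_ne {x y : ℝ} (hy : 0 < y) (hy' : y < 1/45) (hx : 0 < x) (hx' : x < 1/45)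
    {A B : Set Pl} (hA : IsOpen A) (hB : IsOpen B) (h1 : ((0, y) : Pl) ∈ A)
    (h2 : ((x, 0) : Pl) ∈ B) : Conn A B := by
  have t0 : Tendsto (fun m : ℕ => (1/9 : ℝ) ^ m) atTop (𝓝 0) :=
    tendsto_pow_atTop_nhds_zero_of_lt_one (by norm_num) (by norm_num)
  have t1 : Tendsto (fun m : ℕ => (((1/9 : ℝ) ^ m * x, y) : Pl)) atTop (𝓝 (0, y)) := by
    have h3 := (t0.mul_const x).prodMk_nhds (tendsto_const_nhds (x := y) (f := atTop))
    rwa [zero_mul] at h3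
  have t2 : Tendsto (fun m : ℕ => ((x, (1/9 : ℝ) ^ m * y) : Pl)) atTop (𝓝 (x, 0)) := by
    have h3 := (tendsto_const_nhds (x := x) (f := atTop)).prodMk_nhds (t0.mul_const y)
    rwa [zero_mul] at h3
  obtain ⟨m, ⟨hm1, hm2⟩, hm3⟩ := (((t1.eventually (hA.mem_nhds h1)).and
    (t2.eventually (hB.mem_nhds h2))).and (eventually_ge_atTop 1)).exists
  refine ⟨m, hm3, 0, _, hm1, ?_⟩
  have h3 := TR1_pow hy hy' hx hx' 0 m
  rw [zero_add, pow_zero, one_mul] at h3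
  rw [h3, iv_zero, sub_zero]
  exact hm2

end H45T
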