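import Pool.Agent.Lib.H45Torus.TR0

/-!
# Chunk TR3: upper right to lower left
-/

namespace H45T

open Filter Topology Set

lemma TR3_ne_pow (m : ℕ) {x y : ℝ} (hx : 0 ≤ x) (hx' : x ≤ 1/5) (hy : 0 ≤ y) (hy' : y ≤ 1/10) :
    FF ^ m • (((1/9 : ℝ) ^ m * x, y) : Pl) = (x, (1/9 : ℝ) ^ m * y) := by
  induction m generalizing x with
  | zero => simp
  | succ m ih =>
    have e : ((1/9 : ℝ) ^ (m + 1) * x, y) = ((1/9 : ℝ) ^ m * (x / 9), y) := by
      rw [pow_succ]; congr 1; ring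
    rw [e, pow_succ', mul_smul, ih (by positivity) (by linarith)]
    have hq : (1/9 : ℝ) ^ m ≤ 1 := pow_le_one₀ (by norm_num) (by norm_num)
    have hq0 : (0 : ℝ) ≤ (1/9 : ℝ) ^ m := by positivity
    rw [FF_ne (by positivity) (by linarith) (by positivity) (by nlinarith)]
    ext
    · simp; ring
    · simp only [pow_succ]; ring

lemma TR3_sw_pow (j : ℕ) {x u : ℝ} (hx : 1/10 ≤ x) (hx' : x ≤ 1) (hu : -(9/10) ≤ u)
    (hu' : u ≤ 0) :
    FF ^ j • ((x, (1/9 : ℝ) ^ j * u) : Pl) = (1 - (1 - x) * (1/9 : ℝ) ^ j, u) := by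
  induction j generalizing x with
  | zero => simp
  | succ j ih =>
    have hq : (1/9 : ℝ) ^ j ≤ 1 := pow_le_one₀ (by norm_num) (by norm_num)
    have hq0 : (0 : ℝ) ≤ (1/9 : ℝ) ^ j := by positivity
    rw [pow_succ FF, mul_smul, FF_sw1 hx hx' (by rw [pow_succ]; nlinarith)
      (by rw [pow_succ]; nlinarith)]
    have e : 9 * ((1/9 : ℝ) ^ (j + 1) * u) = (1/9 : ℝ) ^ j * u := by rw [pow_succ]; ring
    rw [e, ih (by linarith) (by linarith)]
    ext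
    · simp only [pow_succ]; ring
    · simp

/-- From the upper right to the lower left quadrant.  For `m`, `j` large put `η = 9^(-m) y`,
`v = 9^(-1-j) (-u)` (`0 < v`), `x' = 6/10 + (η + v)/10` and `z = (9^(-m-1) x', y)`.
`z → (0, y)` as `m → ∞`, so `z ∈ A`.  `FF ^ m • z = (x'/9, η)` (`FF_ne`: for `k < m` the first
coordinate is `≤ x'/81 ≤ 1/45`), then `FF • (x'/9, η) = (x', -9 v)` by `FF_window`, and by
`FF_sw1` used `j` times (`-9^(1+k) v ≥ -1/10` for `k < j` because `9^(1+k) v = 9^(k-j) (-u) ≤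
(2/9)/9`), `FF ^ j • (x', -9v) = (1 - (1 - x')/9^j, -9^(1+j) v) = (1 - (1-x')/9^j, u)`.
Minus `iv (1, 0)` it tends to `(0, u) ∈ B` as `j → ∞` (uniformly in `m`). -/
lemma tr_ne_sw {y u : ℝ} (hy : 0 < y) (hy' : y < 1/45) (hu : -(2/9) < u) (hu' : u < 0)
    {A B : Set Pl} (hA : IsOpen A) (hB : IsOpen B) (h1 : ((0, y) : Pl) ∈ A)
    (h2 : ((0, u) : Pl) ∈ B) : Conn A B := by
  obtain ⟨εA, hεA, hbA⟩ := Metric.isOpen_iff.1 hA _ h1
  obtain ⟨εB, hεB, hbB⟩ := Metric.isOpen_iff.1 hB _ h2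
  obtain ⟨m, hm⟩ := exists_pow_lt_of_lt_one hεA (show (1/9 : ℝ) < 1 by norm_num)
  obtain ⟨j, hj⟩ := exists_pow_lt_of_lt_one hεB (show (1/9 : ℝ) < 1 by norm_num)
  have hm1 : (1/9 : ℝ) ^ m ≤ 1 := pow_le_one₀ (by norm_num) (by norm_num)
  have hm0 : (0 : ℝ) < (1/9 : ℝ) ^ m := by positivity
  have hj1 : (1/9 : ℝ) ^ j ≤ 1 := pow_le_one₀ (by norm_num) (by norm_num)
  have hj0 : (0 : ℝ) < (1/9 : ℝ) ^ j := by positivity
  set qm : ℝ := (1/9 : ℝ) ^ m with hqm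
  set qj : ℝ := (1/9 : ℝ) ^ j with hqj
  obtain ⟨v, hv⟩ : ∃ v : ℝ, v = qj * (-u) / 9 := ⟨_, rfl⟩
  obtain ⟨η, hη⟩ : ∃ η : ℝ, η = qm * y := ⟨_, rfl⟩
  have hv0 : 0 ≤ v := by rw [hv]; have := mul_nonneg hj0.le (neg_nonneg.2 hu'.le); linarith
  have hv1 : v ≤ 1/10 := by rw [hv]; nlinarith
  have hη0 : 0 ≤ η := by rw [hη]; positivity
  have hη1 : η ≤ 1/10 := by rw [hη]; nlinarith
  obtain ⟨x', hx'⟩ : ∃ x' : ℝ, x' = 6/10 + (η + v)/10 := ⟨_, rfl⟩
  have hx0 : 6/10 ≤ x' := by rw [hx']; linarith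
  have hx1 : x' ≤ 62/100 := by rw [hx']; linarith
  have s1 := TR3_ne_pow m (x := x'/9) (y := y) (by linarith) (by linarith) hy.le (by linarith)
  have s2 := FF_window (x := x'/9) (y := η) (v := v) (by linarith) (by linarith) hη0 hη1 hv0
    hv1 (by rw [hx']; ring)
  have s3 := TR3_sw_pow j (x := x') (u := u) (by linarith) (by linarith) (by linarith) hu'.le
  have e1 : -(9 * v) = qj * u := by rw [hv]; ring
  have e2 : 9 * (x' / 9) = x' := by ring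
  rw [e1, e2] at s2
  rw [← hqm, ← hη] at s1
  rw [← hqj] at s3
  refine ⟨j + 1 + m, by omega, (1, 0), (qm * (x'/9), y), hbA ?_, ?_⟩
  · rw [Metric.mem_ball, Prod.dist_eq, dist_self, Real.dist_eq, sub_zero, max_lt_iff]
    refine ⟨?_, hεA⟩
    rw [abs_of_nonneg (by positivity)]
    nlinarith
  · have : FF ^ (j + 1 + m) • ((qm * (x'/9), y) : Pl) = (1 - (1 - x') * qj, u) := by
      rw [pow_add, mul_smul, s1, pow_succ, mul_smul, s2, s3]
    rw [this]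
    apply hbB
    rw [Metric.mem_ball, Prod.dist_eq, Real.dist_eq, Real.dist_eq]
    simp only [Prod.fst_sub, Prod.snd_sub, iv_fst, iv_snd, Int.cast_one, Int.cast_zero, sub_zero,
      sub_self, abs_zero, max_lt_iff]
    refine ⟨?_, hεB⟩
    rw [show 1 - (1 - x') * qj - 1 = -((1 - x') * qj) by ring, abs_neg,
      abs_of_nonneg (mul_nonneg (by linarith) hj0.le)]
    nlinarith

end H45T
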