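import Pool.Agent.Lib.H45Torus.TR1
import Pool.Agent.Lib.H45Torus.TR2
import Pool.Agent.Lib.H45Torus.TR3

/-!
# Chunk TR4: reversibility and the four cases
-/

namespace H45T

open Filter Topology Set

/-- Reversibility.  If `z.swap ∈ B` and `p = FF ^ n • z - iv w`, `p.swap ∈ A`, then
`FF ^ n • p.swap = ((FF ^ n)⁻¹ • p).swap = (z - iv w).swap` (`FF_pow_inv_smul`, `smul_sub_iv`), which
is the translate of `z.swap ∈ B` by `- iv w.swap`. -/
lemma Conn_swap {A B : Set Pl} (h : Conn (Prod.swap ⁻¹' B) (Prod.swap ⁻¹' A)) : Conn A B := by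
  obtain ⟨n, hn, w, z, hz, hp⟩ := h
  refine ⟨n, hn, -w.swap, (FF ^ n • z - iv w).swap, hp, ?_⟩
  have h1 := FF_pow_inv_smul n (FF ^ n • z - iv w)
  rw [smul_sub_iv, inv_smul_smul] at h1
  have h2 : FF ^ n • (FF ^ n • z - iv w).swap = (z - iv w).swap := by
    rw [h1, Prod.swap_swap]
  rw [h2]
  have h3 : (z - iv w).swap - iv (-w.swap) = z.swap := by
    ext <;> simp
  rw [h3]
  exact hz

/-- From any side point to any mirror side point: four cases, the case lower left to upper right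
is `tr_ne_sw` and `Conn_swap`. -/
lemma tr_side {s t : Pl} (hs : s ∈ Side) (ht : t.swap ∈ Side) {A B : Set Pl} (hA : IsOpen A)
    (hB : IsOpen B) (h1 : s ∈ A) (h2 : t ∈ B) : Conn A B := by
  obtain ⟨s1, s2⟩ := s
  obtain ⟨t1, t2⟩ := t
  simp only [Side, Set.mem_ofPred_eq, Prod.swap] at hs ht
  rcases hs with ⟨rfl, hs1, hs2⟩ | ⟨rfl, hs1, hs2⟩
  · rcases ht with ⟨rfl, ht1, ht2⟩ | ⟨rfl, ht1, ht2⟩
    · exact tr_ne_ne hs1 hs2 ht1 ht2 hA hB h1 h2
    · exact tr_ne_sw hs1 hs2 ht1 ht2 hA hB h1 h2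
  · rcases ht with ⟨rfl, ht1, ht2⟩ | ⟨rfl, ht1, ht2⟩
    · exact Conn_swap (tr_ne_sw ht1 ht2 hs1 hs2 (hB.preimage continuous_swap)
        (hA.preimage continuous_swap) h2 h1)
    · exact tr_sw_sw hs1 hs2 ht1 ht2 hA hB h1 h2

end H45T
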