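import Pool.Agent.Lib.H45Torus.Basic

/-!
# Chunk UC: uniform continuity of the elements of `EE`
-/

namespace H45T

open Filter Topology Set

/-- Elements of `EE` are uniformly continuous.
Proof: `f` is uniformly continuous on the compact set `[-1,2] × [-1,2]`
(`IsCompact.uniformContinuousOn_of_continuous`).  Given `ε`, take `δ ≤ 1` for this compact.  For
`dist z z' < δ` take `w` with `z - iv w ∈ [0,1)²` (`exists_fract`); then `z' - iv w ∈ [-1,2]²`
(sup distance) and `f • (z - iv w) = f • z - iv w` (`smul_sub_iv`), same for `z'`. -/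
theorem uc (f : EE) : UniformContinuous (fun z : Pl => f • z) := by
  have hK : IsCompact (Icc (-1:ℝ) 2 ×ˢ Icc (-1:ℝ) 2 : Set Pl) := isCompact_Icc.prod isCompact_Icc
  have h := hK.uniformContinuousOn_of_continuous (continuous_smul_pl f).continuousOn
  rw [Metric.uniformContinuousOn_iff] at h
  rw [Metric.uniformContinuous_iff]
  intro ε hε
  obtain ⟨δ, hδ, H⟩ := h ε hε
  refine ⟨min δ 1, lt_min hδ one_pos, fun {a b} hab => ?_⟩
  obtain ⟨w, hw⟩ := exists_fract a
  have h1 : dist (a - iv w) (b - iv w) < min δ 1 := by rwa [dist_sub_right]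
  have h2 : dist (a - iv w) (b - iv w) < 1 := h1.trans_le (min_le_right _ _)
  rw [Prod.dist_eq, max_lt_iff, Real.dist_eq, Real.dist_eq, abs_lt, abs_lt] at h2
  obtain ⟨⟨hw1, hw2⟩, ⟨hw3, hw4⟩⟩ := hw
  have ha : a - iv w ∈ (Icc (-1:ℝ) 2 ×ˢ Icc (-1:ℝ) 2 : Set Pl) :=
    ⟨⟨by linarith, by linarith⟩, ⟨by linarith, by linarith⟩⟩
  have hb : b - iv w ∈ (Icc (-1:ℝ) 2 ×ˢ Icc (-1:ℝ) 2 : Set Pl) :=
    ⟨⟨by linarith [h2.1.1], by linarith [h2.1.1]⟩, ⟨by linarith [h2.2.1], by linarith [h2.2.1]⟩⟩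
  have h3 := H _ ha _ hb (h1.trans_le (min_le_left _ _))
  simp only [smul_sub_iv, dist_sub_right] at h3
  exact h3

end H45T
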