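import Pool.Agent.Lib.H45Torus.USA

/-!
# Chunk US: elementary facts on `Us`, `Uu`, `KK`
-/

namespace H45T

open Filter Topology Set

lemma isOpen_Us : IsOpen Us := by
  have h : Us = ⋃ (n : ℕ) (w : ℤ × ℤ), {z : Pl | FF ^ n • z - iv w ∈ Tri} := by
    ext z
    simp only [Set.mem_iUnion]
    exact Iff.rfl
  rw [h]
  exact isOpen_iUnion fun n => isOpen_iUnion fun w =>
    isOpen_Tri.preimage ((continuous_smul_pl (FF ^ n)).sub continuous_const)

lemma isOpen_Uu : IsOpen Uu := isOpen_Us.preimage continuous_swap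

lemma isClosed_KK : IsClosed KK := (isOpen_Us.union isOpen_Uu).isClosed_compl

lemma Us_add_iv {z : Pl} {w : ℤ × ℤ} : z + iv w ∈ Us ↔ z ∈ Us := by
  constructor
  · rintro ⟨n, v, h⟩
    refine ⟨n, v - w, ?_⟩
    rw [smul_add_iv] at h
    have e : FF ^ n • z - iv (v - w) = FF ^ n • z + iv w - iv v := by
      rw [iv_sub]; abel
    rwa [e]
  · rintro ⟨n, v, h⟩
    refine ⟨n, v + w, ?_⟩
    have e : FF ^ n • (z + iv w) - iv (v + w) = FF ^ n • z - iv v := by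
      rw [smul_add_iv, iv_add]; abel
    rwa [e]

lemma Us_sub_iv {z : Pl} {w : ℤ × ℤ} : z - iv w ∈ Us ↔ z ∈ Us := by
  have h := Us_add_iv (z := z) (w := -w)
  rwa [iv_neg, ← sub_eq_add_neg] at h

lemma Uu_add_iv {z : Pl} {w : ℤ × ℤ} : z + iv w ∈ Uu ↔ z ∈ Uu := by
  show (z + iv w).swap ∈ Us ↔ z.swap ∈ Us
  rw [swap_add_iv, Us_add_iv]

/-- Use `Tri_mono`. -/
lemma FF_smul_mem_Us {z : Pl} : FF • z ∈ Us ↔ z ∈ Us := by
  constructor
  · rintro ⟨n, v, h⟩
    refine ⟨n + 1, v, ?_⟩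
    rwa [pow_succ, mul_smul]
  · rintro ⟨n, v, h⟩
    refine ⟨n, v, ?_⟩
    have h1 := Tri_mono h (Nat.le_succ n)
    rwa [pow_succ, mul_smul] at h1

lemma FF_pow_smul_mem_Us {z : Pl} (n : ℕ) : FF ^ n • z ∈ Us ↔ z ∈ Us := by
  induction n with
  | zero => rw [pow_zero, one_smul]
  | succ n ih => rw [pow_succ', mul_smul, FF_smul_mem_Us, ih]

/-- From the case of `Us` and `rc_FF` (`(FF⁻¹ • z').swap = FF • z'.swap`). -/
lemma FF_smul_mem_Uu {z : Pl} : FF • z ∈ Uu ↔ z ∈ Uu := by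
  show (FF • z).swap ∈ Us ↔ z.swap ∈ Us
  have h1 := FF_pow_inv_smul 1 (FF • z)
  rw [pow_one, inv_smul_smul] at h1
  have h2 : z.swap = FF • (FF • z).swap := by
    conv_lhs => rw [h1]
    rw [Prod.swap_swap]
  rw [h2, FF_smul_mem_Us]

lemma FF_smul_mem_KK {z : Pl} : FF • z ∈ KK ↔ z ∈ KK := by
  unfold KK
  rw [Set.mem_compl_iff, Set.mem_compl_iff, Set.mem_union, Set.mem_union, FF_smul_mem_Us,
    FF_smul_mem_Uu]

lemma add_iv_mem_KK {z : Pl} {w : ℤ × ℤ} : z + iv w ∈ KK ↔ z ∈ KK := by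
  unfold KK
  rw [Set.mem_compl_iff, Set.mem_compl_iff, Set.mem_union, Set.mem_union, Us_add_iv,
    Uu_add_iv]

/-- `z ∈ Uu` in terms of the backward orbit (`FF_pow_inv_smul`). -/
lemma mem_Uu_iff {z : Pl} :
    z ∈ Uu ↔ ∃ (n : ℕ) (w : ℤ × ℤ), ((FF ^ n)⁻¹ • z - iv w).swap ∈ Tri := by
  have key : ∀ (n : ℕ) (w : ℤ × ℤ), ((FF ^ n)⁻¹ • z - iv w).swap =
      FF ^ n • z.swap - iv w.swap := by
    intro n w
    rw [swap_sub_iv, FF_pow_inv_smul, Prod.swap_swap]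
  constructor
  · rintro ⟨n, v, h⟩
    refine ⟨n, v.swap, ?_⟩
    rw [key, Prod.swap_swap]
    exact h
  · rintro ⟨n, w, h⟩
    rw [key] at h
    exact ⟨n, w.swap, h⟩

lemma US_Side_not_Tri {z : Pl} (hz : z ∈ Side) (w : ℤ × ℤ) : z - iv w ∉ Tri := by
  rcases hz with ⟨h, -, -⟩ | ⟨h, -, -⟩
  · exact not_mem_Tri_of_int_fst (n := 0) (by rw [h]; simp)
  · exact not_mem_Tri_of_int_snd (n := 0) (by rw [h]; simp)

/-- If `FF ^ n • z - iv w ∈ Side` then all later iterates (minus `iv w`) are in `Side`, whose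
points have an integer coordinate, so never in a translate of `Tri`; but if `z ∈ Us`, `Tri_mono`
puts a late iterate in a translate of `Tri`. -/
lemma Ws_not_Us {z : Pl} (hz : z ∈ Ws) : z ∉ Us := by
  rintro ⟨m, v, hm⟩
  obtain ⟨n, w, hn⟩ := hz
  have h1 := Tri_mono hm (Nat.le_add_left m n)
  have h2 := FF_pow_smul_Side hn m
  rw [smul_sub_iv, ← mul_smul, ← pow_add, add_comm m n] at h2
  have h3 := US_Side_not_Tri h2 (v - w)
  apply h3
  have e : FF ^ (n + m) • z - iv w - iv (v - w) = FF ^ (n + m) • z - iv v := by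
    rw [iv_sub]; abel
  rwa [e]

lemma Wu_not_Uu {z : Pl} (hz : z ∈ Wu) : z ∉ Uu := Ws_not_Us hz

lemma US_per {z : Pl} {q : ℕ} {w : ℤ × ℤ} (hq : 1 ≤ q) (h : FF ^ q • z = z + iv w) :
    z ∉ Us := by
  rintro ⟨n, v, hn⟩
  set p := FF ^ n • z - iv v with hp
  have h1 : FF ^ q • p = p + iv w := by
    rw [hp, smul_sub_iv, ← mul_smul, ← pow_add, add_comm q n, pow_add, mul_smul, h, smul_add_iv]
    abel
  have h2 := FF_pow_smul_Tri hn q
  rw [h1] at h2
  have h3 : p + iv w ∈ Tri := by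
    rw [h2]
    exact Tri_smul hn (by positivity) (pow_le_one₀ (by norm_num) (by norm_num))
  obtain ⟨b1, b2, -, -⟩ := Tri_box hn
  obtain ⟨b3, b4, -, -⟩ := Tri_box h3
  rw [Prod.fst_add, iv_fst] at b3 b4
  have h4 : w.1 = 0 := by
    have h5 : (w.1 : ℝ) < 1 := by linarith
    have h6 : (-1 : ℝ) < (w.1 : ℝ) := by linarith
    have h7 : w.1 < 1 := by exact_mod_cast h5
    have h8 : -1 < w.1 := by exact_mod_cast h6
    omega
  have h5 := congrArg Prod.fst h2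
  rw [Prod.fst_add, iv_fst, h4, Prod.smul_fst, smul_eq_mul, Int.cast_zero, add_zero] at h5
  have h6 : (1/9 : ℝ) ^ q < 1 := pow_lt_one₀ (by norm_num) (by norm_num) (by omega)
  nlinarith

/-- Periodic points (mod translations) are in `KK`.  Proof: let `FF ^ q • z = z + iv w`, `q ≥ 1` and
`z ∈ Us`.  By `Tri_mono` there are `v` and `n` with `p_n := FF ^ (q n) • z - iv v ∈ Tri` and
`p_{n+1} ∈ Tri`.  By `FF_pow_smul_Tri`, `p_{n+1} = (1/9)^q • p_n`; on the other hand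
`FF ^ (q n) • z = z + iv (n w)` so `p_{n+1} = p_n + iv w`.  The first coordinates of `p_n`, `p_{n+1}`
are in `(-2/9, 0)` so the integer `w.1` is `0`, hence `p_n.1 = (1/9)^q p_n.1`, so `p_n.1 = 0`,
a contradiction.  If `z ∈ Uu`: `z.swap ∈ Us` and from `FF_pow_inv_smul` (applied to `FF ^ q • z`)
`FF ^ q • z.swap = z.swap - iv w.swap`: same argument with `-w.swap`. -/
lemma periodic_mem_KK {z : Pl} {q : ℕ} {w : ℤ × ℤ} (hq : 1 ≤ q) (h : FF ^ q • z = z + iv w) :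
    z ∈ KK := by
  rintro (h1 | h1)
  · exact US_per hq h h1
  · have h2 := FF_pow_inv_smul q (FF ^ q • z)
    rw [inv_smul_smul, h, swap_add_iv, smul_add_iv, swap_add_iv, Prod.swap_swap] at h2
    have h3 : FF ^ q • z.swap = z.swap + iv (-w.swap) := by
      have h4 := congrArg Prod.swap h2
      rw [swap_add_iv, Prod.swap_swap] at h4
      rw [iv_neg]
      exact eq_add_neg_of_add_eq h4.symm
    exact US_per hq h3 h1

end H45T
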