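import Pool.Agent.Lib.H45Torus.FO

/-!
# Chunk USA: the sector `Tri`
-/

namespace H45T

open Filter Topology Set

lemma USA_continuous_GG : Continuous GG := by
  unfold GG
  fun_prop

/-- `GG z > 0` in terms of the two affine functions. -/
lemma USA_GG_pos {z : Pl} :
    0 < GG z ↔ 0 < 1/5 - z.1/10 - 9*z.2 ∧ 0 < 11/5 + 99/10*z.1 - 9*z.2 := by
  unfold GG
  exact lt_min_iff

/-- The sector lies in the box `(-2/9, 0) × (0, 2/81)`: from `GG z > 0`,
`11/5 + 99/10 x > 9 y > 0` and `9 y < 1/5 - x/10 < 2/9`. -/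
lemma Tri_box {z : Pl} (hz : z ∈ Tri) : -(2/9) < z.1 ∧ z.1 < 0 ∧ 0 < z.2 ∧ z.2 < 2/81 := by
  obtain ⟨h1, h2, h3⟩ := hz
  rw [USA_GG_pos] at h3
  obtain ⟨h3, h4⟩ := h3
  have h5 : -(2/9) < z.1 := by linarith
  exact ⟨h5, h1, h2, by linarith⟩

lemma isOpen_Tri : IsOpen Tri := by
  have h1 : IsOpen {z : Pl | z.1 < 0} := isOpen_lt continuous_fst continuous_const
  have h2 : IsOpen {z : Pl | 0 < z.2} := isOpen_lt continuous_const continuous_snd
  have h3 : IsOpen {z : Pl | 0 < GG z} := isOpen_lt continuous_const USA_continuous_GG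
  exact h1.inter (h2.inter h3)

lemma convex_Tri : Convex ℝ Tri := by
  rintro z ⟨h1, h2, h3⟩ z' ⟨h1', h2', h3'⟩ a b ha hb hab
  rw [USA_GG_pos] at h3 h3'
  have key : ∀ u v : ℝ, 0 < u → 0 < v → 0 < a * u + b * v := by
    intro u v hu hv
    rcases eq_or_lt_of_le ha with h | h
    · have : b = 1 := by linarith
      rw [← h, this]
      linarith
    · have := mul_nonneg hb hv.le
      have := mul_pos h hu
      linarith
  refine ⟨?_, ?_, ?_⟩
  · have := key (-z.1) (-z'.1) (by linarith) (by linarith)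
    show (a • z + b • z').1 < 0
    simp only [Prod.fst_add, Prod.smul_fst, smul_eq_mul]
    linarith
  · have := key z.2 z'.2 h2 h2'
    show 0 < (a • z + b • z').2
    simp only [Prod.snd_add, Prod.smul_snd, smul_eq_mul]
    linarith
  · show 0 < GG (a • z + b • z')
    rw [USA_GG_pos]
    simp only [Prod.fst_add, Prod.snd_add, Prod.smul_fst, Prod.smul_snd, smul_eq_mul]
    have k1 := key _ _ h3.1 h3'.1
    have k2 := key _ _ h3.2 h3'.2
    have e : b = 1 - a := by linarith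
    subst e
    constructor
    · linarith
    · linarith

lemma Tri_nonempty : Tri.Nonempty := by
  refine ⟨(-(1/100), 1/100), ?_, ?_, ?_⟩
  · show (-(1/100) : ℝ) < 0
    norm_num
  · show (0 : ℝ) < 1/100
    norm_num
  · show 0 < GG (-(1/100), 1/100)
    rw [USA_GG_pos]
    norm_num

/-- `GG` is the minimum of two affine functions positive at `0`. -/
lemma GG_smul_pos {z : Pl} (hz : 0 < GG z) {c : ℝ} (h0 : 0 ≤ c) (h1 : c ≤ 1) :
    0 < GG (c • z) := by
  rw [USA_GG_pos] at hz ⊢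
  simp only [Prod.smul_fst, Prod.smul_snd, smul_eq_mul]
  obtain ⟨h2, h3⟩ := hz
  constructor
  · have := mul_nonneg h0 h2.le
    rcases eq_or_lt_of_le h0 with h | h
    · rw [← h]; norm_num
    · have := mul_pos h h2
      nlinarith
  · have := mul_nonneg h0 h3.le
    rcases eq_or_lt_of_le h0 with h | h
    · rw [← h]; norm_num
    · have := mul_pos h h3
      nlinarith

lemma Tri_smul {z : Pl} (hz : z ∈ Tri) {c : ℝ} (h0 : 0 < c) (h1 : c ≤ 1) : c • z ∈ Tri := by
  obtain ⟨h2, h3, h4⟩ := hz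
  refine ⟨?_, ?_, GG_smul_pos h4 h0.le h1⟩
  · show c * z.1 < 0
    exact mul_neg_of_pos_of_neg h0 h2
  · show 0 < c * z.2
    exact mul_pos h0 h3

/-- `FF_tri`. -/
lemma FF_smul_Tri {z : Pl} (hz : z ∈ Tri) : FF • z = ((1/9 : ℝ)) • z := by
  obtain ⟨h1, h2, h3, h4⟩ := Tri_box hz
  exact FF_tri h1.le h2.le h3.le (by linarith)

/-- Induction from `FF_smul_Tri`, `Tri_smul`. -/
lemma FF_pow_smul_Tri {z : Pl} (hz : z ∈ Tri) (n : ℕ) :
    FF ^ n • z = ((1/9 : ℝ) ^ n) • z := by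
  induction n with
  | zero => rw [pow_zero, pow_zero, one_smul, one_smul]
  | succ n ih =>
    have h1 : ((1/9 : ℝ) ^ n) • z ∈ Tri :=
      Tri_smul hz (by positivity) (pow_le_one₀ (by norm_num) (by norm_num))
    rw [pow_succ', mul_smul, ih, FF_smul_Tri h1, smul_smul, pow_succ']

/-- `FF ^ n • z - iv w ∈ Tri` implies the same for all larger exponents (`smul_sub_iv`). -/
lemma Tri_mono {z : Pl} {n m : ℕ} {w : ℤ × ℤ} (h : FF ^ n • z - iv w ∈ Tri) (hnm : n ≤ m) :
    FF ^ m • z - iv w ∈ Tri := by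
  obtain ⟨k, rfl⟩ := Nat.exists_eq_add_of_le hnm
  rw [add_comm, pow_add, mul_smul, ← smul_sub_iv, FF_pow_smul_Tri h]
  exact Tri_smul h (by positivity) (pow_le_one₀ (by norm_num) (by norm_num))

/-- A point whose coordinates are such that one is an integer is in no translate of `Tri`. -/
lemma not_mem_Tri_of_int_fst {z : Pl} {w : ℤ × ℤ} {n : ℤ} (h : z.1 = n) : z - iv w ∉ Tri := by
  intro hz
  obtain ⟨h1, h2, -, -⟩ := Tri_box hz
  rw [Prod.fst_sub, iv_fst, h] at h1 h2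
  have h3 : ((n - w.1 : ℤ) : ℝ) < 0 := by push_cast; exact h2
  have h4 : (-1 : ℝ) < ((n - w.1 : ℤ) : ℝ) := by push_cast; linarith
  have h5 : n - w.1 < 0 := by exact_mod_cast h3
  have h6 : -1 < n - w.1 := by exact_mod_cast h4
  omega

lemma not_mem_Tri_of_int_snd {z : Pl} {w : ℤ × ℤ} {n : ℤ} (h : z.2 = n) : z - iv w ∉ Tri := by
  intro hz
  obtain ⟨-, -, h1, h2⟩ := Tri_box hz
  rw [Prod.snd_sub, iv_snd, h] at h1 h2
  have h3 : (0 : ℝ) < ((n - w.2 : ℤ) : ℝ) := by push_cast; exact h1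
  have h4 : ((n - w.2 : ℤ) : ℝ) < 1 := by push_cast; linarith
  have h5 : 0 < n - w.2 := by exact_mod_cast h3
  have h6 : n - w.2 < 1 := by exact_mod_cast h4
  omega

/-- The sides are sent into themselves: `FF • z = (1/9) • z` there (`FF_tri`). -/
lemma FF_smul_Side {z : Pl} (hz : z ∈ Side) : FF • z ∈ Side := by
  rcases hz with ⟨h1, h2, h3⟩ | ⟨h1, h2, h3⟩
  · rw [FF_tri (by rw [h1]; norm_num) h1.le h2.le (by linarith)]
    left
    refine ⟨?_, ?_, ?_⟩
    · show (1/9 : ℝ) * z.1 = 0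
      rw [h1, mul_zero]
    · show 0 < (1/9 : ℝ) * z.2
      linarith
    · show (1/9 : ℝ) * z.2 < 1/45
      linarith
  · rw [FF_tri h2.le h3.le h1.ge (by rw [h1]; norm_num)]
    right
    refine ⟨?_, ?_, ?_⟩
    · show (1/9 : ℝ) * z.2 = 0
      rw [h1, mul_zero]
    · show -(2/9) < (1/9 : ℝ) * z.1
      linarith
    · show (1/9 : ℝ) * z.1 < 0
      linarith

lemma FF_pow_smul_Side {z : Pl} (hz : z ∈ Side) (n : ℕ) : FF ^ n • z ∈ Side := by
  induction n with
  | zero => rwa [pow_zero, one_smul]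
  | succ n ih =>
    rw [pow_succ', mul_smul]
    exact FF_smul_Side ih

end H45T
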