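import Pool.Agent.Lib.H45Torus.CAP

/-!
# Chunk VMC: pointwise classification for the step `MSet`
-/

namespace H45T

open Filter Topology Set

lemma VMC_key {t v : ℝ} (h1 : 1/10 < t) (h2 : t < 1) (h : ((t, v) : Pl) ∉ Us) (m : ℤ)
    (h3 : 0 < v - m) (h4 : v - m ≤ 1/10) : False := by
  have h5 : ((t, v - m) : Pl) ∈ Us :=
    capture h1 h2 h3 (by linarith) (th_zero1 h3.le (by linarith))
  apply h
  rw [← Us_sub_iv (w := (0, m))]
  have h6 : ((t, v) : Pl) - iv (0, m) = (t, v - m) := by ext <;> simp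
  rw [h6]
  exact h5

/-- `0 < u ≤ 9/10` is impossible. -/
lemma VMC_a {t u : ℝ} (h1 : 1/10 < t) (h2 : t < 1) (h : ((t, bb u) : Pl) ∉ Us)
    (h3 : 0 < u) (h4 : u ≤ 9/10) : False := by
  rw [bb_lo h3.le h4] at h
  refine VMC_key h1 h2 h 0 ?_ ?_ <;> push_cast <;> linarith

/-- `1 < u ≤ 19/10` is impossible. -/
lemma VMC_b {t u : ℝ} (h1 : 1/10 < t) (h2 : t < 1) (h : ((t, bb u) : Pl) ∉ Us)
    (h3 : 1 < u) (h4 : u ≤ 19/10) : False := by
  have e : bb u = (u - 1) / 9 + 1 := by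
    have h5 := bb_add_int (u - 1) 1
    have h6 : bb (u - 1) = (u - 1) / 9 := bb_lo (by linarith) (by linarith)
    rw [h6] at h5
    push_cast at h5
    rw [← h5]
    congr 1
    ring
  rw [e] at h
  refine VMC_key h1 h2 h 1 ?_ ?_ <;> push_cast <;> linarith

/-- `-1 < u ≤ -1/10` is impossible. -/
lemma VMC_c {t u : ℝ} (h1 : 1/10 < t) (h2 : t < 1) (h : ((t, bb u) : Pl) ∉ Us)
    (h3 : -1 < u) (h4 : u ≤ -(1/10)) : False := by
  rw [bb_neg' h3.le h4] at h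
  refine VMC_key h1 h2 h (-1) ?_ ?_ <;> push_cast <;> linarith

/-- Pointwise classification.  Let `t ∈ [0,1)`, `n` an integer, `z = (n + t, y)`, `0 < y < 9/10`
and `V z = (n + t, bb (y - th t)) ∉ Us`.  Then one of:
`t ≤ 1/10`; or
`t ∈ (2/10,3/10) ∪ (3/10,4/10)` and `u = y - th t ∈ (9/10, 1]`; or
`t ∈ (6/10,7/10) ∪ (7/10,8/10)` and `u = y - th t ∈ (-1/10, 0]`.
Proof: suppose `t > 1/10`.  If `th t = 0`, `bb y = y/9 ∈ (0, 1/10)` and `(t, y/9) ∈ Us` by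
`capture` (translate by `n`: `Us_add_iv`), contradiction; so `t ∈ (2/10,4/10) ∪ (6/10,8/10)`.
First case: `-th t ∈ (0,1]`, `u ∈ (0, 19/10)`.  If `u < 9/10`, `bb u = u/9 ∈ (0,1/10)`: `capture`.
If `u = 9/10`, `bb u = 1/10`: `capture` (`th (1/10) = 0`).  If `u > 1`: `bb u = 1 + (u-1)/9`,
`(u - 1)/9 ∈ (0,1/10)`: `capture` after translating.  At `t = 3/10`, `u = y + 1 > 1`: excluded.
Second case: `th t ∈ (0,1]`, `u ∈ (-1, 9/10)`.  If `u > 0`: `bb u = u/9`: `capture`.  If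
`u < -1/10`: `bb u = (u - 8)/9 = -1 + (u+1)/9`, `(u+1)/9 ∈ (0, 1/10)`: `capture`.  If `u = -1/10`:
`bb u = -9/10 = -1 + 1/10`: `capture`.  At `t = 7/10`, `u = y - 1 < -1/10`: excluded. -/
lemma V_class {n : ℤ} {t y : ℝ} (ht0 : 0 ≤ t) (ht1 : t < 1) (hy0 : 0 < y) (hy1 : y < 9/10)
    (h : (rc Hm)⁻¹ • (((n : ℝ) + t, y) : Pl) ∉ Us) :
    t ≤ 1/10 ∨
      (((2/10 < t ∧ t < 3/10) ∨ (3/10 < t ∧ t < 4/10)) ∧ 9/10 < y - th t ∧ y - th t ≤ 1) ∨
      (((6/10 < t ∧ t < 7/10) ∨ (7/10 < t ∧ t < 8/10)) ∧ -(1/10) < y - th t ∧ y - th t ≤ 0) := by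
  have e : (rc Hm)⁻¹ • (((n : ℝ) + t, y) : Pl) = ((t, bb (y - th t)) : Pl) + iv (n, 0) := by
    rw [V_smul]
    have e1 : th ((n : ℝ) + t) = th t := by rw [add_comm]; exact th_add_int t n
    ext
    · simp [add_comm]
    · simp [e1]
  rw [e, Us_add_iv] at h
  rcases le_or_gt t (1/10) with h1 | h1
  · exact Or.inl h1
  right
  rcases le_or_gt t (2/10) with h2 | h2
  · rw [th_zero1 ht0 h2, sub_zero] at h
    exact (VMC_a h1 ht1 h hy0 hy1.le).elim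
  -- second interval
  have hfirst : ∀ s : ℝ, th t = s → -1 ≤ s → s ≤ 0 → (9/10 < y - th t ∧ y - th t ≤ 1) := by
    intro s hs hs1 hs2
    rw [hs] at h ⊢
    constructor
    · by_contra hc
      exact VMC_a h1 ht1 h (by linarith) (not_lt.1 hc)
    · by_contra hc
      exact VMC_b h1 ht1 h (not_le.1 hc) (by linarith)
  have hsecond : ∀ s : ℝ, th t = s → 0 ≤ s → s ≤ 1 → (-(1/10) < y - th t ∧ y - th t ≤ 0) := by
    intro s hs hs1 hs2
    rw [hs] at h ⊢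
    constructor
    · by_contra hc
      exact VMC_c h1 ht1 h (by linarith) (not_lt.1 hc)
    · by_contra hc
      exact VMC_a h1 ht1 h (not_le.1 hc) (by linarith)
  rcases lt_trichotomy t (3/10) with h3 | h3 | h3
  · left
    exact ⟨Or.inl ⟨h2, h3⟩, hfirst _ (th_r1 h2.le h3.le) (by linarith) (by linarith)⟩
  · exfalso
    obtain ⟨h4, h5⟩ := hfirst _ (th_r1 h2.le h3.le) (by linarith) (by linarith)
    rw [th_r1 h2.le h3.le] at h5
    linarith
  rcases lt_or_ge t (4/10) with h4 | h4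
  · left
    exact ⟨Or.inr ⟨h3, h4⟩, hfirst _ (th_r2 h3.le h4.le) (by linarith) (by linarith)⟩
  rcases le_or_gt t (6/10) with h5 | h5
  · rw [th_zero2 h4 h5, sub_zero] at h
    exact (VMC_a h1 ht1 h hy0 hy1.le).elim
  rcases lt_trichotomy t (7/10) with h6 | h6 | h6
  · right
    exact ⟨Or.inl ⟨h5, h6⟩, hsecond _ (th_r3 h5.le h6.le) (by linarith) (by linarith)⟩
  · exfalso
    obtain ⟨h7, h8⟩ := hsecond _ (th_r3 h5.le h6.le) (by linarith) (by linarith)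
    rw [th_r3 h5.le h6.le] at h7
    linarith
  rcases lt_or_ge t (8/10) with h7 | h7
  · right
    exact ⟨Or.inr ⟨h6, h7⟩, hsecond _ (th_r4 h6.le h7.le) (by linarith) (by linarith)⟩
  · rw [th_zero3 h7 ht1.le, sub_zero] at h
    exact (VMC_a h1 ht1 h hy0 hy1.le).elim

end H45T
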